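import Pool.Agent.Lib.H1F.MO.M8
import Pool.Agent.Lib.H1F.Atlas

/-!
# H1F, chunk M9

The gluing condition for `X`.
-/

open MvPolynomial

namespace H1F

variable {R₀ K : Type*} [CommRing R₀] [Field K] [Algebra R₀ K]

/-- Charts of `X`: a chart of `B`, or `P1`, or `P2`. -/
theorem Ch.inX_cases {c : Ch} (hc : c.inX) : c.inB ∨ c = .P1 ∨ c = .P2 := by
  cases c <;> simp_all [Ch.inX, Ch.inB]

/-- The coordinate `n` in terms of `n'`. -/
theorem nn_of_nn' {E : Subalgebra R₀ K} (p : ℕ) {A v w : K} (hN : ∀ i, fn p A v w i ≠ 0)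
    (h1 : (w - 1) / (v - 1) ∈ E)
    (h2 : -(((v - 1) / (w - 1)) ^ 2 * nn p A v w + p * ((v - 1) / (w - 1))) ∈ E) :
    nn p A v w ∈ E := by
  have hv : v - 1 ≠ 0 := hN 3
  have hw : w - 1 ≠ 0 := hN 4
  have h3 : nn p A v w =
      -(((w - 1) / (v - 1)) ^ 2 *
        -(((v - 1) / (w - 1)) ^ 2 * nn p A v w + p * ((v - 1) / (w - 1)))
        + (p : K) * ((w - 1) / (v - 1))) := by
    field_simp
    ring
  rw [h3]
  exact neg_mem (add_mem (mul_mem (pow_mem h1 _) h2) (mul_mem (natCast_mem E _) h1))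

/-- The intersection of two charts of `X`. -/
theorem sup_eq (p : ℕ) (hp : 5 ≤ p) {A v w : K} (hN : ∀ i, fn p A v w i ≠ 0) (c d : Ch)
    (hc : c.inX) (hd : d.inX) : ring R₀ p A v w c ⊔ ring R₀ p A v w d =
      ring R₀ p A v w d ⊔ Algebra.adjoin R₀ {(mono p A v w (es p c - es p d))⁻¹} := by
  apply le_antisymm
  · refine sup_le ?_ le_sup_left
    have hmono : ∀ e, Eff p c e → mono p A v w e ∈
        ring R₀ p A v w d ⊔ Algebra.adjoin R₀ {(mono p A v w (es p c - es p d))⁻¹} :=
      fun e he ↦ mono_mem_loc p hp hN c d hc hd fun P hP _ ↦ he P hP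
    rcases Ch.inX_cases hc with hB | rfl | rfl
    · exact ring_le p hN c hB _ hmono
    · refine P1_le p hN _ hmono ?_
      rcases Ch.inX_cases hd with hB' | rfl | rfl
      · exact nn'_mem p hp hN d hB'
      · refine (le_sup_left : ring R₀ p A v w .P1 ≤ _) ?_
        exact Algebra.subset_adjoin (by simp)
      · refine (le_sup_left : ring R₀ p A v w .P2 ≤ _) ?_
        have h1 : nn p A v w ∈ ring R₀ p A v w .P2 := Algebra.subset_adjoin (by simp)
        have h2 : (v - 1) / (w - 1) ∈ ring R₀ p A v w .P2 := Algebra.subset_adjoin (by simp)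
        exact neg_mem (add_mem (mul_mem (pow_mem h2 _) h1) (mul_mem (natCast_mem _ _) h2))
    · refine P2_le p hN _ hmono ?_
      rcases Ch.inX_cases hd with hB' | rfl | rfl
      · exact nn_mem p hp hN d hB'
      · refine (le_sup_left : ring R₀ p A v w .P1 ≤ _) ?_
        have h1 : -(((v - 1) / (w - 1)) ^ 2 * nn p A v w + p * ((v - 1) / (w - 1))) ∈
            ring R₀ p A v w .P1 := Algebra.subset_adjoin (by simp)
        have h2 : (w - 1) / (v - 1) ∈ ring R₀ p A v w .P1 := Algebra.subset_adjoin (by simp)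
        exact nn_of_nn' p hN h2 h1
      · refine (le_sup_left : ring R₀ p A v w .P2 ≤ _) ?_
        exact Algebra.subset_adjoin (by simp)
  · refine sup_le le_sup_right ?_
    rw [Algebra.adjoin_le_iff, Set.singleton_subset_iff]
    refine (le_sup_left : ring R₀ p A v w c ≤ _) ?_
    rw [← mono_neg, neg_sub]
    exact section_mem p hp hN d c hd hc

/-- Polynomials in elements of a subfield which contains the base ring. -/
theorem aeval_mem_subfield (F : Subfield K) (hF : ∀ r : R₀, algebraMap R₀ K r ∈ F)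
    {f : Fin 3 → K} (hf : ∀ i, f i ∈ F) (q : MvPolynomial (Fin 3) R₀) : aeval f q ∈ F := by
  induction q using MvPolynomial.induction_on with
  | C a => rw [aeval_C]; exact hF a
  | add a b ha hb => rw [map_add]; exact add_mem ha hb
  | mul_X a i ha => rw [map_mul, aeval_X]; exact mul_mem ha (hf i)

/-- The fraction field of every chart ring is `K`, if `K` is generated by `A, v, w`. -/
theorem ring_frac (p : ℕ) {A v w : K} (hN : ∀ i, fn p A v w i ≠ 0)
    (hK : ∀ x : K, ∃ a b : MvPolynomial (Fin 3) R₀, aeval ![A, v, w] b ≠ 0 ∧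
      x * aeval ![A, v, w] b = aeval ![A, v, w] a) (c : Ch) :
    IsFractionRing (ring R₀ p A v w c) K := by
  have hv : v ≠ 0 := hN 1
  have hw : w ≠ 0 := hN 2
  set F : Subfield K := Subfield.closure (ring R₀ p A v w c : Set K) with hFdef
  have hRF : ∀ x ∈ ring R₀ p A v w c, x ∈ F := fun x hx ↦ Subfield.subset_closure hx
  have hF0 : ∀ r : R₀, algebraMap R₀ K r ∈ F := fun r ↦ hRF _ (Subalgebra.algebraMap_mem _ r)
  have hsub : ∀ x : K, x - 1 ∈ F → x ∈ F := fun x hx ↦ by
    have := add_mem hx (one_mem F)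
    rwa [sub_add_cancel] at this
  have hinv : ∀ x : K, x⁻¹ ∈ F → x ∈ F := fun x hx ↦ by
    have := inv_mem hx
    rwa [inv_inv] at this
  have key : A ∈ F ∧ v ∈ F ∧ w ∈ F := by
    -- the frames
    have hframe : ∀ f : Fin 6, fa p A v w f ∈ F → fv v w f ∈ F → fw v w f ∈ F →
        A ∈ F ∧ v ∈ F ∧ w ∈ F := by
      intro f ha hv' hw'
      fin_cases f
      · exact ⟨ha, hv', hw'⟩
      · exact ⟨ha, hw', hv'⟩
      · have ha' : A / v ^ p ∈ F := ha
        have hv1 : v⁻¹ ∈ F := hv'
        have hw1 : w / v ∈ F := hw'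
        have hv2 := hinv _ hv1
        refine ⟨?_, hv2, ?_⟩
        · have := mul_mem ha' (pow_mem hv2 p)
          rwa [div_mul_cancel₀ _ (pow_ne_zero _ hv)] at this
        · have := mul_mem hw1 hv2
          rwa [div_mul_cancel₀ _ hv] at this
      · have ha' : A / v ^ p ∈ F := ha
        have hv1 : v⁻¹ ∈ F := hw'
        have hw1 : w / v ∈ F := hv'
        have hv2 := hinv _ hv1
        refine ⟨?_, hv2, ?_⟩
        · have := mul_mem ha' (pow_mem hv2 p)
          rwa [div_mul_cancel₀ _ (pow_ne_zero _ hv)] at this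
        · have := mul_mem hw1 hv2
          rwa [div_mul_cancel₀ _ hv] at this
      · have ha' : A / w ^ p ∈ F := ha
        have hw1 : w⁻¹ ∈ F := hv'
        have hv1 : v / w ∈ F := hw'
        have hw2 := hinv _ hw1
        refine ⟨?_, ?_, hw2⟩
        · have := mul_mem ha' (pow_mem hw2 p)
          rwa [div_mul_cancel₀ _ (pow_ne_zero _ hw)] at this
        · have := mul_mem hv1 hw2
          rwa [div_mul_cancel₀ _ hw] at this
      · have ha' : A / w ^ p ∈ F := ha
        have hw1 : w⁻¹ ∈ F := hw'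
        have hv1 : v / w ∈ F := hv'
        have hw2 := hinv _ hw1
        refine ⟨?_, ?_, hw2⟩
        · have := mul_mem ha' (pow_mem hw2 p)
          rwa [div_mul_cancel₀ _ (pow_ne_zero _ hw)] at this
        · have := mul_mem hv1 hw2
          rwa [div_mul_cancel₀ _ hw] at this
    cases c with
    | NI f =>
      refine hframe f ?_ ?_ ?_
      · exact hinv _ (hRF _ (Algebra.subset_adjoin (by simp)))
      · exact hsub _ (hRF _ (Algebra.subset_adjoin (by simp)))
      · exact hsub _ (hinv _ (hRF _ (Algebra.subset_adjoin (by simp))))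
    | NII f =>
      have h1 : fa p A v w f - 1 ∈ F := hRF _ (Algebra.subset_adjoin (by simp))
      have h2 : (fv v w f - 1) / (fa p A v w f - 1) ∈ F :=
        hRF _ (Algebra.subset_adjoin (by simp))
      refine hframe f (hsub _ h1) ?_ ?_
      · have h0 : fa p A v w f - 1 ≠ 0 := fn_frame p hN f 6
        have := mul_mem h2 h1
        rw [div_mul_cancel₀ _ h0] at this
        exact hsub _ this
      · exact hsub _ (hinv _ (hRF _ (Algebra.subset_adjoin (by simp))))
    | M i =>
      fin_cases i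
      · refine hframe 0 ?_ ?_ ?_
        · exact hRF _ (Algebra.subset_adjoin (by simp [fa]))
        · exact hsub _ (hinv _ (hRF _ (Algebra.subset_adjoin (by simp [fv]))))
        · exact hsub _ (hinv _ (hRF _ (Algebra.subset_adjoin (by simp [fw]))))
      · refine hframe 2 ?_ ?_ ?_
        · exact hRF _ (Algebra.subset_adjoin (by simp [fa]))
        · exact hsub _ (hinv _ (hRF _ (Algebra.subset_adjoin (by simp [fv]))))
        · exact hsub _ (hinv _ (hRF _ (Algebra.subset_adjoin (by simp [fw]))))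
      · refine hframe 4 ?_ ?_ ?_
        · exact hRF _ (Algebra.subset_adjoin (by simp [fa]))
        · exact hsub _ (hinv _ (hRF _ (Algebra.subset_adjoin (by simp [fv]))))
        · exact hsub _ (hinv _ (hRF _ (Algebra.subset_adjoin (by simp [fw]))))
    | T6 =>
      exact ⟨hRF _ (Algebra.subset_adjoin (by simp)), hRF _ (Algebra.subset_adjoin (by simp)),
        hRF _ (Algebra.subset_adjoin (by simp))⟩
    | P1 =>
      exact ⟨hinv _ (hRF _ (Algebra.subset_adjoin (by simp))),
        hinv _ (hRF _ (Algebra.subset_adjoin (by simp))),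
        hinv _ (hRF _ (Algebra.subset_adjoin (by simp)))⟩
    | P2 =>
      exact ⟨hinv _ (hRF _ (Algebra.subset_adjoin (by simp))),
        hinv _ (hRF _ (Algebra.subset_adjoin (by simp))),
        hinv _ (hRF _ (Algebra.subset_adjoin (by simp)))⟩
    | P3 =>
      exact ⟨hinv _ (hRF _ (Algebra.subset_adjoin (by simp))),
        hinv _ (hRF _ (Algebra.subset_adjoin (by simp))),
        hinv _ (hRF _ (Algebra.subset_adjoin (by simp)))⟩
    | P4 =>
      exact ⟨hinv _ (hRF _ (Algebra.subset_adjoin (by simp))),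
        hinv _ (hRF _ (Algebra.subset_adjoin (by simp))),
        hinv _ (hRF _ (Algebra.subset_adjoin (by simp)))⟩
    | Y0 =>
      exact ⟨hinv _ (hRF _ (Algebra.subset_adjoin (by simp))),
        hinv _ (hRF _ (Algebra.subset_adjoin (by simp))),
        hinv _ (hRF _ (Algebra.subset_adjoin (by simp)))⟩
  have hf : ∀ i : Fin 3, (![A, v, w] : Fin 3 → K) i ∈ F := by
    intro i
    fin_cases i
    · exact key.1
    · exact key.2.1
    · exact key.2.2
  refine IsFractionRing.of_field (ring R₀ p A v w c) K fun z ↦ ?_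
  obtain ⟨a, b, hb, hab⟩ := hK z
  have hz : z ∈ F := by
    have h1 := div_mem (aeval_mem_subfield F hF0 hf a) (aeval_mem_subfield F hF0 hf b)
    rwa [← hab, mul_div_assoc, div_self hb, mul_one] at h1
  rw [hFdef, Subfield.mem_closure_iff] at hz
  obtain ⟨x, hx, y, hy, hxy⟩ := hz
  have hcl : Subring.closure (ring R₀ p A v w c : Set K) = (ring R₀ p A v w c).toSubring :=
    Subring.closure_eq (ring R₀ p A v w c).toSubring
  rw [hcl] at hx hy
  exact ⟨⟨x, hx⟩, ⟨y, hy⟩, hxy.symm⟩

instance : Finite Ch := by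
  let φ : Fin 6 ⊕ Fin 6 ⊕ Fin 3 ⊕ Fin 6 → Ch := fun x ↦
    match x with
    | .inl f => .NI f
    | .inr (.inl f) => .NII f
    | .inr (.inr (.inl i)) => .M i
    | .inr (.inr (.inr j)) => ![.T6, .P1, .P2, .P3, .P4, .Y0] j
  refine Finite.of_surjective φ ?_
  intro c
  cases c with
  | NI f => exact ⟨.inl f, rfl⟩
  | NII f => exact ⟨.inr (.inl f), rfl⟩
  | M i => exact ⟨.inr (.inr (.inl i)), rfl⟩
  | T6 => exact ⟨.inr (.inr (.inr 0)), rfl⟩
  | P1 => exact ⟨.inr (.inr (.inr 1)), rfl⟩
  | P2 => exact ⟨.inr (.inr (.inr 2)), rfl⟩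
  | P3 => exact ⟨.inr (.inr (.inr 3)), rfl⟩
  | P4 => exact ⟨.inr (.inr (.inr 4)), rfl⟩
  | Y0 => exact ⟨.inr (.inr (.inr 5)), rfl⟩

instance : Nonempty {c : Ch // c.inX} := ⟨⟨.T6, trivial⟩⟩

instance : Nonempty {c : Ch // c.inX'} := ⟨⟨.T6, trivial⟩⟩

instance : Nonempty {c : Ch // c.inY} := ⟨⟨.T6, trivial⟩⟩

theorem glueCond_X (p : ℕ) (hp : 5 ≤ p) {A v w : K} (hN : ∀ i, fn p A v w i ≠ 0)
    (hK : ∀ x : K, ∃ a b : MvPolynomial (Fin 3) R₀, aeval ![A, v, w] b ≠ 0 ∧
      x * aeval ![A, v, w] b = aeval ![A, v, w] a) :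
    GlueCond (fun c : {c : Ch // c.inX} ↦ ring R₀ p A v w c.1) where
  frac i := ring_frac p hN hK i.1
  loc i j := ⟨mono p A v w (es p j.1 - es p i.1), section_mem p hp hN j.1 i.1 j.2 i.2,
    mono_ne_zero hN _, by rw [sup_comm, sup_eq p hp hN j.1 i.1 j.2 i.2]⟩

end H1F
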