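import Pool.Agent.Lib.H1F.MO.M11
import Pool.Agent.Lib.H1F.MO.M9

/-!
# H1F, chunk M12

The gluing condition for `Y`.
-/

open MvPolynomial

namespace H1F

variable {R₀ K : Type*} [CommRing R₀] [Field K] [Algebra R₀ K]

/-- The ring `Y0` lies in every ring which contains the monomials which are effective along the
primes of `Y0` in `D`. -/
theorem Y0_le_of (p : ℕ) [Fact p.Prime] [CharP K p] {A v w : K} (hN : ∀ i, fn p A v w i ≠ 0)
    (E : Subalgebra R₀ K) (D : Finset (Fin 16)) (h2 : 14 ∉ D ∨ 12 ∉ D) (h1 : 13 ∉ D ∨ 12 ∉ D)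
    (h : ∀ e : Fin 9 → ℤ, (∀ P ∈ pres .Y0, P ∈ D → 0 ≤ vF p e P) → mono p A v w e ∈ E) :
    Y0 R₀ p A v w ≤ E := by
  obtain ⟨hy1, hy2, hy3⟩ := yy_eq p hN
  have hfn : ∀ i : Fin 9, (∀ P ∈ pres .Y0, 0 ≤ vF p (Pi.single i 1) P) → fn p A v w i ∈ E :=
    fun i hi ↦ fn_mem p E _ D h i fun P hP _ ↦ hi P hP
  have hinv : ∀ i : Fin 9, (∀ P ∈ pres .Y0, 0 ≤ vF p (-Pi.single i 1) P) →
      (fn p A v w i)⁻¹ ∈ E := fun i hi ↦ by
    rw [fn_eq_mono p A v w i, ← mono_neg]
    exact h _ fun P hP _ ↦ hi P hP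
  have hv : v - 1 ∈ E := by
    refine hfn 3 ?_
    intro P hP
    simp only [pres, Finset.mem_insert, Finset.mem_singleton] at hP
    rcases hP with rfl | rfl | rfl | rfl | rfl | rfl | rfl <;> simp [vF]
  have hw : w - 1 ∈ E := by
    refine hfn 4 ?_
    intro P hP
    simp only [pres, Finset.mem_insert, Finset.mem_singleton] at hP
    rcases hP with rfl | rfl | rfl | rfl | rfl | rfl | rfl <;> simp [vF]
  have hn := nn_mem_of p hN E D h2 h
  have hn' := nn'_mem_of p hN E D h1 h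
  rw [hy3] at hn'
  rw [hy2] at hn
  rw [Y0, Algebra.adjoin_le_iff]
  rintro x (rfl | rfl | rfl | rfl | rfl | rfl | rfl | rfl)
  · exact hv
  · exact hw
  · have := neg_mem hn'
    rwa [neg_neg] at this
  · show (v - 1) * (w - 1) * yy p A v w ∈ E
    rw [hy1]
    refine add_mem ?_ (pow_mem hv _)
    refine fn_div_mem p hN E _ D h 7 5 ?_
    intro P hP hPD
    simp only [pres, Finset.mem_insert, Finset.mem_singleton] at hP
    rcases hP with rfl | rfl | rfl | rfl | rfl | rfl | rfl <;> simp [vF]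
  · exact hn
  · refine hinv 0 ?_
    intro P hP
    simp only [pres, Finset.mem_insert, Finset.mem_singleton] at hP
    rcases hP with rfl | rfl | rfl | rfl | rfl | rfl | rfl <;> simp [vF]
  · refine hinv 1 ?_
    intro P hP
    simp only [pres, Finset.mem_insert, Finset.mem_singleton] at hP
    rcases hP with rfl | rfl | rfl | rfl | rfl | rfl | rfl <;> simp [vF]
  · refine hinv 2 ?_
    intro P hP
    simp only [pres, Finset.mem_insert, Finset.mem_singleton] at hP
    rcases hP with rfl | rfl | rfl | rfl | rfl | rfl | rfl <;> simp [vF]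

/-- `π = 3` instead of `π = 4`. -/
theorem hH_le (p : ℕ) (P : Fin 16) : hH p 4 P ≤ hH p 3 P := by
  fin_cases P <;> simp [hH]

theorem hH_eq (p : ℕ) {P : Fin 16} (hP : P ≠ 15) : hH p 4 P = hH p 3 P := by
  fin_cases P <;> simp_all [hH]

theorem vF_es_B_mem (p : ℕ) (hp : 5 ≤ p) {c : Ch} (hc : c.inB) {P : Fin 16} (hP : P ∈ pres c) :
    vF p (es p c) P + hH p 3 P = 0 := by
  have h15 : P ≠ 15 := fun h0 ↦ (pres_B c hc).1 (h0 ▸ hP)
  rw [← hH_eq p h15]
  exact vF_es_mem p hp c hc.inX P hP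

theorem vF_es_B_notMem (p : ℕ) (hp : 5 ≤ p) {c : Ch} (hc : c.inB) {P : Fin 16}
    (hP : P ∉ pres c) : 0 < vF p (es p c) P + hH p 3 P := by
  have h1 := vF_es_notMem p hp c hc.inX P hP
  have h2 := hH_le p P
  omega

/-- Charts of `Y`. -/
theorem Ch.inY_cases {c : Ch} (hc : c.inY) : c.inB ∨ c = .Y0 := by
  cases c <;> simp_all [Ch.inY, Ch.inB]

/-- The order of `s c`, for the charts of `Y`. -/
theorem vF_es_Y_mem (p : ℕ) (hp : 5 ≤ p) {c : Ch} (hc : c.inY) {P : Fin 16} (hP : P ∈ pres c) :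
    vF p (es p c) P + hH p 3 P = 0 := by
  rcases Ch.inY_cases hc with hB | rfl
  · exact vF_es_B_mem p hp hB hP
  · exact vF_es_Y0 p P hP

theorem vF_es_Y_notMem (p : ℕ) (hp : 5 ≤ p) {c : Ch} (hc : c.inY) {P : Fin 16}
    (hP : P ∉ pres c) : 0 < vF p (es p c) P + hH p 3 P := by
  rcases Ch.inY_cases hc with hB | rfl
  · exact vF_es_B_notMem p hp hB hP
  · exact vF_es_Y0' p hp P hP

theorem Ch.inB.inY {c : Ch} (hc : c.inB) : c.inY := by
  cases c <;> simp_all [Ch.inY, Ch.inB]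

variable {k : Type*} [Field k] [Algebra k K] (p : ℕ) [Fact p.Prime] [CharP k p] {A v w : K}

/-- Monomials in the charts of `Y`. -/
theorem mono_mem_Y (hp : 5 ≤ p) (h : AlgebraicIndependent k ![A, v, w]) {c : Ch} (hc : c.inY)
    {e : Fin 9 → ℤ} (he : Eff p c e) : mono p A v w e ∈ ring k p A v w c := by
  rcases Ch.inY_cases hc with hB | rfl
  · exact mono_mem p (fn_ne_zero p hp h) c hB.inX he
  · exact Y0_mono p h he

/-- Monomials in `R d [1/(s c / s d)]` for charts `c, d` of `Y`, as `mono_mem_loc`. -/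
theorem mono_mem_loc_Y (hp : 5 ≤ p) (h : AlgebraicIndependent k ![A, v, w]) (c d : Ch)
    (hc : c.inY) (hd : d.inY) {e : Fin 9 → ℤ} (he : ∀ P ∈ pres c, P ∈ pres d → 0 ≤ vF p e P) :
    mono p A v w e ∈
      ring k p A v w d ⊔ Algebra.adjoin k {(mono p A v w (es p c - es p d))⁻¹} := by
  refine mono_mem_loc_aux p (fn_ne_zero p hp h) (pres d) (pres c) (es p c - es p d)
    (fun e he ↦ mono_mem_Y p hp h hd he) ?_ ?_ he
  · intro P hPd hPc
    have h1 := vF_es_Y_mem p hp hc hPc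
    have h2 := vF_es_Y_mem p hp hd hPd
    rw [vF_sub, Pi.sub_apply]
    omega
  · intro P hPd hPc
    have h1 := vF_es_Y_notMem p hp hc hPc
    have h2 := vF_es_Y_mem p hp hd hPd
    rw [vF_sub, Pi.sub_apply]
    omega

theorem section_mem_Y' (hp : 5 ≤ p) (h : AlgebraicIndependent k ![A, v, w]) (c d : Ch)
    (hc : c.inY) (hd : d.inY) : mono p A v w (es p c - es p d) ∈ ring k p A v w d := by
  refine mono_mem_Y p hp h hd ?_
  intro P hPd
  have h2 := vF_es_Y_mem p hp hd hPd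
  rw [vF_sub, Pi.sub_apply]
  by_cases hPc : P ∈ pres c
  · have h1 := vF_es_Y_mem p hp hc hPc
    omega
  · have h1 := vF_es_Y_notMem p hp hc hPc
    omega

/-- Monomials in `R c [1/(s Y0 / s c)]`, as `mono_mem_loc`, with `π = 3`. -/
theorem mono_mem_loc_Y0 (hp : 5 ≤ p) (h : AlgebraicIndependent k ![A, v, w]) (c : Ch)
    (hc : c.inB) {e : Fin 9 → ℤ} (he : ∀ P ∈ pres c, P ∈ pres .Y0 → 0 ≤ vF p e P) :
    mono p A v w e ∈
      ring k p A v w c ⊔ Algebra.adjoin k {(mono p A v w (es p .Y0 - es p c))⁻¹} ∧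
    mono p A v w e ∈
      Y0 k p A v w ⊔ Algebra.adjoin k {(mono p A v w (es p c - es p .Y0))⁻¹} :=
  ⟨mono_mem_loc_Y p hp h .Y0 c trivial hc.inY fun P h1 h2 ↦ he P h2 h1,
    mono_mem_loc_Y p hp h c .Y0 hc.inY trivial he⟩

/-- `Y0 ≤ R c [1/(s Y0 / s c)]`: `β δ y = (A-v^p)/(v-w) + β^(p-1)`;
`β^2 y = (β/δ)((A-v^p)/(v-w) + β^(p-1))` if `E_y` does not meet `c`, otherwise
`β^2 y = (β/(β-δ)) ((A-1)/δ - β^(p-1))`; `δ^2 y = (δ/β)((A-v^p)/(v-w) + β^(p-1))` if `E_z` does not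
meet `c`, otherwise `δ^2 y = (δ/(β-δ)) ((A-1)/β - β^(p-2) δ)`. -/
theorem sup_Y0 (hp : 5 ≤ p) (h : AlgebraicIndependent k ![A, v, w]) (c : Ch) (hc : c.inB) :
    ring k p A v w c ⊔ Y0 k p A v w =
      ring k p A v w c ⊔ Algebra.adjoin k {(mono p A v w (es p .Y0 - es p c))⁻¹} ∧
    ring k p A v w c ⊔ Y0 k p A v w =
      Y0 k p A v w ⊔ Algebra.adjoin k {(mono p A v w (es p c - es p .Y0))⁻¹} := by
  have hN := fn_ne_zero p hp h
  have : CharP K p := charP_of_injective_algebraMap (algebraMap k K).injective p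
  constructor
  · apply le_antisymm
    · refine sup_le le_sup_left ?_
      obtain ⟨-, -, h13, h14⟩ := pres_B c hc
      refine Y0_le_of p hN _ (pres c) ?_ ?_ fun e he ↦
        (mono_mem_loc_Y0 p hp h c hc fun P h1 h2 ↦ he P h2 h1).1
      · by_cases h0 : (14 : Fin 16) ∈ pres c
        · exact Or.inr (h14 h0).1
        · exact Or.inl h0
      · by_cases h0 : (13 : Fin 16) ∈ pres c
        · exact Or.inr (h13 h0).1
        · exact Or.inl h0
    · refine sup_le le_sup_left ?_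
      rw [Algebra.adjoin_le_iff, Set.singleton_subset_iff]
      refine (le_sup_right : Y0 k p A v w ≤ _) ?_
      rw [← mono_neg, neg_sub]
      exact section_mem_Y' p hp h c .Y0 hc.inY trivial
  · apply le_antisymm
    · refine sup_le ?_ le_sup_left
      exact ring_le p hN c hc _ fun e he ↦ (mono_mem_loc_Y0 p hp h c hc fun P h1 _ ↦ he P h1).2
    · refine sup_le le_sup_right ?_
      rw [Algebra.adjoin_le_iff, Set.singleton_subset_iff]
      refine (le_sup_left : ring k p A v w c ≤ _) ?_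
      rw [← mono_neg, neg_sub]
      exact section_mem_Y' p hp h .Y0 c trivial hc.inY

/-- The sections for `Y` (for the ample divisor on `Y`): charts `c, d` of `Y`. -/
theorem section_mem_Y (hp : 5 ≤ p) (h : AlgebraicIndependent k ![A, v, w]) (c d : Ch)
    (hc : c.inY) (hd : d.inY) : mono p A v w (es p c - es p d) ∈ ring k p A v w d ∧
      ring k p A v w c ⊔ ring k p A v w d =
        ring k p A v w d ⊔ Algebra.adjoin k {(mono p A v w (es p c - es p d))⁻¹} := by
  refine ⟨section_mem_Y' p hp h c d hc hd, ?_⟩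
  rcases Ch.inY_cases hc with hcB | rfl <;> rcases Ch.inY_cases hd with hdB | rfl
  · exact sup_eq p hp (fn_ne_zero p hp h) c d hcB.inX hdB.inX
  · exact (sup_Y0 p hp h c hcB).2
  · rw [sup_comm]
    exact (sup_Y0 p hp h d hdB).1
  · rw [sub_self, mono_zero, inv_one, sup_idem]
    symm
    rw [sup_eq_left, Algebra.adjoin_le_iff, Set.singleton_subset_iff]
    exact one_mem _

theorem glueCond_Y (hp : 5 ≤ p) (h : AlgebraicIndependent k ![A, v, w])
    (hK : ∀ x : K, ∃ a b : MvPolynomial (Fin 3) k, aeval ![A, v, w] b ≠ 0 ∧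
      x * aeval ![A, v, w] b = aeval ![A, v, w] a) :
    GlueCond (fun c : {c : Ch // c.inY} ↦ ring k p A v w c.1) where
  frac i := ring_frac p (fn_ne_zero p hp h) hK i.1
  loc i j := ⟨mono p A v w (es p j.1 - es p i.1), (section_mem_Y p hp h j.1 i.1 j.2 i.2).1,
    mono_ne_zero (fn_ne_zero p hp h) _, by
      rw [sup_comm, (section_mem_Y p hp h j.1 i.1 j.2 i.2).2]⟩

end H1F
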