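import Pool.Agent.Lib.H1F.MO.M5

/-!
# H1F, chunk M10

Characteristic `p`: the charts `Y0`, `P1`, `P2`, `P3`, `P4`.
-/

open MvPolynomial

namespace H1F

variable {R₀ K : Type*} [CommRing R₀] [Field K] [Algebra R₀ K]

theorem th_char (p : ℕ) [Fact p.Prime] {S : Type*} [CommRing S] [CharP S p] (b : S) :
    th p b = b ^ (p - 1) := by
  have hp : p.Prime := Fact.out
  unfold th
  rw [Finset.sum_eq_single p]
  · rw [Nat.choose_self, Nat.cast_one, one_mul]
  · intro j hj hjp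
    rw [Finset.mem_Icc] at hj
    have h1 : p ∣ p.choose j := hp.dvd_choose_self (by omega) (by omega)
    rw [(CharP.cast_eq_zero_iff S p _).2 h1, zero_mul]
  · intro h
    exact absurd (Finset.mem_Icc.2 ⟨hp.two_le, le_rfl⟩) h

variable (p : ℕ) [Fact p.Prime] {A v w : K}

omit [Fact p.Prime] in
theorem M10_ne (hN : ∀ i, fn p A v w i ≠ 0) : A ≠ 0 ∧ v ≠ 0 ∧ w ≠ 0 ∧ v - 1 ≠ 0 ∧ w - 1 ≠ 0 ∧
    v - w ≠ 0 ∧ A - 1 ≠ 0 ∧ A - v ^ p ≠ 0 ∧ A - w ^ p ≠ 0 :=
  ⟨hN 0, hN 1, hN 2, hN 3, hN 4, hN 5, hN 6, hN 7, hN 8⟩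

omit [Fact p.Prime] in
theorem M10_A (hN : ∀ i, fn p A v w i ≠ 0) :
    A = 1 + (v - 1) ^ (p - 1) * (w - 1) + (v - w) * ((v - 1) * (w - 1) * yy p A v w) := by
  obtain ⟨-, -, -, h1, h2, h3, -⟩ := M10_ne p hN
  unfold yy
  field_simp
  ring

theorem M10_vp [CharP K p] (x : K) : x ^ p = (x - 1) ^ p + 1 := by
  rw [sub_pow_char, one_pow, sub_add_cancel]

/-- `β δ y = (A - v^p)/(v-w) + β^(p-1)`, `n = δ^2 y`. -/
theorem yy_eq [CharP K p] (hN : ∀ i, fn p A v w i ≠ 0) :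
    (v - 1) * (w - 1) * yy p A v w = (A - v ^ p) / (v - w) + (v - 1) ^ (p - 1) ∧
    nn p A v w = (w - 1) ^ 2 * yy p A v w ∧
    -(((v - 1) / (w - 1)) ^ 2 * nn p A v w + p * ((v - 1) / (w - 1))) =
      -((v - 1) ^ 2 * yy p A v w) := by
  obtain ⟨hA0, hv0, hw0, h1, h2, h3, -⟩ := M10_ne p hN
  have hA := M10_A p hN
  have hp0 : (p : K) = 0 := CharP.cast_eq_zero K p
  have hvp := M10_vp p v
  have hp : 2 ≤ p := (Fact.out : p.Prime).two_le
  have e1 : (v - 1) * (w - 1) * yy p A v w = (A - v ^ p) / (v - w) + (v - 1) ^ (p - 1) := by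
    rw [div_add' _ _ _ h3, eq_div_iff h3]
    obtain ⟨q, rfl⟩ : ∃ q, p = q + 1 := ⟨p - 1, by omega⟩
    rw [Nat.add_sub_cancel] at hA ⊢
    linear_combination -hA + hvp
  have e2 : nn p A v w = (w - 1) ^ 2 * yy p A v w := by
    unfold nn
    have h4 : (v ^ p - 1 - p * (v - 1)) / (v - 1) = (v - 1) ^ (p - 1) := by
      rw [hp0, hvp, div_eq_iff h1]
      obtain ⟨q, rfl⟩ : ∃ q, p = q + 1 := ⟨p - 1, by omega⟩
      rw [Nat.add_sub_cancel]
      ring
    rw [h4, ← e1]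
    field_simp
  refine ⟨e1, e2, ?_⟩
  rw [hp0, e2]
  field_simp
  ring

/-- `A = 1 + β^(p-1) δ + (β - δ) (β δ y)`. -/
theorem A_mem_Y0 (hN : ∀ i, fn p A v w i ≠ 0) : A ∈ Y0 R₀ p A v w := by
  have m : ∀ t ∈ ({v - 1, w - 1, (v - 1) ^ 2 * yy p A v w, (v - 1) * (w - 1) * yy p A v w,
      (w - 1) ^ 2 * yy p A v w, A⁻¹, v⁻¹, w⁻¹} : Set K), t ∈ Y0 R₀ p A v w :=
    fun t ht => Algebra.subset_adjoin ht
  have h1 := m (v - 1) (by simp)
  have h2 := m (w - 1) (by simp)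
  have h3 := m ((v - 1) * (w - 1) * yy p A v w) (by simp)
  have h4 : v - w = (v - 1) - (w - 1) := by ring
  have h5 : 1 + (v - 1) ^ (p - 1) * (w - 1) + (v - w) * ((v - 1) * (w - 1) * yy p A v w) ∈
      Y0 R₀ p A v w := by
    rw [h4]
    exact add_mem (add_mem (one_mem _) (mul_mem (pow_mem h1 _) h2))
      (mul_mem (sub_mem h1 h2) h3)
  rwa [← M10_A p hN] at h5

theorem P2_eq_Y0 [CharP K p] (hN : ∀ i, fn p A v w i ≠ 0) :
    P2 R₀ p A v w = Y0 R₀ p A v w ⊔ Algebra.adjoin R₀ {(v - 1) / (w - 1)} := by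
  obtain ⟨hA0, hv0, hw0, h1, h2, h3, -⟩ := M10_ne p hN
  obtain ⟨-, e2, -⟩ := yy_eq p hN
  have m : ∀ t ∈ ({v - 1, w - 1, (v - 1) ^ 2 * yy p A v w, (v - 1) * (w - 1) * yy p A v w,
      (w - 1) ^ 2 * yy p A v w, A⁻¹, v⁻¹, w⁻¹} : Set K),
      t ∈ Y0 R₀ p A v w ⊔ Algebra.adjoin R₀ {(v - 1) / (w - 1)} :=
    fun t ht => (le_sup_left : Y0 R₀ p A v w ≤ _) (Algebra.subset_adjoin ht)
  have ms : (v - 1) / (w - 1) ∈ Y0 R₀ p A v w ⊔ Algebra.adjoin R₀ {(v - 1) / (w - 1)} :=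
    (le_sup_right : Algebra.adjoin R₀ {(v - 1) / (w - 1)} ≤ _)
      (Algebra.subset_adjoin (Set.mem_singleton _))
  have n : ∀ t ∈ ({(v - 1) / (w - 1), w - 1, nn p A v w, A⁻¹, v⁻¹, w⁻¹} : Set K),
      t ∈ P2 R₀ p A v w := fun t ht => Algebra.subset_adjoin ht
  apply le_antisymm
  · refine Algebra.adjoin_le ?_
    rintro r (hr | hr | hr | hr | hr | hr)
    · rw [hr]; exact ms
    · rw [hr]; exact m _ (by simp)
    · rw [hr, e2]; exact m _ (by simp)
    · rw [hr]; exact m _ (by simp)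
    · rw [hr]; exact m _ (by simp)
    · rw [hr]; exact m _ (by simp)
  · refine sup_le (Algebra.adjoin_le ?_) (Algebra.adjoin_le ?_)
    · have n1 := n ((v - 1) / (w - 1)) (by simp)
      have n2 := n (w - 1) (by simp)
      have n3 := n (nn p A v w) (by simp)
      rintro r (hr | hr | hr | hr | hr | hr | hr | hr)
      · have h4 : r = (v - 1) / (w - 1) * (w - 1) := by rw [hr, div_mul_cancel₀ _ h2]
        rw [h4]; exact mul_mem n1 n2
      · rw [hr]; exact n2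
      · have h4 : r = ((v - 1) / (w - 1)) ^ 2 * nn p A v w := by
          rw [hr, e2]
          field_simp
        rw [h4]; exact mul_mem (pow_mem n1 2) n3
      · have h4 : r = ((v - 1) / (w - 1)) * nn p A v w := by
          rw [hr, e2]
          field_simp
        rw [h4]; exact mul_mem n1 n3
      · rw [hr, ← e2]; exact n3
      · rw [hr]; exact n _ (by simp)
      · rw [hr]; exact n _ (by simp)
      · rw [hr]; exact n _ (by simp)
    · rintro r hr
      rw [Set.mem_singleton_iff] at hr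
      rw [hr]; exact n _ (by simp)

theorem P1_eq_Y0 [CharP K p] (hN : ∀ i, fn p A v w i ≠ 0) :
    P1 R₀ p A v w = Y0 R₀ p A v w ⊔ Algebra.adjoin R₀ {(w - 1) / (v - 1)} := by
  obtain ⟨hA0, hv0, hw0, h1, h2, h3, -⟩ := M10_ne p hN
  obtain ⟨-, -, e3⟩ := yy_eq p hN
  have m : ∀ t ∈ ({v - 1, w - 1, (v - 1) ^ 2 * yy p A v w, (v - 1) * (w - 1) * yy p A v w,
      (w - 1) ^ 2 * yy p A v w, A⁻¹, v⁻¹, w⁻¹} : Set K),
      t ∈ Y0 R₀ p A v w ⊔ Algebra.adjoin R₀ {(w - 1) / (v - 1)} :=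
    fun t ht => (le_sup_left : Y0 R₀ p A v w ≤ _) (Algebra.subset_adjoin ht)
  have ms : (w - 1) / (v - 1) ∈ Y0 R₀ p A v w ⊔ Algebra.adjoin R₀ {(w - 1) / (v - 1)} :=
    (le_sup_right : Algebra.adjoin R₀ {(w - 1) / (v - 1)} ≤ _)
      (Algebra.subset_adjoin (Set.mem_singleton _))
  have n : ∀ t ∈ ({(w - 1) / (v - 1), v - 1,
      -(((v - 1) / (w - 1)) ^ 2 * nn p A v w + p * ((v - 1) / (w - 1))), A⁻¹, v⁻¹, w⁻¹} : Set K),
      t ∈ P1 R₀ p A v w := fun t ht => Algebra.subset_adjoin ht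
  apply le_antisymm
  · refine Algebra.adjoin_le ?_
    rintro r (hr | hr | hr | hr | hr | hr)
    · rw [hr]; exact ms
    · rw [hr]; exact m _ (by simp)
    · rw [hr, e3]; exact neg_mem (m _ (by simp))
    · rw [hr]; exact m _ (by simp)
    · rw [hr]; exact m _ (by simp)
    · rw [hr]; exact m _ (by simp)
  · refine sup_le (Algebra.adjoin_le ?_) (Algebra.adjoin_le ?_)
    · have n1 := n ((w - 1) / (v - 1)) (by simp)
      have n2 := n (v - 1) (by simp)
      have n3 := n _ (Or.inr (Or.inr (Or.inl rfl)))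
      rw [e3] at n3
      replace n3 := neg_mem n3
      rw [neg_neg] at n3
      rintro r (hr | hr | hr | hr | hr | hr | hr | hr)
      · rw [hr]; exact n2
      · have h4 : r = (w - 1) / (v - 1) * (v - 1) := by rw [hr, div_mul_cancel₀ _ h1]
        rw [h4]; exact mul_mem n1 n2
      · rw [hr]; exact n3
      · have h4 : r = ((w - 1) / (v - 1)) * ((v - 1) ^ 2 * yy p A v w) := by
          rw [hr]
          field_simp
        rw [h4]; exact mul_mem n1 n3
      · have h4 : r = ((w - 1) / (v - 1)) ^ 2 * ((v - 1) ^ 2 * yy p A v w) := by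
          rw [hr]
          field_simp
        rw [h4]; exact mul_mem (pow_mem n1 2) n3
      · rw [hr]; exact n _ (by simp)
      · rw [hr]; exact n _ (by simp)
      · rw [hr]; exact n _ (by simp)
    · rintro r hr
      rw [Set.mem_singleton_iff] at hr
      rw [hr]; exact n _ (by simp)

theorem P3_eq_Y0 (hN : ∀ i, fn p A v w i ≠ 0) :
    P3 R₀ p A v w = Y0 R₀ p A v w ⊔ Algebra.adjoin R₀ {yy p A v w} := by
  have m : ∀ t ∈ ({v - 1, w - 1, (v - 1) ^ 2 * yy p A v w, (v - 1) * (w - 1) * yy p A v w,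
      (w - 1) ^ 2 * yy p A v w, A⁻¹, v⁻¹, w⁻¹} : Set K),
      t ∈ Y0 R₀ p A v w ⊔ Algebra.adjoin R₀ {yy p A v w} :=
    fun t ht => (le_sup_left : Y0 R₀ p A v w ≤ _) (Algebra.subset_adjoin ht)
  have ms : yy p A v w ∈ Y0 R₀ p A v w ⊔ Algebra.adjoin R₀ {yy p A v w} :=
    (le_sup_right : Algebra.adjoin R₀ {yy p A v w} ≤ _)
      (Algebra.subset_adjoin (Set.mem_singleton _))
  have n : ∀ t ∈ ({v - 1, w - 1, yy p A v w, A⁻¹, v⁻¹, w⁻¹} : Set K),
      t ∈ P3 R₀ p A v w := fun t ht => Algebra.subset_adjoin ht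
  apply le_antisymm
  · refine Algebra.adjoin_le ?_
    rintro r (hr | hr | hr | hr | hr | hr)
    · rw [hr]; exact m _ (by simp)
    · rw [hr]; exact m _ (by simp)
    · rw [hr]; exact ms
    · rw [hr]; exact m _ (by simp)
    · rw [hr]; exact m _ (by simp)
    · rw [hr]; exact m _ (by simp)
  · have n1 := n (v - 1) (by simp)
    have n2 := n (w - 1) (by simp)
    have n3 := n (yy p A v w) (by simp)
    refine sup_le (Algebra.adjoin_le ?_) (Algebra.adjoin_le ?_)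
    · rintro r (hr | hr | hr | hr | hr | hr | hr | hr)
      · rw [hr]; exact n1
      · rw [hr]; exact n2
      · rw [hr]; exact mul_mem (pow_mem n1 2) n3
      · rw [hr]; exact mul_mem (mul_mem n1 n2) n3
      · rw [hr]; exact mul_mem (pow_mem n2 2) n3
      · rw [hr]; exact n _ (by simp)
      · rw [hr]; exact n _ (by simp)
      · rw [hr]; exact n _ (by simp)
    · rintro r hr
      rw [Set.mem_singleton_iff] at hr
      rw [hr]; exact n3

theorem P4_eq_Y0 (hN : ∀ i, fn p A v w i ≠ 0) :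
    P4 R₀ p A v w = Y0 R₀ p A v w ⊔ Algebra.adjoin R₀ {(yy p A v w)⁻¹} := by
  have m : ∀ t ∈ ({v - 1, w - 1, (v - 1) ^ 2 * yy p A v w, (v - 1) * (w - 1) * yy p A v w,
      (w - 1) ^ 2 * yy p A v w, A⁻¹, v⁻¹, w⁻¹} : Set K),
      t ∈ Y0 R₀ p A v w ⊔ Algebra.adjoin R₀ {(yy p A v w)⁻¹} :=
    fun t ht => (le_sup_left : Y0 R₀ p A v w ≤ _) (Algebra.subset_adjoin ht)
  have ms : (yy p A v w)⁻¹ ∈ Y0 R₀ p A v w ⊔ Algebra.adjoin R₀ {(yy p A v w)⁻¹} :=
    (le_sup_right : Algebra.adjoin R₀ {(yy p A v w)⁻¹} ≤ _)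
      (Algebra.subset_adjoin (Set.mem_singleton _))
  have n : ∀ t ∈ ({v - 1, w - 1, (v - 1) ^ 2 * yy p A v w, (v - 1) * (w - 1) * yy p A v w,
      (w - 1) ^ 2 * yy p A v w, (yy p A v w)⁻¹, A⁻¹, v⁻¹, w⁻¹} : Set K),
      t ∈ P4 R₀ p A v w := fun t ht => Algebra.subset_adjoin ht
  apply le_antisymm
  · refine Algebra.adjoin_le ?_
    rintro r (hr | hr | hr | hr | hr | hr | hr | hr | hr)
    · rw [hr]; exact m _ (by simp)
    · rw [hr]; exact m _ (by simp)
    · rw [hr]; exact m _ (by simp)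
    · rw [hr]; exact m _ (by simp)
    · rw [hr]; exact m _ (by simp)
    · rw [hr]; exact ms
    · rw [hr]; exact m _ (by simp)
    · rw [hr]; exact m _ (by simp)
    · rw [hr]; exact m _ (by simp)
  · refine sup_le (Algebra.adjoin_le ?_) (Algebra.adjoin_le ?_)
    · rintro r (hr | hr | hr | hr | hr | hr | hr | hr)
      · rw [hr]; exact n _ (by simp)
      · rw [hr]; exact n _ (by simp)
      · rw [hr]; exact n _ (by simp)
      · rw [hr]; exact n _ (by simp)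
      · rw [hr]; exact n _ (by simp)
      · rw [hr]; exact n _ (by simp)
      · rw [hr]; exact n _ (by simp)
      · rw [hr]; exact n _ (by simp)
    · rintro r hr
      rw [Set.mem_singleton_iff] at hr
      rw [hr]; exact n _ (by simp)

/-- Monomials in `P3`: `g 14 = v - 1`, `g 13 = w - 1`, `g 12 = v - w`,
`g 9 = (A-1)/(β δ) = β^(p-2) + (β-δ) y`, `g 10 = (A-v^p)/(β (β-δ)) = δ y - β^(p-2)`,
`g 11 = (A-w^p)/(δ (β-δ)) = (β^(p-1)-δ^(p-1))/(β-δ) + β y`. -/
theorem P3_mono [CharP K p] (hp : 5 ≤ p) (hN : ∀ i, fn p A v w i ≠ 0)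
    {e : Fin 9 → ℤ} (he : Eff p .P3 e) : mono p A v w e ∈ P3 R₀ p A v w := by
  obtain ⟨hA0, hv0, hw0, h1, h2, h3, h4, h5, h6⟩ := M10_ne p hN
  have hA := M10_A p hN
  have hvp := M10_vp p v
  have hwp := M10_vp p w
  have n : ∀ t ∈ ({v - 1, w - 1, yy p A v w, A⁻¹, v⁻¹, w⁻¹} : Set K),
      t ∈ P3 R₀ p A v w := fun t ht => Algebra.subset_adjoin ht
  have nB := n (v - 1) (by simp)
  have nD := n (w - 1) (by simp)
  have nY := n (yy p A v w) (by simp)
  have nE : v - w ∈ P3 R₀ p A v w := by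
    have h7 : v - w = (v - 1) - (w - 1) := by ring
    rw [h7]
    exact sub_mem nB nD
  have nv : v ∈ P3 R₀ p A v w := by
    have h7 := add_mem nB (one_mem _)
    rwa [sub_add_cancel] at h7
  have nw : w ∈ P3 R₀ p A v w := by
    have h7 := add_mem nD (one_mem _)
    rwa [sub_add_cancel] at h7
  have nA : A ∈ P3 R₀ p A v w := by
    have h7 : 1 + (v - 1) ^ (p - 1) * (w - 1) + (v - w) * ((v - 1) * (w - 1) * yy p A v w) ∈
        P3 R₀ p A v w :=
      add_mem (add_mem (one_mem _) (mul_mem (pow_mem nB _) nD))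
        (mul_mem nE (mul_mem (mul_mem nB nD) nY))
    rwa [← hA] at h7
  obtain ⟨q, rfl⟩ : ∃ q, p = q + 2 := ⟨p - 2, by omega⟩
  have hq : q + 2 - 1 = q + 1 := rfl
  rw [hq] at hA
  have g9 : (A - 1) / ((v - 1) * (w - 1)) ∈ P3 R₀ (q + 2) A v w := by
    have h7 : (A - 1) / ((v - 1) * (w - 1)) = (v - 1) ^ q + (v - w) * yy (q + 2) A v w := by
      rw [div_eq_iff (mul_ne_zero h1 h2)]
      linear_combination hA
    rw [h7]
    exact add_mem (pow_mem nB _) (mul_mem nE nY)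
  have g10 : (A - v ^ (q + 2)) / ((v - 1) * (v - w)) ∈ P3 R₀ (q + 2) A v w := by
    have h7 : (A - v ^ (q + 2)) / ((v - 1) * (v - w)) =
        (w - 1) * yy (q + 2) A v w - (v - 1) ^ q := by
      rw [div_eq_iff (mul_ne_zero h1 h3)]
      linear_combination hA - hvp
    rw [h7]
    exact sub_mem (mul_mem nD nY) (pow_mem nB _)
  have g11 : (A - w ^ (q + 2)) / ((w - 1) * (v - w)) ∈ P3 R₀ (q + 2) A v w := by
    have hg := (Commute.all (v - 1) (w - 1)).mul_geom_sum₂ (q + 1)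
    have h7 : (A - w ^ (q + 2)) / ((w - 1) * (v - w)) =
        (∑ i ∈ Finset.range (q + 1), (v - 1) ^ i * (w - 1) ^ (q + 1 - 1 - i)) +
          (v - 1) * yy (q + 2) A v w := by
      rw [div_eq_iff (mul_ne_zero h2 h3)]
      linear_combination hA - hwp - (w - 1) * hg
    rw [h7]
    exact add_mem (sum_mem fun i _ => mul_mem (pow_mem nB _) (pow_mem nD _)) (mul_mem nB nY)
  refine mono_mem_of (R := P3 R₀ (q + 2) A v w) (pres .P3)
    (![1, 1, 1, 1, 1, 1, 1, 1, 1, (A - 1) / ((v - 1) * (w - 1)),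
      (A - v ^ (q + 2)) / ((v - 1) * (v - w)), (A - w ^ (q + 2)) / ((w - 1) * (v - w)),
      v - w, w - 1, v - 1, 1] : Fin 16 → K)
    (![A, v, w, 1, 1, 1, 1, 1, 1] : Fin 9 → K) ?_ ?_ ?_ he
  · intro P hP
    have hP' : P ∈ ({9, 10, 11, 12, 13, 14} : Finset (Fin 16)) := hP
    simp only [Finset.mem_insert, Finset.mem_singleton] at hP'
    rcases hP' with rfl | rfl | rfl | rfl | rfl | rfl
    · exact ⟨g9, div_ne_zero h4 (mul_ne_zero h1 h2)⟩
    · exact ⟨g10, div_ne_zero h5 (mul_ne_zero h1 h3)⟩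
    · exact ⟨g11, div_ne_zero h6 (mul_ne_zero h2 h3)⟩
    · exact ⟨nE, h3⟩
    · exact ⟨nD, h2⟩
    · exact ⟨nB, h1⟩
  · have one : (1 : K) ∈ P3 R₀ (q + 2) A v w ∧ (1 : K)⁻¹ ∈ P3 R₀ (q + 2) A v w ∧ (1 : K) ≠ 0 :=
      ⟨one_mem _, by rw [inv_one]; exact one_mem _, one_ne_zero⟩
    intro i
    fin_cases i
    · exact ⟨nA, n _ (by simp), hA0⟩
    · exact ⟨nv, n _ (by simp), hv0⟩
    · exact ⟨nw, n _ (by simp), hw0⟩
    all_goals exact one
  · intro i
    have hS : ∀ f : Fin 16 → K, ∏ P ∈ pres .P3, f P = f 9 * (f 10 * (f 11 * (f 12 *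
        (f 13 * f 14)))) := by
      intro f
      show ∏ P ∈ ({9, 10, 11, 12, 13, 14} : Finset (Fin 16)), f P = _
      rw [Finset.prod_insert (by decide), Finset.prod_insert (by decide),
        Finset.prod_insert (by decide), Finset.prod_insert (by decide),
        Finset.prod_insert (by decide), Finset.prod_singleton]
    rw [hS]
    fin_cases i
    · simp [fn, vF, Pi.single_apply]
    · simp [fn, vF, Pi.single_apply]
    · simp [fn, vF, Pi.single_apply]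
    · simp [fn, vF, Pi.single_apply]
    · simp [fn, vF, Pi.single_apply]
    · simp [fn, vF, Pi.single_apply]
    · simp [fn, vF, Pi.single_apply]
      field_simp
    · simp [fn, vF, Pi.single_apply]
      field_simp
    · simp [fn, vF, Pi.single_apply]
      field_simp

end H1F
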