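import Pool.Agent.Lib.H1F.MO.M4
import Pool.Agent.Lib.H1F.MO.M10

/-!
# H1F, chunk M14

Coordinates of the charts: all charts except `Y0`, `P4` are localized polynomial rings.
-/

open MvPolynomial

namespace H1F

variable {R₀ K : Type*} [CommRing R₀] [Field K] [Algebra R₀ K]

/-- The ring `R₀[x, y, z, 1/U(x,y,z)]`. -/
noncomputable def FrR (x : Fin 3 → K) (U : MvPolynomial (Fin 3) R₀) : Subalgebra R₀ K :=
  Algebra.adjoin R₀ {x 0, x 1, x 2, (aeval x U)⁻¹}

/-- The coordinates of the charts. -/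
def coo (p : ℕ) (A v w : K) : Ch → Fin 3 → K
  | .NI f => ![fv v w f - 1, (fa p A v w f - 1) / (fv v w f - 1), (fw v w f - 1)⁻¹]
  | .NII f => ![fa p A v w f - 1, (fv v w f - 1) / (fa p A v w f - 1), (fw v w f - 1)⁻¹]
  | .M i => ![fa p A v w (![0, 2, 4] i), (fv v w (![0, 2, 4] i) - 1)⁻¹,
      (fw v w (![0, 2, 4] i) - 1)⁻¹]
  | .T6 => ![A, v, w]
  | .P2 => ![(v - 1) / (w - 1), w - 1, nn p A v w]
  | .P1 => ![(w - 1) / (v - 1), v - 1,
      -(((v - 1) / (w - 1)) ^ 2 * nn p A v w + p * ((v - 1) / (w - 1)))]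
  | .P3 => ![v - 1, w - 1, yy p A v w]
  | _ => 0

/-- The denominators of the charts. -/
noncomputable def cden (R₀ : Type*) [CommRing R₀] (p : ℕ) : Ch → MvPolynomial (Fin 3) R₀
  | .NI _ => (1 + X 0 * X 1) * (1 - X 0 * X 2)
  | .NII _ => (1 + X 0) * (1 - X 0 * X 1 * X 2)
  | .M _ => X 0 * (X 0 * X 1 ^ p - (1 + X 1) ^ p) * (X 0 * X 2 ^ p - (1 + X 2) ^ p)
  | .T6 => X 0 * X 1 * X 2 * (X 0 - 1) * (X 0 - X 1 ^ p) * (X 0 - X 2 ^ p)
  | .P2 => (1 + X 0 * X 1) * (1 + X 1) *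
      (1 + X 1 * th p (X 0 * X 1) + X 1 * X 0 * ((X 0 - 1) * X 2 + (p : MvPolynomial (Fin 3) R₀)))
  | .P1 => (1 + X 1) * (1 + X 0 * X 1) *
      (1 + X 1 * X 0 * ((p : MvPolynomial (Fin 3) R₀) + th p (X 1) - (1 - X 0) * X 2))
  | .P3 => (1 + X 0) * (1 + X 1) * (1 + X 0 ^ (p - 1) * X 1 + X 0 * X 1 * (X 0 - X 1) * X 2)
  | _ => 1

theorem M14_ne {R₀ : Type*} [CommRing R₀] {f : MvPolynomial (Fin 3) R₀} (x : Fin 3 → R₀)
    (h : eval x f ≠ 0) : f ≠ 0 := by
  rintro rfl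
  exact h (map_zero _)

/-- The denominators are not zero, also modulo every prime: some coefficient is `±1`. -/
theorem cden_ne_zero (R₀ : Type*) [CommRing R₀] [IsDomain R₀] (p : ℕ) (hp : 5 ≤ p) (c : Ch) :
    cden R₀ p c ≠ 0 := by
  have hp0 : p ≠ 0 := by omega
  have h1 : ∀ i : Fin 3, (X i : MvPolynomial (Fin 3) R₀) ≠ 0 := fun i => X_ne_zero i
  cases c with
  | NI f => exact M14_ne 0 (by simp [cden])
  | NII f => exact M14_ne 0 (by simp [cden])
  | M i =>
    refine mul_ne_zero (mul_ne_zero (h1 0) ?_) ?_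
    · exact M14_ne 0 (by simp)
    · exact M14_ne 0 (by simp)
  | T6 =>
    refine mul_ne_zero (mul_ne_zero (mul_ne_zero (mul_ne_zero (mul_ne_zero (h1 0) (h1 1)) (h1 2))
      ?_) ?_) ?_
    · exact M14_ne 0 (by simp)
    · exact M14_ne ![1, 0, 0] (by simp [hp0])
    · exact M14_ne ![1, 0, 0] (by simp [hp0])
  | P1 => exact M14_ne 0 (by simp [cden])
  | P2 => exact M14_ne 0 (by simp [cden])
  | P3 => exact M14_ne 0 (by simp [cden])
  | P4 => exact one_ne_zero
  | Y0 => exact one_ne_zero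

theorem M14_aeval_mem (x : Fin 3 → K) (U f : MvPolynomial (Fin 3) R₀) : aeval x f ∈ FrR x U := by
  have h1 : aeval x f ∈ Algebra.adjoin R₀ (Set.range x) := by
    rw [Algebra.adjoin_range_eq_range_aeval]
    exact ⟨f, rfl⟩
  refine Algebra.adjoin_mono ?_ h1
  rintro _ ⟨i, rfl⟩
  fin_cases i <;> simp

theorem M14_U (x : Fin 3 → K) (U : MvPolynomial (Fin 3) R₀) : (aeval x U)⁻¹ ∈ FrR x U :=
  Algebra.subset_adjoin (by simp)

theorem M14_inv (x : Fin 3 → K) (U f g : MvPolynomial (Fin 3) R₀) (h : U = f * g)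
    (hU : aeval x U ≠ 0) : (aeval x f)⁻¹ ∈ FrR x U := by
  have h1 : aeval x U = aeval x f * aeval x g := by rw [h, map_mul]
  have h2 : aeval x f ≠ 0 ∧ aeval x g ≠ 0 := by
    rw [h1] at hU
    exact ⟨left_ne_zero_of_mul hU, right_ne_zero_of_mul hU⟩
  have h3 : (aeval x f)⁻¹ = aeval x g * (aeval x U)⁻¹ := by
    rw [h1]
    field_simp [h2.1, h2.2]
  rw [h3]
  exact mul_mem (M14_aeval_mem _ _ _) (M14_U _ _)

theorem M14_le {S : Subalgebra R₀ K} {x : Fin 3 → K} {U : MvPolynomial (Fin 3) R₀}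
    (h0 : x 0 ∈ S) (h1 : x 1 ∈ S) (h2 : x 2 ∈ S) (hU : (aeval x U)⁻¹ ∈ S) : FrR x U ≤ S := by
  refine Algebra.adjoin_le ?_
  rintro r (hr | hr | hr | hr)
  · rw [hr]; exact h0
  · rw [hr]; exact h1
  · rw [hr]; exact h2
  · rw [hr]; exact hU

theorem M14_th (p : ℕ) (x : Fin 3 → K) (f : MvPolynomial (Fin 3) R₀) :
    aeval x (th p f) = th p (aeval x f) := by
  unfold th
  rw [map_sum]
  refine Finset.sum_congr rfl fun j _ => ?_
  rw [map_mul, map_pow, map_natCast]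

section val

variable (R₀)

/-- Values of the factors. -/
theorem M14_vNI {a v w : K} (h1 : v - 1 ≠ 0) (h2 : w - 1 ≠ 0) :
    aeval ![v - 1, (a - 1) / (v - 1), (w - 1)⁻¹] (1 + X 0 * X 1 : MvPolynomial (Fin 3) R₀) = a ∧
    aeval ![v - 1, (a - 1) / (v - 1), (w - 1)⁻¹] (1 - X 0 * X 2 : MvPolynomial (Fin 3) R₀) =
      (w - v) / (w - 1) := by
  constructor
  · simp only [map_add, map_one, map_mul, aeval_X, Matrix.cons_val]
    field_simp
    ring
  · simp only [map_sub, map_one, map_mul, aeval_X, Matrix.cons_val]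
    field_simp
    ring

theorem M14_vNII {a v w : K} (h1 : a - 1 ≠ 0) (h2 : w - 1 ≠ 0) :
    aeval ![a - 1, (v - 1) / (a - 1), (w - 1)⁻¹] (1 + X 0 : MvPolynomial (Fin 3) R₀) = a ∧
    aeval ![a - 1, (v - 1) / (a - 1), (w - 1)⁻¹] (1 - X 0 * X 1 * X 2 : MvPolynomial (Fin 3) R₀) =
      (w - v) / (w - 1) := by
  constructor
  · simp only [map_add, map_one, aeval_X, Matrix.cons_val]
    ring
  · simp only [map_sub, map_one, map_mul, aeval_X, Matrix.cons_val]
    field_simp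
    ring

theorem M14_vM (p : ℕ) {a v w : K} (h1 : v - 1 ≠ 0) (h2 : w - 1 ≠ 0) :
    aeval ![a, (v - 1)⁻¹, (w - 1)⁻¹] (X 0 * X 1 ^ p - (1 + X 1) ^ p : MvPolynomial (Fin 3) R₀) =
      (a - v ^ p) / (v - 1) ^ p ∧
    aeval ![a, (v - 1)⁻¹, (w - 1)⁻¹] (X 0 * X 2 ^ p - (1 + X 2) ^ p : MvPolynomial (Fin 3) R₀) =
      (a - w ^ p) / (w - 1) ^ p := by
  have e : ∀ t : K, t - 1 ≠ 0 → (1 + (t - 1)⁻¹) ^ p = t ^ p / (t - 1) ^ p := by
    intro t ht
    rw [← div_pow]
    congr 1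
    field_simp
    ring
  constructor
  · simp only [map_add, map_sub, map_one, map_mul, map_pow, aeval_X, Matrix.cons_val]
    rw [e v h1, inv_pow, ← div_eq_mul_inv, ← sub_div]
  · simp only [map_add, map_sub, map_one, map_mul, map_pow, aeval_X, Matrix.cons_val]
    rw [e w h2, inv_pow, ← div_eq_mul_inv, ← sub_div]

theorem M14_vP2 (p : ℕ) {A v w : K} (hN : ∀ i, fn p A v w i ≠ 0) :
    aeval (coo p A v w .P2) (1 + X 0 * X 1 : MvPolynomial (Fin 3) R₀) = v ∧
    aeval (coo p A v w .P2) (1 + X 1 : MvPolynomial (Fin 3) R₀) = w ∧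
    aeval (coo p A v w .P2) (1 + X 1 * th p (X 0 * X 1) +
      X 1 * X 0 * ((X 0 - 1) * X 2 + (p : MvPolynomial (Fin 3) R₀))) = A := by
  have n4 : w - 1 ≠ 0 := hN 4
  have e3 := (nn_eq p hN).2.2
  have e : (v - 1) / (w - 1) * (w - 1) = v - 1 := div_mul_cancel₀ _ n4
  refine ⟨?_, ?_, ?_⟩
  · simp only [coo, map_add, map_one, map_mul, aeval_X, Matrix.cons_val]
    rw [e]
    ring
  · simp only [coo, map_add, map_one, aeval_X, Matrix.cons_val]
    ring
  · simp only [coo, map_add, map_sub, map_one, map_mul, map_natCast, M14_th, aeval_X,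
      Matrix.cons_val]
    rw [e, mul_comm (w - 1) ((v - 1) / (w - 1)), e]
    exact e3.symm

theorem M14_vP1 (p : ℕ) {A v w : K} (hN : ∀ i, fn p A v w i ≠ 0) :
    aeval (coo p A v w .P1) (1 + X 1 : MvPolynomial (Fin 3) R₀) = v ∧
    aeval (coo p A v w .P1) (1 + X 0 * X 1 : MvPolynomial (Fin 3) R₀) = w ∧
    aeval (coo p A v w .P1) (1 + X 1 * X 0 *
      ((p : MvPolynomial (Fin 3) R₀) + th p (X 1) - (1 - X 0) * X 2)) = A := by
  have n3 : v - 1 ≠ 0 := hN 3
  have n4 : w - 1 ≠ 0 := hN 4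
  have e3 := (nn_eq p hN).2.2
  have e : (w - 1) / (v - 1) * (v - 1) = w - 1 := div_mul_cancel₀ _ n3
  refine ⟨?_, ?_, ?_⟩
  · simp only [coo, map_add, map_one, aeval_X, Matrix.cons_val]
    ring
  · simp only [coo, map_add, map_one, map_mul, aeval_X, Matrix.cons_val]
    rw [e]
    ring
  · simp only [coo, map_add, map_sub, map_one, map_mul, map_natCast, M14_th, aeval_X,
      Matrix.cons_val]
    rw [mul_comm (v - 1) ((w - 1) / (v - 1)), e]
    conv_rhs => rw [e3]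
    field_simp
    ring

theorem M14_vP3 (p : ℕ) {A v w : K} (hN : ∀ i, fn p A v w i ≠ 0) :
    aeval (coo p A v w .P3) (1 + X 0 : MvPolynomial (Fin 3) R₀) = v ∧
    aeval (coo p A v w .P3) (1 + X 1 : MvPolynomial (Fin 3) R₀) = w ∧
    aeval (coo p A v w .P3) (1 + X 0 ^ (p - 1) * X 1 +
      X 0 * X 1 * (X 0 - X 1) * X 2 : MvPolynomial (Fin 3) R₀) = A := by
  have e3 := M10_A p hN
  refine ⟨?_, ?_, ?_⟩
  · simp only [coo, map_add, map_one, aeval_X, Matrix.cons_val]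
    ring
  · simp only [coo, map_add, map_one, aeval_X, Matrix.cons_val]
    ring
  · simp only [coo, map_add, map_sub, map_one, map_mul, map_pow, aeval_X, Matrix.cons_val]
    conv_rhs => rw [e3]
    ring

end val

theorem M14_NI_ne {a v w : K} (n : a ≠ 0 ∧ v - 1 ≠ 0 ∧ w - 1 ≠ 0 ∧ w - v ≠ 0) :
    aeval ![v - 1, (a - 1) / (v - 1), (w - 1)⁻¹]
      ((1 + X 0 * X 1) * (1 - X 0 * X 2) : MvPolynomial (Fin 3) R₀) ≠ 0 := by
  obtain ⟨n0, n1, n2, n3⟩ := n
  obtain ⟨e1, e2⟩ := M14_vNI R₀ (a := a) n1 n2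
  rw [map_mul, e1, e2]
  exact mul_ne_zero n0 (div_ne_zero n3 n2)

theorem M14_NII_ne {a v w : K} (n : a ≠ 0 ∧ a - 1 ≠ 0 ∧ w - 1 ≠ 0 ∧ w - v ≠ 0) :
    aeval ![a - 1, (v - 1) / (a - 1), (w - 1)⁻¹]
      ((1 + X 0) * (1 - X 0 * X 1 * X 2) : MvPolynomial (Fin 3) R₀) ≠ 0 := by
  obtain ⟨n0, n1, n2, n3⟩ := n
  obtain ⟨e1, e2⟩ := M14_vNII R₀ (v := v) n1 n2
  rw [map_mul, e1, e2]
  exact mul_ne_zero n0 (div_ne_zero n3 n2)

theorem M14_M_ne (p : ℕ) {a v w : K}
    (n : a ≠ 0 ∧ v - 1 ≠ 0 ∧ w - 1 ≠ 0 ∧ a - v ^ p ≠ 0 ∧ a - w ^ p ≠ 0) :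
    aeval ![a, (v - 1)⁻¹, (w - 1)⁻¹] (X 0 * (X 0 * X 1 ^ p - (1 + X 1) ^ p) *
      (X 0 * X 2 ^ p - (1 + X 2) ^ p) : MvPolynomial (Fin 3) R₀) ≠ 0 := by
  obtain ⟨n0, n1, n2, n3, n4⟩ := n
  obtain ⟨e1, e2⟩ := M14_vM R₀ p (a := a) n1 n2
  rw [map_mul, map_mul, e1, e2, aeval_X]
  exact mul_ne_zero (mul_ne_zero n0 (div_ne_zero n3 (pow_ne_zero _ n1)))
    (div_ne_zero n4 (pow_ne_zero _ n2))

theorem M14_hN (p : ℕ) {A v w : K} (hN : ∀ i, fn p A v w i ≠ 0) : A ≠ 0 ∧ v ≠ 0 ∧ w ≠ 0 ∧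
    v - 1 ≠ 0 ∧ w - 1 ≠ 0 ∧ w - v ≠ 0 ∧ A - 1 ≠ 0 ∧ A - v ^ p ≠ 0 ∧ A - w ^ p ≠ 0 := by
  obtain ⟨n0, n1, n2, n3, n4, n5, n6, n7, n8⟩ := M10_ne p hN
  refine ⟨n0, n1, n2, n3, n4, ?_, n6, n7, n8⟩
  intro h
  apply n5
  rw [← neg_sub, h, neg_zero]

/-- The denominator does not vanish. -/
theorem aeval_cden_ne_zero (p : ℕ) (hp : 5 ≤ p) {A v w : K} (hN : ∀ i, fn p A v w i ≠ 0) (c : Ch) :
    aeval (coo p A v w c) (cden R₀ p c) ≠ 0 := by
  cases c with
  | NI f =>
    obtain ⟨n0, n1, n2, n3, n4, n5, n6, n7, n8⟩ := M14_hN p (fn_frame p hN f)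
    exact M14_NI_ne ⟨n0, n3, n4, n5⟩
  | NII f =>
    obtain ⟨n0, n1, n2, n3, n4, n5, n6, n7, n8⟩ := M14_hN p (fn_frame p hN f)
    exact M14_NII_ne ⟨n0, n6, n4, n5⟩
  | M i =>
    obtain ⟨n0, n1, n2, n3, n4, n5, n6, n7, n8⟩ := M14_hN p (fn_frame p hN (![0, 2, 4] i))
    exact M14_M_ne p ⟨n0, n3, n4, n7, n8⟩
  | T6 =>
    obtain ⟨n0, n1, n2, n3, n4, n5, n6, n7, n8⟩ := M14_hN p hN
    simp only [coo, cden, map_mul, map_sub, map_pow, map_one, aeval_X, Matrix.cons_val]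
    exact mul_ne_zero (mul_ne_zero (mul_ne_zero (mul_ne_zero (mul_ne_zero n0 n1) n2) n6) n7) n8
  | P1 =>
    obtain ⟨n0, n1, n2, n3, n4, n5, n6, n7, n8⟩ := M14_hN p hN
    obtain ⟨e1, e2, e3⟩ := M14_vP1 R₀ p hN
    unfold cden
    rw [map_mul, map_mul, e1, e2, e3]
    exact mul_ne_zero (mul_ne_zero n1 n2) n0
  | P2 =>
    obtain ⟨n0, n1, n2, n3, n4, n5, n6, n7, n8⟩ := M14_hN p hN
    obtain ⟨e1, e2, e3⟩ := M14_vP2 R₀ p hN
    unfold cden
    rw [map_mul, map_mul, e1, e2, e3]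
    exact mul_ne_zero (mul_ne_zero n1 n2) n0
  | P3 =>
    obtain ⟨n0, n1, n2, n3, n4, n5, n6, n7, n8⟩ := M14_hN p hN
    obtain ⟨e1, e2, e3⟩ := M14_vP3 R₀ p hN
    unfold cden
    rw [map_mul, map_mul, e1, e2, e3]
    exact mul_ne_zero (mul_ne_zero n1 n2) n0
  | P4 =>
    show aeval _ (1 : MvPolynomial (Fin 3) R₀) ≠ 0
    rw [map_one]
    exact one_ne_zero
  | Y0 =>
    show aeval _ (1 : MvPolynomial (Fin 3) R₀) ≠ 0
    rw [map_one]
    exact one_ne_zero

theorem M14_rNI {a v w : K} (n : a ≠ 0 ∧ v - 1 ≠ 0 ∧ w - 1 ≠ 0 ∧ w - v ≠ 0) :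
    NI R₀ a v w = FrR ![v - 1, (a - 1) / (v - 1), (w - 1)⁻¹]
      ((1 + X 0 * X 1) * (1 - X 0 * X 2)) := by
  have hU := M14_NI_ne (R₀ := R₀) n
  obtain ⟨n0, n1, n2, n3⟩ := n
  obtain ⟨e1, e2⟩ := M14_vNI R₀ (a := a) n1 n2
  apply le_antisymm
  · refine Algebra.adjoin_le ?_
    rintro r (hr | hr | hr | hr | hr)
    · rw [hr]; exact Algebra.subset_adjoin (by simp)
    · rw [hr]; exact Algebra.subset_adjoin (by simp)
    · rw [hr]; exact Algebra.subset_adjoin (by simp)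
    · rw [hr]
      have := M14_inv _ _ _ _ rfl hU
      rwa [e1] at this
    · rw [hr]
      have := M14_inv _ _ _ _ (mul_comm _ _) hU
      rwa [e2, inv_div] at this
  · refine M14_le ?_ ?_ ?_ ?_
    · exact Algebra.subset_adjoin (by simp)
    · exact Algebra.subset_adjoin (by simp)
    · exact Algebra.subset_adjoin (by simp)
    · rw [map_mul, e1, e2, mul_inv, inv_div]
      exact mul_mem (Algebra.subset_adjoin (by simp)) (Algebra.subset_adjoin (by simp))

theorem M14_rNII {a v w : K} (n : a ≠ 0 ∧ a - 1 ≠ 0 ∧ w - 1 ≠ 0 ∧ w - v ≠ 0) :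
    NII R₀ a v w = FrR ![a - 1, (v - 1) / (a - 1), (w - 1)⁻¹]
      ((1 + X 0) * (1 - X 0 * X 1 * X 2)) := by
  have hU := M14_NII_ne (R₀ := R₀) n
  obtain ⟨n0, n1, n2, n3⟩ := n
  obtain ⟨e1, e2⟩ := M14_vNII R₀ (v := v) n1 n2
  apply le_antisymm
  · refine Algebra.adjoin_le ?_
    rintro r (hr | hr | hr | hr | hr)
    · rw [hr]; exact Algebra.subset_adjoin (by simp)
    · rw [hr]; exact Algebra.subset_adjoin (by simp)
    · rw [hr]; exact Algebra.subset_adjoin (by simp)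
    · rw [hr]
      have := M14_inv _ _ _ _ rfl hU
      rwa [e1] at this
    · rw [hr]
      have := M14_inv _ _ _ _ (mul_comm _ _) hU
      rwa [e2, inv_div] at this
  · refine M14_le ?_ ?_ ?_ ?_
    · exact Algebra.subset_adjoin (by simp)
    · exact Algebra.subset_adjoin (by simp)
    · exact Algebra.subset_adjoin (by simp)
    · rw [map_mul, e1, e2, mul_inv, inv_div]
      exact mul_mem (Algebra.subset_adjoin (by simp)) (Algebra.subset_adjoin (by simp))

theorem M14_rM (p : ℕ) {a v w : K}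
    (n : a ≠ 0 ∧ v - 1 ≠ 0 ∧ w - 1 ≠ 0 ∧ a - v ^ p ≠ 0 ∧ a - w ^ p ≠ 0) :
    MM R₀ p a v w = FrR ![a, (v - 1)⁻¹, (w - 1)⁻¹] (X 0 * (X 0 * X 1 ^ p - (1 + X 1) ^ p) *
      (X 0 * X 2 ^ p - (1 + X 2) ^ p)) := by
  have hU := M14_M_ne (R₀ := R₀) p n
  obtain ⟨n0, n1, n2, n3, n4⟩ := n
  obtain ⟨e1, e2⟩ := M14_vM R₀ p (a := a) n1 n2
  apply le_antisymm
  · refine Algebra.adjoin_le ?_
    rintro r (hr | hr | hr | hr | hr | hr)
    · rw [hr]; exact Algebra.subset_adjoin (by simp)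
    · rw [hr]
      have := M14_inv _ _ (X 0) _ (mul_assoc _ _ _) hU
      rwa [aeval_X] at this
    · rw [hr]; exact Algebra.subset_adjoin (by simp)
    · rw [hr]; exact Algebra.subset_adjoin (by simp)
    · rw [hr]
      have := M14_inv _ _ (X 0 * X 1 ^ p - (1 + X 1) ^ p) (X 0 * (X 0 * X 2 ^ p - (1 + X 2) ^ p))
        (by ring) hU
      rwa [e1, inv_div] at this
    · rw [hr]
      have := M14_inv _ _ (X 0 * X 2 ^ p - (1 + X 2) ^ p) (X 0 * (X 0 * X 1 ^ p - (1 + X 1) ^ p))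
        (by ring) hU
      rwa [e2, inv_div] at this
  · refine M14_le ?_ ?_ ?_ ?_
    · exact Algebra.subset_adjoin (by simp)
    · exact Algebra.subset_adjoin (by simp)
    · exact Algebra.subset_adjoin (by simp)
    · rw [map_mul, map_mul, e1, e2, aeval_X, mul_inv, mul_inv, inv_div, inv_div]
      exact mul_mem (mul_mem (Algebra.subset_adjoin (by simp)) (Algebra.subset_adjoin (by simp)))
        (Algebra.subset_adjoin (by simp))

/-- Presentation of the rings of the charts of `X`. -/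
theorem ring_eq_FrR (p : ℕ) (hp : 5 ≤ p) {A v w : K} (hN : ∀ i, fn p A v w i ≠ 0) (c : Ch)
    (hc : c.inX) : ring R₀ p A v w c = FrR (coo p A v w c) (cden R₀ p c) := by
  have hU := aeval_cden_ne_zero (R₀ := R₀) p hp hN c
  cases c with
  | NI f =>
    obtain ⟨n0, n1, n2, n3, n4, n5, n6, n7, n8⟩ := M14_hN p (fn_frame p hN f)
    exact M14_rNI ⟨n0, n3, n4, n5⟩
  | NII f =>
    obtain ⟨n0, n1, n2, n3, n4, n5, n6, n7, n8⟩ := M14_hN p (fn_frame p hN f)
    exact M14_rNII ⟨n0, n6, n4, n5⟩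
  | M i =>
    obtain ⟨n0, n1, n2, n3, n4, n5, n6, n7, n8⟩ := M14_hN p (fn_frame p hN (![0, 2, 4] i))
    have h := M14_rM (R₀ := R₀) p ⟨n0, n3, n4, n7, n8⟩
    fin_cases i
    · exact h
    · exact h
    · exact h
  | T6 =>
    obtain ⟨n0, n1, n2, n3, n4, n5, n6, n7, n8⟩ := M14_hN p hN
    have hv : ∀ i : Fin 3, aeval (coo p A v w .T6) (X i : MvPolynomial (Fin 3) R₀) =
        ![A, v, w] i := fun i => aeval_X _ _
    have hi := fun f g h => M14_inv (coo p A v w .T6) (cden R₀ p .T6) f g h hU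
    apply le_antisymm
    · refine Algebra.adjoin_le ?_
      rintro r (hr | hr | hr | hr | hr | hr | hr | hr | hr)
      · rw [hr]; exact Algebra.subset_adjoin (by simp [coo])
      · rw [hr]
        have := hi (X 0) (X 1 * X 2 * (X 0 - 1) * (X 0 - X 1 ^ p) * (X 0 - X 2 ^ p))
          (by unfold cden; ring)
        rwa [hv] at this
      · rw [hr]; exact Algebra.subset_adjoin (by simp [coo])
      · rw [hr]
        have := hi (X 1) (X 0 * X 2 * (X 0 - 1) * (X 0 - X 1 ^ p) * (X 0 - X 2 ^ p))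
          (by unfold cden; ring)
        rwa [hv] at this
      · rw [hr]; exact Algebra.subset_adjoin (by simp [coo])
      · rw [hr]
        have := hi (X 2) (X 0 * X 1 * (X 0 - 1) * (X 0 - X 1 ^ p) * (X 0 - X 2 ^ p))
          (by unfold cden; ring)
        rwa [hv] at this
      · rw [hr]
        have := hi (X 0 - 1) (X 0 * X 1 * X 2 * (X 0 - X 1 ^ p) * (X 0 - X 2 ^ p))
          (by unfold cden; ring)
        rwa [map_sub, map_one, hv] at this
      · rw [hr]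
        have := hi (X 0 - X 1 ^ p) (X 0 * X 1 * X 2 * (X 0 - 1) * (X 0 - X 2 ^ p))
          (by unfold cden; ring)
        rwa [map_sub, map_pow, hv, hv] at this
      · rw [hr]
        have := hi (X 0 - X 2 ^ p) (X 0 * X 1 * X 2 * (X 0 - 1) * (X 0 - X 1 ^ p))
          (by unfold cden; ring)
        rwa [map_sub, map_pow, hv, hv] at this
    · refine M14_le ?_ ?_ ?_ ?_
      · exact Algebra.subset_adjoin (by simp [coo])
      · exact Algebra.subset_adjoin (by simp [coo])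
      · exact Algebra.subset_adjoin (by simp [coo])
      · simp only [cden, coo, map_mul, map_sub, map_pow, map_one, aeval_X, Matrix.cons_val,
          mul_inv]
        have m : ∀ t ∈ ({A, A⁻¹, v, v⁻¹, w, w⁻¹, (A - 1)⁻¹, (A - v ^ p)⁻¹, (A - w ^ p)⁻¹} : Set K),
          t ∈ ring R₀ p A v w .T6 := fun t ht => Algebra.subset_adjoin ht
        exact mul_mem (mul_mem (mul_mem (mul_mem (mul_mem (m _ (by simp)) (m _ (by simp)))
          (m _ (by simp))) (m _ (by simp))) (m _ (by simp))) (m _ (by simp))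
  | P1 =>
    obtain ⟨e1, e2, e3⟩ := M14_vP1 R₀ p hN
    have hi := fun f g h => M14_inv (coo p A v w .P1) (cden R₀ p .P1) f g h hU
    apply le_antisymm
    · refine Algebra.adjoin_le ?_
      rintro r (hr | hr | hr | hr | hr | hr)
      · rw [hr]; exact Algebra.subset_adjoin (by simp [coo])
      · rw [hr]; exact Algebra.subset_adjoin (by simp [coo])
      · rw [hr]; exact Algebra.subset_adjoin (by simp [coo])
      · rw [hr]
        have := hi _ _ (mul_comm _ _)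
        rwa [e3] at this
      · rw [hr]
        have := hi _ _ (mul_assoc _ _ _)
        rwa [e1] at this
      · rw [hr]
        have := hi (1 + X 0 * X 1) ((1 + X 1) * (1 + X 1 * X 0 *
          ((p : MvPolynomial (Fin 3) R₀) + th p (X 1) - (1 - X 0) * X 2))) (by unfold cden; ring)
        rwa [e2] at this
    · refine M14_le ?_ ?_ ?_ ?_
      · exact Algebra.subset_adjoin (by simp [coo])
      · exact Algebra.subset_adjoin (by simp [coo])
      · exact Algebra.subset_adjoin (by simp [coo])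
      · have m : ∀ t ∈ ({(w - 1) / (v - 1), v - 1,
          -(((v - 1) / (w - 1)) ^ 2 * nn p A v w + p * ((v - 1) / (w - 1))), A⁻¹, v⁻¹, w⁻¹} :
          Set K), t ∈ ring R₀ p A v w .P1 := fun t ht => Algebra.subset_adjoin ht
        unfold cden
        rw [map_mul, map_mul, e1, e2, e3, mul_inv, mul_inv]
        exact mul_mem (mul_mem (m _ (by simp)) (m _ (by simp))) (m _ (by simp))
  | P2 =>
    obtain ⟨e1, e2, e3⟩ := M14_vP2 R₀ p hN
    have hi := fun f g h => M14_inv (coo p A v w .P2) (cden R₀ p .P2) f g h hU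
    apply le_antisymm
    · refine Algebra.adjoin_le ?_
      rintro r (hr | hr | hr | hr | hr | hr)
      · rw [hr]; exact Algebra.subset_adjoin (by simp [coo])
      · rw [hr]; exact Algebra.subset_adjoin (by simp [coo])
      · rw [hr]; exact Algebra.subset_adjoin (by simp [coo])
      · rw [hr]
        have := hi _ _ (mul_comm _ _)
        rwa [e3] at this
      · rw [hr]
        have := hi _ _ (mul_assoc _ _ _)
        rwa [e1] at this
      · rw [hr]
        have := hi (1 + X 1) ((1 + X 0 * X 1) * (1 + X 1 * th p (X 0 * X 1) +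
          X 1 * X 0 * ((X 0 - 1) * X 2 + (p : MvPolynomial (Fin 3) R₀)))) (by unfold cden; ring)
        rwa [e2] at this
    · refine M14_le ?_ ?_ ?_ ?_
      · exact Algebra.subset_adjoin (by simp [coo])
      · exact Algebra.subset_adjoin (by simp [coo])
      · exact Algebra.subset_adjoin (by simp [coo])
      · have m : ∀ t ∈ ({(v - 1) / (w - 1), w - 1, nn p A v w, A⁻¹, v⁻¹, w⁻¹} :
          Set K), t ∈ ring R₀ p A v w .P2 := fun t ht => Algebra.subset_adjoin ht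
        unfold cden
        rw [map_mul, map_mul, e1, e2, e3, mul_inv, mul_inv]
        exact mul_mem (mul_mem (m _ (by simp)) (m _ (by simp))) (m _ (by simp))
  | P3 => exact hc.elim
  | P4 => exact hc.elim
  | Y0 => exact hc.elim

/-- The chart `P3`. -/
theorem P3_eq_FrR (p : ℕ) (hp : 5 ≤ p) {A v w : K} (hN : ∀ i, fn p A v w i ≠ 0) :
    ring R₀ p A v w .P3 = FrR (coo p A v w .P3) (cden R₀ p .P3) := by
  have hU := aeval_cden_ne_zero (R₀ := R₀) p hp hN .P3
  obtain ⟨e1, e2, e3⟩ := M14_vP3 R₀ p hN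
  have hi := fun f g h => M14_inv (coo p A v w .P3) (cden R₀ p .P3) f g h hU
  apply le_antisymm
  · refine Algebra.adjoin_le ?_
    rintro r (hr | hr | hr | hr | hr | hr)
    · rw [hr]; exact Algebra.subset_adjoin (by simp [coo])
    · rw [hr]; exact Algebra.subset_adjoin (by simp [coo])
    · rw [hr]; exact Algebra.subset_adjoin (by simp [coo])
    · rw [hr]
      have := hi _ _ (mul_comm _ _)
      rwa [e3] at this
    · rw [hr]
      have := hi _ _ (mul_assoc _ _ _)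
      rwa [e1] at this
    · rw [hr]
      have := hi (1 + X 1) ((1 + X 0) * (1 + X 0 ^ (p - 1) * X 1 +
        X 0 * X 1 * (X 0 - X 1) * X 2)) (by unfold cden; ring)
      rwa [e2] at this
  · refine M14_le ?_ ?_ ?_ ?_
    · exact Algebra.subset_adjoin (by simp [coo])
    · exact Algebra.subset_adjoin (by simp [coo])
    · exact Algebra.subset_adjoin (by simp [coo])
    · have m : ∀ t ∈ ({v - 1, w - 1, yy p A v w, A⁻¹, v⁻¹, w⁻¹} :
        Set K), t ∈ ring R₀ p A v w .P3 := fun t ht => Algebra.subset_adjoin ht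
      unfold cden
      rw [map_mul, map_mul, e1, e2, e3, mul_inv, mul_inv]
      exact mul_mem (mul_mem (m _ (by simp)) (m _ (by simp))) (m _ (by simp))

/-- Three elements over which three algebraically independent elements are algebraic (here:
rational) are algebraically independent. -/
theorem ind_of_rational [IsDomain R₀] {x z : Fin 3 → K} (hx : AlgebraicIndependent R₀ x)
    (h : ∀ i, ∃ a b : MvPolynomial (Fin 3) R₀, aeval z b ≠ 0 ∧ x i * aeval z b = aeval z a) :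
    AlgebraicIndependent R₀ z := by
  classical
  have : FaithfulSMul R₀ K := (faithfulSMul_iff_algebraMap_injective R₀ K).2 hx.algebraMap_injective
  have hxi : Function.Injective x := hx.injective
  have hX : (AlgebraicIndependent.matroid R₀ K).Indep (Set.range x) := by
    rw [AlgebraicIndependent.matroid_indep_iff]
    exact hx.to_subtype_range
  have hmem : ∀ c : MvPolynomial (Fin 3) R₀, aeval z c ∈ Algebra.adjoin R₀ (Set.range z) := by
    intro c
    rw [Algebra.adjoin_range_eq_range_aeval]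
    exact ⟨c, rfl⟩
  have hsub : Set.range x ⊆ (AlgebraicIndependent.matroid R₀ K).closure (Set.range z) := by
    rw [AlgebraicIndependent.matroid_closure_eq]
    rintro _ ⟨i, rfl⟩
    obtain ⟨a, b, hb, hab⟩ := h i
    show IsAlgebraic (Algebra.adjoin R₀ (Set.range z)) (x i)
    refine ⟨Polynomial.C ⟨aeval z b, hmem b⟩ * Polynomial.X - Polynomial.C ⟨aeval z a, hmem a⟩,
      ?_, ?_⟩
    · intro h0
      have h1 := congrArg (fun q => Polynomial.coeff q 1) h0
      simp only [Polynomial.coeff_sub, Polynomial.coeff_C_mul, Polynomial.coeff_X_one, mul_one,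
        Polynomial.coeff_C_succ, sub_zero, Polynomial.coeff_zero] at h1
      exact hb (congrArg Subtype.val h1)
    · simp only [map_sub, map_mul, Polynomial.aeval_C, Polynomial.aeval_X]
      show aeval z b * x i - aeval z a = 0
      rw [mul_comm, hab, sub_self]
  have hr : (Set.range x).encard ≤ (AlgebraicIndependent.matroid R₀ K).eRk (Set.range z) := by
    have := hX.encard_le_eRk_of_subset hsub
    rwa [Matroid.eRk_closure_eq] at this
  have h3 : (Set.range x).encard = 3 := by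
    rw [← Set.image_univ, hxi.encard_image]
    simp
  have hz3 : (Set.range z).encard ≤ 3 := by
    rw [← Set.image_univ]
    refine (Set.encard_image_le _ _).trans ?_
    simp
  have hrz := (AlgebraicIndependent.matroid R₀ K).eRk_le_encard (Set.range z)
  have hz3' : (Set.range z).encard = 3 := le_antisymm hz3 (by rw [← h3]; exact hr.trans hrz)
  have hzI : (AlgebraicIndependent.matroid R₀ K).Indep (Set.range z) := by
    rw [Matroid.indep_iff_eRk_eq_encard_of_finite (Set.finite_range z)]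
    refine le_antisymm hrz ?_
    rw [hz3', ← h3]
    exact hr
  have hzi : Function.Injective z := by
    have h4 : (Set.univ : Set (Fin 3)).InjOn z := by
      apply (Set.finite_univ).injOn_of_encard_image_eq
      rw [Set.image_univ, hz3']
      simp
    exact fun a b hab => h4 (Set.mem_univ _) (Set.mem_univ _) hab
  rw [AlgebraicIndependent.matroid_indep_iff] at hzI
  exact (algebraicIndependent_subtype_range hzi).1 hzI


/-- The rational functions of `z`. -/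
noncomputable def M14_F (R₀ : Type*) [CommRing R₀] [Algebra R₀ K] (z : Fin 3 → K) : Subfield K where
  carrier := {t | ∃ a b : MvPolynomial (Fin 3) R₀, aeval z b ≠ 0 ∧ t * aeval z b = aeval z a}
  mul_mem' := by
    rintro s t ⟨a, b, hb, h⟩ ⟨a', b', hb', h'⟩
    refine ⟨a * a', b * b', ?_, ?_⟩
    · rw [map_mul]; exact mul_ne_zero hb hb'
    · rw [map_mul, map_mul, ← h, ← h']; ring
  one_mem' := ⟨1, 1, by rw [map_one]; exact one_ne_zero, by rw [one_mul]⟩
  add_mem' := by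
    rintro s t ⟨a, b, hb, h⟩ ⟨a', b', hb', h'⟩
    refine ⟨a * b' + a' * b, b * b', ?_, ?_⟩
    · rw [map_mul]; exact mul_ne_zero hb hb'
    · rw [map_mul, map_add, map_mul, map_mul, ← h, ← h']; ring
  zero_mem' := ⟨0, 1, by rw [map_one]; exact one_ne_zero, by rw [zero_mul, map_zero]⟩
  neg_mem' := by
    rintro s ⟨a, b, hb, h⟩
    refine ⟨-a, b, hb, ?_⟩
    rw [map_neg, ← h, neg_mul]
  inv_mem' := by
    rintro s ⟨a, b, hb, h⟩
    rcases eq_or_ne s 0 with rfl | hs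
    · exact ⟨0, 1, by rw [map_one]; exact one_ne_zero, by rw [inv_zero, zero_mul, map_zero]⟩
    · refine ⟨b, a, ?_, ?_⟩
      · rw [← h]; exact mul_ne_zero hs hb
      · rw [← h, inv_mul_cancel_left₀ hs]

theorem M14_Fz (z : Fin 3 → K) (i : Fin 3) : z i ∈ M14_F R₀ z :=
  ⟨X i, 1, by rw [map_one]; exact one_ne_zero, by rw [map_one, mul_one, aeval_X]⟩

theorem M14_Fth (z : Fin 3 → K) (p : ℕ) {t : K} (h : t ∈ M14_F R₀ z) : th p t ∈ M14_F R₀ z := by
  unfold th
  exact sum_mem fun j _ => mul_mem (natCast_mem _ _) (pow_mem h _)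

theorem M14_ind [IsDomain R₀] {a v w : K} {z : Fin 3 → K}
    (hx : AlgebraicIndependent R₀ ![a, v, w]) (ha : a ∈ M14_F R₀ z) (hv : v ∈ M14_F R₀ z)
    (hw : w ∈ M14_F R₀ z) : AlgebraicIndependent R₀ z := by
  refine ind_of_rational hx fun i => ?_
  fin_cases i
  · exact ha
  · exact hv
  · exact hw

theorem M14_fn_ne [IsDomain R₀] (p : ℕ) (hp : 5 ≤ p) {A v w : K}
    (h : AlgebraicIndependent R₀ ![A, v, w]) (i : Fin 9) : fn p A v w i ≠ 0 := by
  have hp0 : p ≠ 0 := by omega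
  have key : ∀ (f : MvPolynomial (Fin 3) R₀) (x : Fin 3 → R₀), eval x f ≠ 0 →
      aeval ![A, v, w] f ≠ 0 := by
    intro f x hf h0
    exact M14_ne x hf ((algebraicIndependent_iff.1 h) f h0)
  have e : ∀ j : Fin 3, aeval ![A, v, w] (X j : MvPolynomial (Fin 3) R₀) = ![A, v, w] j :=
    fun j => aeval_X _ _
  fin_cases i
  · have := key (X 0) ![1, 1, 1] (by simp)
    rwa [e] at this
  · have := key (X 1) ![1, 1, 1] (by simp)
    rwa [e] at this
  · have := key (X 2) ![1, 1, 1] (by simp)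
    rwa [e] at this
  · have := key (X 1 - 1) 0 (by simp)
    rwa [map_sub, map_one, e] at this
  · have := key (X 2 - 1) 0 (by simp)
    rwa [map_sub, map_one, e] at this
  · have := key (X 1 - X 2) ![0, 1, 0] (by simp)
    rwa [map_sub, e, e] at this
  · have := key (X 0 - 1) 0 (by simp)
    rwa [map_sub, map_one, e] at this
  · have := key (X 0 - X 1 ^ p) ![1, 0, 0] (by simp [hp0])
    rwa [map_sub, map_pow, e, e] at this
  · have := key (X 0 - X 2 ^ p) ![1, 0, 0] (by simp [hp0])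
    rwa [map_sub, map_pow, e, e] at this

theorem M14_frame [IsDomain R₀] (p : ℕ) (hp : 5 ≤ p) {A v w : K}
    (h : AlgebraicIndependent R₀ ![A, v, w]) (f : Fin 6) :
    AlgebraicIndependent R₀ ![fa p A v w f, fv v w f, fw v w f] := by
  have hv0 : v ≠ 0 := M14_fn_ne p hp h 1
  have hw0 : w ≠ 0 := M14_fn_ne p hp h 2
  have m0 := fun a b c : K => M14_Fz (R₀ := R₀) ![a, b, c] 0
  have m1 := fun a b c : K => M14_Fz (R₀ := R₀) ![a, b, c] 1
  have m2 := fun a b c : K => M14_Fz (R₀ := R₀) ![a, b, c] 2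
  fin_cases f
  · exact h
  · exact M14_ind h (m0 A w v) (m2 A w v) (m1 A w v)
  · have k0 : A / v ^ p ∈ M14_F R₀ ![A / v ^ p, v⁻¹, w / v] := m0 (A / v ^ p) (v⁻¹) (w / v)
    have k1 : v⁻¹ ∈ M14_F R₀ ![A / v ^ p, v⁻¹, w / v] := m1 (A / v ^ p) (v⁻¹) (w / v)
    have k2 : w / v ∈ M14_F R₀ ![A / v ^ p, v⁻¹, w / v] := m2 (A / v ^ p) (v⁻¹) (w / v)
    have hv : v ∈ M14_F R₀ ![A / v ^ p, v⁻¹, w / v] := by
      have := inv_mem k1
      rwa [inv_inv] at this
    have h1 : A ∈ M14_F R₀ ![A / v ^ p, v⁻¹, w / v] := by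
      have := mul_mem k0 (pow_mem hv p)
      rwa [div_mul_cancel₀ _ (pow_ne_zero _ hv0)] at this
    have h2 : w ∈ M14_F R₀ ![A / v ^ p, v⁻¹, w / v] := by
      have := mul_mem k2 hv
      rwa [div_mul_cancel₀ _ hv0] at this
    exact M14_ind h h1 hv h2
  · have k0 : A / v ^ p ∈ M14_F R₀ ![A / v ^ p, w / v, v⁻¹] := m0 (A / v ^ p) (w / v) (v⁻¹)
    have k1 : w / v ∈ M14_F R₀ ![A / v ^ p, w / v, v⁻¹] := m1 (A / v ^ p) (w / v) (v⁻¹)
    have k2 : v⁻¹ ∈ M14_F R₀ ![A / v ^ p, w / v, v⁻¹] := m2 (A / v ^ p) (w / v) (v⁻¹)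
    have hv : v ∈ M14_F R₀ ![A / v ^ p, w / v, v⁻¹] := by
      have := inv_mem k2
      rwa [inv_inv] at this
    have h1 : A ∈ M14_F R₀ ![A / v ^ p, w / v, v⁻¹] := by
      have := mul_mem k0 (pow_mem hv p)
      rwa [div_mul_cancel₀ _ (pow_ne_zero _ hv0)] at this
    have h2 : w ∈ M14_F R₀ ![A / v ^ p, w / v, v⁻¹] := by
      have := mul_mem k1 hv
      rwa [div_mul_cancel₀ _ hv0] at this
    exact M14_ind h h1 hv h2
  · have k0 : A / w ^ p ∈ M14_F R₀ ![A / w ^ p, w⁻¹, v / w] := m0 (A / w ^ p) (w⁻¹) (v / w)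
    have k1 : w⁻¹ ∈ M14_F R₀ ![A / w ^ p, w⁻¹, v / w] := m1 (A / w ^ p) (w⁻¹) (v / w)
    have k2 : v / w ∈ M14_F R₀ ![A / w ^ p, w⁻¹, v / w] := m2 (A / w ^ p) (w⁻¹) (v / w)
    have hv : w ∈ M14_F R₀ ![A / w ^ p, w⁻¹, v / w] := by
      have := inv_mem k1
      rwa [inv_inv] at this
    have h1 : A ∈ M14_F R₀ ![A / w ^ p, w⁻¹, v / w] := by
      have := mul_mem k0 (pow_mem hv p)
      rwa [div_mul_cancel₀ _ (pow_ne_zero _ hw0)] at this
    have h2 : v ∈ M14_F R₀ ![A / w ^ p, w⁻¹, v / w] := by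
      have := mul_mem k2 hv
      rwa [div_mul_cancel₀ _ hw0] at this
    exact M14_ind h h1 h2 hv
  · have k0 : A / w ^ p ∈ M14_F R₀ ![A / w ^ p, v / w, w⁻¹] := m0 (A / w ^ p) (v / w) (w⁻¹)
    have k1 : v / w ∈ M14_F R₀ ![A / w ^ p, v / w, w⁻¹] := m1 (A / w ^ p) (v / w) (w⁻¹)
    have k2 : w⁻¹ ∈ M14_F R₀ ![A / w ^ p, v / w, w⁻¹] := m2 (A / w ^ p) (v / w) (w⁻¹)
    have hv : w ∈ M14_F R₀ ![A / w ^ p, v / w, w⁻¹] := by
      have := inv_mem k2
      rwa [inv_inv] at this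
    have h1 : A ∈ M14_F R₀ ![A / w ^ p, v / w, w⁻¹] := by
      have := mul_mem k0 (pow_mem hv p)
      rwa [div_mul_cancel₀ _ (pow_ne_zero _ hw0)] at this
    have h2 : v ∈ M14_F R₀ ![A / w ^ p, v / w, w⁻¹] := by
      have := mul_mem k1 hv
      rwa [div_mul_cancel₀ _ hw0] at this
    exact M14_ind h h1 h2 hv

theorem coo_ind [IsDomain R₀] (p : ℕ) (hp : 5 ≤ p) {A v w : K}
    (h : AlgebraicIndependent R₀ ![A, v, w]) (c : Ch) (hc : c ≠ .Y0) (hc' : c ≠ .P4) :
    AlgebraicIndependent R₀ (coo p A v w c) := by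
  have hN := M14_fn_ne p hp h
  have hinv : ∀ (z : Fin 3 → K) (t : K), (t - 1)⁻¹ ∈ M14_F R₀ z → t ∈ M14_F R₀ z := by
    intro z t ht
    have := add_mem (inv_mem ht) (one_mem _)
    rwa [inv_inv, sub_add_cancel] at this
  have hsub : ∀ (z : Fin 3 → K) (t : K), t - 1 ∈ M14_F R₀ z → t ∈ M14_F R₀ z := by
    intro z t ht
    have := add_mem ht (one_mem _)
    rwa [sub_add_cancel] at this
  cases c with
  | NI f =>
    have hf := M14_frame p hp h f
    obtain ⟨n0, n1, n2, n3, n4, n5, n6, n7, n8⟩ := M14_hN p (fn_frame p hN f)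
    have k0 : fv v w f - 1 ∈ M14_F R₀ (coo p A v w (.NI f)) := M14_Fz (coo p A v w (.NI f)) 0
    have k1 : (fa p A v w f - 1) / (fv v w f - 1) ∈ M14_F R₀ (coo p A v w (.NI f)) :=
      M14_Fz (coo p A v w (.NI f)) 1
    have k2 : (fw v w f - 1)⁻¹ ∈ M14_F R₀ (coo p A v w (.NI f)) := M14_Fz (coo p A v w (.NI f)) 2
    refine M14_ind hf (hsub _ _ ?_) (hsub _ _ k0) (hinv _ _ k2)
    have := mul_mem k1 k0
    rwa [div_mul_cancel₀ _ n3] at this
  | NII f =>
    have hf := M14_frame p hp h f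
    obtain ⟨n0, n1, n2, n3, n4, n5, n6, n7, n8⟩ := M14_hN p (fn_frame p hN f)
    have k0 : fa p A v w f - 1 ∈ M14_F R₀ (coo p A v w (.NII f)) :=
      M14_Fz (coo p A v w (.NII f)) 0
    have k1 : (fv v w f - 1) / (fa p A v w f - 1) ∈ M14_F R₀ (coo p A v w (.NII f)) :=
      M14_Fz (coo p A v w (.NII f)) 1
    have k2 : (fw v w f - 1)⁻¹ ∈ M14_F R₀ (coo p A v w (.NII f)) :=
      M14_Fz (coo p A v w (.NII f)) 2
    refine M14_ind hf (hsub _ _ k0) (hsub _ _ ?_) (hinv _ _ k2)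
    have := mul_mem k1 k0
    rwa [div_mul_cancel₀ _ n6] at this
  | M i =>
    have hf := M14_frame p hp h (![0, 2, 4] i)
    exact M14_ind hf (M14_Fz (coo p A v w (.M i)) 0) (hinv _ _ (M14_Fz (coo p A v w (.M i)) 1))
      (hinv _ _ (M14_Fz (coo p A v w (.M i)) 2))
  | T6 => exact h
  | P1 =>
    obtain ⟨n0, n1, n2, n3, n4, n5, n6, n7, n8⟩ := M14_hN p hN
    have k0 : (w - 1) / (v - 1) ∈ M14_F R₀ (coo p A v w .P1) := M14_Fz (coo p A v w .P1) 0
    have k1 : v - 1 ∈ M14_F R₀ (coo p A v w .P1) := M14_Fz (coo p A v w .P1) 1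
    have k2 : -(((v - 1) / (w - 1)) ^ 2 * nn p A v w + p * ((v - 1) / (w - 1))) ∈
      M14_F R₀ (coo p A v w .P1) := M14_Fz (coo p A v w .P1) 2
    have k3 : w - 1 ∈ M14_F R₀ (coo p A v w .P1) := by
      have := mul_mem k0 k1
      rwa [div_mul_cancel₀ _ n3] at this
    have kp : (p : K) ∈ M14_F R₀ (coo p A v w .P1) := natCast_mem _ _
    have e3 := (M14_vP1 R₀ p hN).2.2
    simp only [coo, map_add, map_sub, map_one, map_mul, map_natCast, M14_th, aeval_X,
      Matrix.cons_val] at e3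
    refine M14_ind h ?_ (hsub _ _ k1) (hsub _ _ k3)
    have hm : 1 + (v - 1) * ((w - 1) / (v - 1)) * (↑p + th p (v - 1) - (1 - (w - 1) / (v - 1)) *
      -(((v - 1) / (w - 1)) ^ 2 * nn p A v w + ↑p * ((v - 1) / (w - 1)))) ∈
      M14_F R₀ (coo p A v w .P1) :=
      add_mem (one_mem _) (mul_mem (mul_mem k1 k0) (sub_mem (add_mem kp (M14_Fth _ p k1))
        (mul_mem (sub_mem (one_mem _) k0) k2)))
    rwa [e3] at hm
  | P2 =>
    obtain ⟨n0, n1, n2, n3, n4, n5, n6, n7, n8⟩ := M14_hN p hN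
    have k0 : (v - 1) / (w - 1) ∈ M14_F R₀ (coo p A v w .P2) := M14_Fz (coo p A v w .P2) 0
    have k1 : w - 1 ∈ M14_F R₀ (coo p A v w .P2) := M14_Fz (coo p A v w .P2) 1
    have k2 : nn p A v w ∈ M14_F R₀ (coo p A v w .P2) := M14_Fz (coo p A v w .P2) 2
    have k3 : v - 1 ∈ M14_F R₀ (coo p A v w .P2) := by
      have := mul_mem k0 k1
      rwa [div_mul_cancel₀ _ n4] at this
    have kp : (p : K) ∈ M14_F R₀ (coo p A v w .P2) := natCast_mem _ _
    have e3 := (nn_eq p hN).2.2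
    refine M14_ind h ?_ (hsub _ _ k3) (hsub _ _ k1)
    have hm : 1 + (w - 1) * th p (v - 1) + (v - 1) * (((v - 1) / (w - 1) - 1) * nn p A v w + p) ∈
      M14_F R₀ (coo p A v w .P2) :=
      add_mem (add_mem (one_mem _) (mul_mem k1 (M14_Fth _ p k3)))
        (mul_mem k3 (add_mem (mul_mem (sub_mem k0 (one_mem _)) k2) kp))
    rwa [← e3] at hm
  | P3 =>
    obtain ⟨n0, n1, n2, n3, n4, n5, n6, n7, n8⟩ := M14_hN p hN
    have k0 : v - 1 ∈ M14_F R₀ (coo p A v w .P3) := M14_Fz (coo p A v w .P3) 0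
    have k1 : w - 1 ∈ M14_F R₀ (coo p A v w .P3) := M14_Fz (coo p A v w .P3) 1
    have k2 : yy p A v w ∈ M14_F R₀ (coo p A v w .P3) := M14_Fz (coo p A v w .P3) 2
    have e3 := M10_A p hN
    have hv := hsub _ _ k0
    have hw := hsub _ _ k1
    refine M14_ind h ?_ hv hw
    have hm : 1 + (v - 1) ^ (p - 1) * (w - 1) + (v - w) * ((v - 1) * (w - 1) * yy p A v w) ∈
      M14_F R₀ (coo p A v w .P3) :=
      add_mem (add_mem (one_mem _) (mul_mem (pow_mem k0 _) k1))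
        (mul_mem (sub_mem hv hw) (mul_mem (mul_mem k0 k1) k2))
    rwa [← e3] at hm
  | P4 => exact absurd rfl hc'
  | Y0 => exact absurd rfl hc

end H1F
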