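import Pool.Agent.Lib.H1F.MO.M10
import Pool.Agent.Lib.H1F.N.N2
import Pool.Agent.Lib.H1F.N.N11

/-!
# H1F, chunk M11

`Y0 = P1 ∩ P2`, and monomials in `Y0`.
-/

open MvPolynomial

namespace H1F

section M11

variable {k K : Type*} [Field k] [Field K] [Algebra k K]

/-- Laurent monomials -/
def M11_e (β δ y : K) (i : ℤ × ℤ × ℤ) : K := β ^ i.1 * δ ^ i.2.1 * y ^ i.2.2

theorem M11_add {β δ y : K} (hβ : β ≠ 0) (hδ : δ ≠ 0) (hy : y ≠ 0) (i j : ℤ × ℤ × ℤ) :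
    M11_e β δ y (i + j) = M11_e β δ y i * M11_e β δ y j := by
  unfold M11_e
  rw [Prod.fst_add, Prod.snd_add, Prod.fst_add, Prod.snd_add, zpow_add₀ hβ, zpow_add₀ hδ,
    zpow_add₀ hy]
  ring

theorem M11_ne {β δ y : K} (h : AlgebraicIndependent k ![β, δ, y]) : β ≠ 0 ∧ δ ≠ 0 ∧ y ≠ 0 :=
  ⟨h.ne_zero 0, h.ne_zero 1, h.ne_zero 2⟩

theorem M11_indep {β δ y : K} (h : AlgebraicIndependent k ![β, δ, y]) :
    LinearIndependent k (M11_e β δ y) := by
  classical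
  obtain ⟨hβ, hδ, hy⟩ := M11_ne h
  rw [linearIndependent_iff']
  intro s g hg
  -- a common shift
  obtain ⟨M, hM⟩ : ∃ M : ℤ, ∀ i ∈ s, 0 ≤ i.1 + M ∧ 0 ≤ i.2.1 + M ∧ 0 ≤ i.2.2 + M := by
    refine ⟨∑ i ∈ s, (|i.1| + |i.2.1| + |i.2.2|), fun i hi => ?_⟩
    have h1 : |i.1| + |i.2.1| + |i.2.2| ≤ ∑ i ∈ s, (|i.1| + |i.2.1| + |i.2.2|) :=
      Finset.single_le_sum (f := fun i : ℤ × ℤ × ℤ => |i.1| + |i.2.1| + |i.2.2|)
        (fun j _ => by positivity) hi
    have h2 := neg_abs_le i.1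
    have h3 := neg_abs_le i.2.1
    have h4 := neg_abs_le i.2.2
    have h5 := abs_nonneg i.1
    have h6 := abs_nonneg i.2.1
    have h7 := abs_nonneg i.2.2
    refine ⟨?_, ?_, ?_⟩ <;> linarith
  let m : ℤ × ℤ × ℤ → (Fin 3 →₀ ℕ) := fun i =>
    Finsupp.equivFunOnFinite.symm ![(i.1 + M).toNat, (i.2.1 + M).toNat, (i.2.2 + M).toNat]
  have hm : ∀ i ∈ s, aeval ![β, δ, y] (monomial (m i) (1 : k)) =
      M11_e β δ y i * M11_e β δ y (M, M, M) := by
    intro i hi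
    obtain ⟨h1, h2, h3⟩ := hM i hi
    rw [← M11_add hβ hδ hy, aeval_monomial, map_one, one_mul,
      Finsupp.prod_fintype _ _ (fun _ => pow_zero _), Fin.prod_univ_three]
    unfold M11_e
    have e1 : β ^ (i + (M, M, M)).1 = β ^ (i.1 + M).toNat := by
      rw [← zpow_natCast, Int.toNat_of_nonneg h1]
      rfl
    have e2 : δ ^ (i + (M, M, M)).2.1 = δ ^ (i.2.1 + M).toNat := by
      rw [← zpow_natCast, Int.toNat_of_nonneg h2]
      rfl
    have e3 : y ^ (i + (M, M, M)).2.2 = y ^ (i.2.2 + M).toNat := by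
      rw [← zpow_natCast, Int.toNat_of_nonneg h3]
      rfl
    rw [e1, e2, e3]
    rfl
  have hminj : ∀ i ∈ s, ∀ j ∈ s, m i = m j → i = j := by
    intro i hi j hj hij
    obtain ⟨h1, h2, h3⟩ := hM i hi
    obtain ⟨h1', h2', h3'⟩ := hM j hj
    have c0 : (i.1 + M).toNat = (j.1 + M).toNat := congrArg (fun f : Fin 3 →₀ ℕ => f 0) hij
    have c1 : (i.2.1 + M).toNat = (j.2.1 + M).toNat := congrArg (fun f : Fin 3 →₀ ℕ => f 1) hij
    have c2 : (i.2.2 + M).toNat = (j.2.2 + M).toNat := congrArg (fun f : Fin 3 →₀ ℕ => f 2) hij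
    refine Prod.ext (by omega) (Prod.ext (by omega) (by omega))
  have hP : (∑ i ∈ s, monomial (m i) (g i)) = 0 := by
    apply h.eq_zero_of_aeval_eq_zero
    rw [map_sum]
    have h1 : ∀ i ∈ s, aeval ![β, δ, y] (monomial (m i) (g i)) =
        (g i • M11_e β δ y i) * M11_e β δ y (M, M, M) := by
      intro i hi
      have h2 : monomial (m i) (g i) = g i • monomial (m i) (1 : k) := by
        rw [smul_monomial, smul_eq_mul, mul_one]
      rw [h2, map_smul, hm i hi, smul_mul_assoc]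
    rw [Finset.sum_congr rfl h1, ← Finset.sum_mul, hg, zero_mul]
  intro i hi
  have h1 := congrArg (coeff (m i)) hP
  rw [coeff_sum, coeff_zero, Finset.sum_eq_single i] at h1
  · rwa [coeff_monomial, if_pos rfl] at h1
  · intro j hj hji
    rw [coeff_monomial, if_neg]
    intro h2
    exact hji (hminj j hj i hi h2)
  · intro h2
    exact absurd hi h2

/-- the elements of an adjoin lie in the span of Laurent monomials -/
theorem M11_span {β δ y : K} (hβ : β ≠ 0) (hδ : δ ≠ 0) (hy : y ≠ 0) (T : Set (ℤ × ℤ × ℤ))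
    (h0 : 0 ∈ T) (hT : ∀ i ∈ T, ∀ j ∈ T, i + j ∈ T) {s : Set K}
    (hs : s ⊆ M11_e β δ y '' T) {x : K} (hx : x ∈ Algebra.adjoin k s) :
    x ∈ Submodule.span k (M11_e β δ y '' T) := by
  have h1 : (Submonoid.closure s : Set K) ⊆ M11_e β δ y '' T := by
    intro z hz
    induction hz using Submonoid.closure_induction with
    | mem z hz => exact hs hz
    | one => exact ⟨0, h0, by simp [M11_e]⟩
    | mul a b _ _ ha hb =>
      obtain ⟨i, hi, rfl⟩ := ha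
      obtain ⟨j, hj, rfl⟩ := hb
      exact ⟨i + j, hT i hi j hj, M11_add hβ hδ hy i j⟩
  have h2 : x ∈ Subalgebra.toSubmodule (Algebra.adjoin k s) := hx
  rw [Algebra.adjoin_eq_span] at h2
  exact Submodule.span_mono h1 h2

/-- intersection of spans -/
theorem M11_inter {β δ y : K} (h : AlgebraicIndependent k ![β, δ, y]) (T T' : Set (ℤ × ℤ × ℤ))
    {x : K} (h1 : x ∈ Submodule.span k (M11_e β δ y '' T))
    (h2 : x ∈ Submodule.span k (M11_e β δ y '' T')) (E : Subalgebra k K)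
    (hE : ∀ i ∈ T, i ∈ T' → M11_e β δ y i ∈ E) : x ∈ E := by
  have hli := M11_indep h
  rw [Finsupp.mem_span_image_iff_linearCombination] at h1 h2
  obtain ⟨l, hl, hlx⟩ := h1
  obtain ⟨l', hl', hlx'⟩ := h2
  have h3 : l = l' := hli (hlx.trans hlx'.symm)
  subst h3
  rw [← hlx, Finsupp.linearCombination_apply]
  rw [Finsupp.mem_supported] at hl hl'
  refine sum_mem fun i hi => ?_
  exact E.smul_mem (hE i (hl hi) (hl' hi)) _

/-- denominators -/
theorem M11_den (Q : Subalgebra k K) {u : K} (hu : u ∈ Q) {s : Set K}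
    (hs : ∀ r ∈ s, ∃ N : ℕ, r * u ^ N ∈ Q) {r : K} (hr : r ∈ Algebra.adjoin k s) :
    ∃ N : ℕ, r * u ^ N ∈ Q := by
  induction hr using Algebra.adjoin_induction with
  | mem r hr => exact hs r hr
  | algebraMap a => exact ⟨0, by rw [pow_zero, mul_one]; exact Q.algebraMap_mem a⟩
  | add r s _ _ hr hs =>
    obtain ⟨N, h1⟩ := hr
    obtain ⟨M, h2⟩ := hs
    refine ⟨N + M, ?_⟩
    have h3 : (r + s) * u ^ (N + M) = (r * u ^ N) * u ^ M + (s * u ^ M) * u ^ N := by ring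
    rw [h3]
    exact add_mem (mul_mem h1 (pow_mem hu M)) (mul_mem h2 (pow_mem hu N))
  | mul r s _ _ hr hs =>
    obtain ⟨N, h1⟩ := hr
    obtain ⟨M, h2⟩ := hs
    refine ⟨N + M, ?_⟩
    have h3 : (r * s) * u ^ (N + M) = (r * u ^ N) * (s * u ^ M) := by ring
    rw [h3]
    exact mul_mem h1 h2

/-- monomials in `Y0` -/
theorem M11_mono_mem (E : Subalgebra k K) {β δ y : K} (h1 : β ∈ E) (h2 : δ ∈ E)
    (h3 : β ^ 2 * y ∈ E) (h4 : β * δ * y ∈ E) (h5 : δ ^ 2 * y ∈ E) (c : ℕ) :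
    ∀ a b : ℕ, 2 * c ≤ a + b → β ^ a * δ ^ b * y ^ c ∈ E := by
  induction c with
  | zero =>
    intro a b _
    rw [pow_zero, mul_one]
    exact mul_mem (pow_mem h1 a) (pow_mem h2 b)
  | succ c ih =>
    intro a b hab
    by_cases ha : 2 ≤ a
    · obtain ⟨a', rfl⟩ : ∃ a', a = a' + 2 := ⟨a - 2, by omega⟩
      have h6 : β ^ (a' + 2) * δ ^ b * y ^ (c + 1) = (β ^ 2 * y) * (β ^ a' * δ ^ b * y ^ c) := by
        ring
      rw [h6]
      exact mul_mem h3 (ih a' b (by omega))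
    · by_cases hb : 2 ≤ b
      · obtain ⟨b', rfl⟩ : ∃ b', b = b' + 2 := ⟨b - 2, by omega⟩
        have h6 : β ^ a * δ ^ (b' + 2) * y ^ (c + 1) =
            (δ ^ 2 * y) * (β ^ a * δ ^ b' * y ^ c) := by
          ring
        rw [h6]
        exact mul_mem h5 (ih a b' (by omega))
      · have ha1 : a = 1 := by omega
        have hb1 : b = 1 := by omega
        subst ha1 hb1
        have h6 : β ^ 1 * δ ^ 1 * y ^ (c + 1) = (β * δ * y) * (β ^ 0 * δ ^ 0 * y ^ c) := by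
          ring
        rw [h6]
        exact mul_mem h4 (ih 0 0 (by omega))

/-- Laurent monomials in `Y0` and `P4` -/
theorem M11_mono_mem' (E : Subalgebra k K) {β δ y : K} (h1 : β ∈ E) (h2 : δ ∈ E)
    (h3 : β ^ 2 * y ∈ E) (h4 : β * δ * y ∈ E) (h5 : δ ^ 2 * y ∈ E) {i : ℤ × ℤ × ℤ}
    (hi1 : 0 ≤ i.1) (hi2 : 0 ≤ i.2.1) (hi3 : 2 * i.2.2 ≤ i.1 + i.2.1)
    (hc : 0 ≤ i.2.2 ∨ y⁻¹ ∈ E) : M11_e β δ y i ∈ E := by
  obtain ⟨a, b, c⟩ := i
  dsimp only at hi1 hi2 hi3 hc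
  obtain ⟨a, rfl⟩ := Int.eq_ofNat_of_zero_le hi1
  obtain ⟨b, rfl⟩ := Int.eq_ofNat_of_zero_le hi2
  unfold M11_e
  dsimp only
  rw [zpow_natCast, zpow_natCast]
  by_cases hc0 : 0 ≤ c
  · obtain ⟨c, rfl⟩ := Int.eq_ofNat_of_zero_le hc0
    rw [zpow_natCast]
    exact M11_mono_mem E h1 h2 h3 h4 h5 c a b (by omega)
  · have hy := hc.resolve_left hc0
    obtain ⟨n, hn⟩ : ∃ n : ℕ, c = -(n : ℤ) := ⟨(-c).toNat, by omega⟩
    rw [hn, zpow_neg, zpow_natCast, ← inv_pow]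
    exact mul_mem (mul_mem (pow_mem h1 a) (pow_mem h2 b)) (pow_mem hy n)

end M11

variable {R₀ K : Type*} [CommRing R₀] [Field K] [Algebra R₀ K]

variable {k : Type*} [Field k] [Algebra k K] (p : ℕ) [Fact p.Prime] [CharP k p] {A v w : K}

/-- Algebraic independence implies that all nine functions are nonzero. -/
theorem fn_ne_zero (hp : 5 ≤ p) (h : AlgebraicIndependent k ![A, v, w]) (i : Fin 9) :
    fn p A v w i ≠ 0 := by
  obtain ⟨h1, h2, h3, h4, h5, h6, h7, h8, h9⟩ := ind_ne h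
  fin_cases i
  · exact h1
  · exact h2
  · exact h3
  · exact sub_ne_zero.2 h5
  · exact sub_ne_zero.2 h6
  · exact sub_ne_zero.2 h7
  · exact sub_ne_zero.2 h4
  · exact sub_ne_zero.2 (h8 p (by omega))
  · exact sub_ne_zero.2 (h9 p (by omega))

theorem M11_fn (h : AlgebraicIndependent k ![A, v, w]) (i : Fin 9) :
    fn p A v w i ≠ 0 := by
  have hp : 0 < p := (Fact.out : p.Prime).pos
  obtain ⟨h1, h2, h3, h4, h5, h6, h7, h8, h9⟩ := ind_ne h
  fin_cases i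
  · exact h1
  · exact h2
  · exact h3
  · exact sub_ne_zero.2 h5
  · exact sub_ne_zero.2 h6
  · exact sub_ne_zero.2 h7
  · exact sub_ne_zero.2 h4
  · exact sub_ne_zero.2 (h8 p hp)
  · exact sub_ne_zero.2 (h9 p hp)

/-- The common part of the two intersections: `Y` is `Y0` or `P4`. -/
theorem M11_main (h : AlgebraicIndependent k ![A, v, w]) (Y : Subalgebra k K) (s1 s2 : Set K)
    (T : Set ℤ) (hT0 : 0 ∈ T) (hTadd : ∀ a ∈ T, ∀ b ∈ T, a + b ∈ T) (hT1 : 1 ∈ T)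
    (hY0 : Y0 k p A v w ≤ Y) (hTY : ∀ c ∈ T, 0 ≤ c ∨ (yy p A v w)⁻¹ ∈ Y)
    (hs1 : ∀ r ∈ s1, r ∈ Y0 k p A v w ∨ (∃ i : ℤ × ℤ × ℤ,
      r = M11_e (v - 1) (w - 1) (yy p A v w) i ∧ 0 ≤ i.2.1 ∧ 2 * i.2.2 ≤ i.1 + i.2.1 ∧ i.2.2 ∈ T))
    (hs2 : ∀ r ∈ s2, r ∈ Y0 k p A v w ∨ (∃ i : ℤ × ℤ × ℤ,
      r = M11_e (v - 1) (w - 1) (yy p A v w) i ∧ 0 ≤ i.1 ∧ 2 * i.2.2 ≤ i.1 + i.2.1 ∧ i.2.2 ∈ T))
    {r : K} (hr1 : r ∈ Algebra.adjoin k s1) (hr2 : r ∈ Algebra.adjoin k s2) : r ∈ Y := by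
  have hi := ind_P3 p h
  obtain ⟨hβ, hδ, hy⟩ := M11_ne hi
  obtain ⟨hA0, hv0, hw0, -⟩ := ind_ne h
  have hN := M11_fn p h
  have hAe := M10_A p hN
  have e3 : v = (v - 1) + 1 := by ring
  have e4 : w = (w - 1) + 1 := by ring
  have e5 : v - w = (v - 1) - (w - 1) := by ring
  -- the ring generated by Laurent monomials
  have main : ∀ (s : Set K) (U : Set (ℤ × ℤ × ℤ)), 0 ∈ U → (∀ i ∈ U, ∀ j ∈ U, i + j ∈ U) →
      (1, 0, 0) ∈ U → (0, 1, 0) ∈ U → (2, 0, 1) ∈ U → (1, 1, 1) ∈ U → (0, 2, 1) ∈ U →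
      (∀ r ∈ s, r ∈ Y0 k p A v w ∨
        ∃ i ∈ U, r = M11_e (v - 1) (w - 1) (yy p A v w) i) →
      ∀ r ∈ Algebra.adjoin k s, ∃ N : ℕ, ∀ M, N ≤ M → r * (A * v * w) ^ M ∈
        Submodule.span k (M11_e (v - 1) (w - 1) (yy p A v w) '' U) := by
    intro s U hU0 hUadd u1 u2 u3 u4 u5 hs r hr
    have hg : ∀ i ∈ U, M11_e (v - 1) (w - 1) (yy p A v w) i ∈
        Algebra.adjoin k (M11_e (v - 1) (w - 1) (yy p A v w) '' U) :=
      fun i hi => Algebra.subset_adjoin ⟨i, hi, rfl⟩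
    have z2 : ∀ x : K, x ^ (2 : ℤ) = x ^ 2 := fun x => by
      rw [show (2 : ℤ) = ((2 : ℕ) : ℤ) from rfl, zpow_natCast]
    have f1 : M11_e (v - 1) (w - 1) (yy p A v w) (1, 0, 0) = v - 1 := by simp [M11_e]
    have f2 : M11_e (v - 1) (w - 1) (yy p A v w) (0, 1, 0) = w - 1 := by simp [M11_e]
    have f3 : M11_e (v - 1) (w - 1) (yy p A v w) (2, 0, 1) = (v - 1) ^ 2 * yy p A v w := by
      simp [M11_e, z2]
    have f4 : M11_e (v - 1) (w - 1) (yy p A v w) (1, 1, 1) =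
        (v - 1) * (w - 1) * yy p A v w := by
      simp [M11_e]
    have f5 : M11_e (v - 1) (w - 1) (yy p A v w) (0, 2, 1) = (w - 1) ^ 2 * yy p A v w := by
      simp [M11_e, z2]
    have g1 := hg _ u1
    have g2 := hg _ u2
    have g3 := hg _ u3
    have g4 := hg _ u4
    have g5 := hg _ u5
    rw [f1] at g1
    rw [f2] at g2
    rw [f3] at g3
    rw [f4] at g4
    rw [f5] at g5
    generalize hQ : Algebra.adjoin k (M11_e (v - 1) (w - 1) (yy p A v w) '' U) = Q at hg g1 g2 g3 g4 g5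
    have qv : v ∈ Q := by rw [e3]; exact add_mem g1 (one_mem _)
    have qw : w ∈ Q := by rw [e4]; exact add_mem g2 (one_mem _)
    have qA : A ∈ Q := by
      have h7 : 1 + (v - 1) ^ (p - 1) * (w - 1) + (v - w) * ((v - 1) * (w - 1) * yy p A v w) ∈
          Q :=
        add_mem (add_mem (one_mem _) (mul_mem (pow_mem g1 _) g2))
          (mul_mem (by rw [e5]; exact sub_mem g1 g2) g4)
      rwa [← hAe] at h7
    have qu : A * v * w ∈ Q := mul_mem (mul_mem qA qv) qw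
    have hden : ∃ N : ℕ, r * (A * v * w) ^ N ∈ Q := by
      refine M11_den Q qu ?_ hr
      intro t ht
      rcases hs t ht with h1 | ⟨i, hi, rfl⟩
      · refine M11_den Q qu ?_ h1
        rintro z (hz | hz | hz | hz | hz | hz | hz | hz)
        · exact ⟨0, by rw [hz, pow_zero, mul_one]; exact g1⟩
        · exact ⟨0, by rw [hz, pow_zero, mul_one]; exact g2⟩
        · exact ⟨0, by rw [hz, pow_zero, mul_one]; exact g3⟩
        · exact ⟨0, by rw [hz, pow_zero, mul_one]; exact g4⟩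
        · exact ⟨0, by rw [hz, pow_zero, mul_one]; exact g5⟩
        · refine ⟨1, ?_⟩
          have h2 : z * (A * v * w) ^ 1 = v * w := by
            rw [hz, pow_one]
            field_simp
          rw [h2]
          exact mul_mem qv qw
        · refine ⟨1, ?_⟩
          have h2 : z * (A * v * w) ^ 1 = A * w := by
            rw [hz, pow_one]
            field_simp
          rw [h2]
          exact mul_mem qA qw
        · refine ⟨1, ?_⟩
          have hz' : z = w⁻¹ := hz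
          have h2 : z * (A * v * w) ^ 1 = A * v := by
            rw [hz', pow_one]
            field_simp
          rw [h2]
          exact mul_mem qA qv
      · exact ⟨0, by rw [pow_zero, mul_one]; exact hg i hi⟩
    obtain ⟨N, hNQ⟩ := hden
    refine ⟨N, fun M hM => ?_⟩
    have h2 : r * (A * v * w) ^ M ∈ Q := by
      have h3 : r * (A * v * w) ^ M = (r * (A * v * w) ^ N) * (A * v * w) ^ (M - N) := by
        rw [mul_assoc r, ← pow_add, Nat.add_sub_cancel' hM]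
      rw [h3]
      exact mul_mem hNQ (pow_mem qu _)
    rw [← hQ] at h2
    exact M11_span hβ hδ hy U hU0 hUadd (le_refl _) h2
  obtain ⟨N1, hN1⟩ := main s1 {i | 0 ≤ i.2.1 ∧ 2 * i.2.2 ≤ i.1 + i.2.1 ∧ i.2.2 ∈ T}
    ⟨le_refl _, le_refl _, hT0⟩
    (by
      rintro i ⟨a1, a2, a3⟩ j ⟨b1, b2, b3⟩
      exact ⟨add_nonneg a1 b1, by simp only [Prod.fst_add, Prod.snd_add]; omega,
        hTadd _ a3 _ b3⟩)
    ⟨by norm_num, by norm_num, hT0⟩ ⟨by norm_num, by norm_num, hT0⟩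
    ⟨by norm_num, by norm_num, hT1⟩ ⟨by norm_num, by norm_num, hT1⟩
    ⟨by norm_num, by norm_num, hT1⟩
    (fun t ht => (hs1 t ht).imp id fun ⟨i, h1, h2⟩ => ⟨i, h2, h1⟩) r hr1
  obtain ⟨N2, hN2⟩ := main s2 {i | 0 ≤ i.1 ∧ 2 * i.2.2 ≤ i.1 + i.2.1 ∧ i.2.2 ∈ T}
    ⟨le_refl _, le_refl _, hT0⟩
    (by
      rintro i ⟨a1, a2, a3⟩ j ⟨b1, b2, b3⟩
      exact ⟨add_nonneg a1 b1, by simp only [Prod.fst_add, Prod.snd_add]; omega,
        hTadd _ a3 _ b3⟩)
    ⟨by norm_num, by norm_num, hT0⟩ ⟨by norm_num, by norm_num, hT0⟩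
    ⟨by norm_num, by norm_num, hT1⟩ ⟨by norm_num, by norm_num, hT1⟩
    ⟨by norm_num, by norm_num, hT1⟩
    (fun t ht => (hs2 t ht).imp id fun ⟨i, h1, h2⟩ => ⟨i, h2, h1⟩) r hr2
  have m : ∀ t ∈ ({v - 1, w - 1, (v - 1) ^ 2 * yy p A v w, (v - 1) * (w - 1) * yy p A v w,
      (w - 1) ^ 2 * yy p A v w, A⁻¹, v⁻¹, w⁻¹} : Set K), t ∈ Y :=
    fun t ht => hY0 (Algebra.subset_adjoin ht)
  have h1 : r * (A * v * w) ^ (N1 + N2) ∈ Y := by
    refine M11_inter hi _ _ (hN1 _ (Nat.le_add_right _ _)) (hN2 _ (Nat.le_add_left _ _)) Y ?_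
    rintro i ⟨a1, a2, a3⟩ ⟨b1, b2, b3⟩
    exact M11_mono_mem' Y (m _ (by simp)) (m _ (by simp)) (m _ (by simp)) (m _ (by simp))
      (m _ (by simp)) b1 a1 a2 (hTY _ a3)
  have h2 : r = (r * (A * v * w) ^ (N1 + N2)) * (A⁻¹ * v⁻¹ * w⁻¹) ^ (N1 + N2) := by
    rw [mul_assoc r, ← mul_pow]
    have h3 : A * v * w * (A⁻¹ * v⁻¹ * w⁻¹) = 1 := by
      field_simp
    rw [h3, one_pow, mul_one]
  rw [h2]
  exact mul_mem h1 (pow_mem (mul_mem (mul_mem (m _ (by simp)) (m _ (by simp)))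
    (m _ (by simp))) _)

theorem M11_Y0_mem : ∀ t ∈ ({v - 1, w - 1, (v - 1) ^ 2 * yy p A v w,
    (v - 1) * (w - 1) * yy p A v w, (w - 1) ^ 2 * yy p A v w, A⁻¹, v⁻¹, w⁻¹} : Set K),
    t ∈ Y0 k p A v w := fun _ ht => Algebra.subset_adjoin ht

/-- the generators of `P1` -/
theorem M11_g1 (h : AlgebraicIndependent k ![A, v, w]) (T : Set ℤ) (hT0 : 0 ∈ T) :
    ∀ r ∈ ({(w - 1) / (v - 1), v - 1,
      -(((v - 1) / (w - 1)) ^ 2 * nn p A v w + p * ((v - 1) / (w - 1))), A⁻¹, v⁻¹, w⁻¹} : Set K),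
      r ∈ Y0 k p A v w ∨ (∃ i : ℤ × ℤ × ℤ,
      r = M11_e (v - 1) (w - 1) (yy p A v w) i ∧ 0 ≤ i.2.1 ∧ 2 * i.2.2 ≤ i.1 + i.2.1 ∧
      i.2.2 ∈ T) := by
  have hN := M11_fn p h
  have : CharP K p := (Algebra.charP_iff k K p).1 inferInstance
  obtain ⟨-, -, e3⟩ := yy_eq p hN
  have m := M11_Y0_mem (k := k) p (A := A) (v := v) (w := w)
  rintro r (hr | hr | hr | hr | hr | hr)
  · right
    refine ⟨(-1, 1, 0), ?_, by norm_num, by norm_num, hT0⟩
    rw [hr]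
    simp only [M11_e, zpow_neg, zpow_one, zpow_zero, mul_one]
    rw [div_eq_mul_inv, mul_comm]
  · left; rw [hr]; exact m _ (by simp)
  · left; rw [hr, e3]; exact neg_mem (m _ (by simp))
  · left; rw [hr]; exact m _ (by simp)
  · left; rw [hr]; exact m _ (by simp)
  · left; rw [hr]; exact m _ (by simp)

/-- the generators of `P2` -/
theorem M11_g2 (h : AlgebraicIndependent k ![A, v, w]) (T : Set ℤ) (hT0 : 0 ∈ T) :
    ∀ r ∈ ({(v - 1) / (w - 1), w - 1, nn p A v w, A⁻¹, v⁻¹, w⁻¹} : Set K),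
      r ∈ Y0 k p A v w ∨ (∃ i : ℤ × ℤ × ℤ,
      r = M11_e (v - 1) (w - 1) (yy p A v w) i ∧ 0 ≤ i.1 ∧ 2 * i.2.2 ≤ i.1 + i.2.1 ∧
      i.2.2 ∈ T) := by
  have hN := M11_fn p h
  have : CharP K p := (Algebra.charP_iff k K p).1 inferInstance
  obtain ⟨-, e2, -⟩ := yy_eq p hN
  have m := M11_Y0_mem (k := k) p (A := A) (v := v) (w := w)
  rintro r (hr | hr | hr | hr | hr | hr)
  · right
    refine ⟨(1, -1, 0), ?_, by norm_num, by norm_num, hT0⟩
    rw [hr]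
    simp only [M11_e, zpow_neg, zpow_one, zpow_zero, mul_one]
    rw [div_eq_mul_inv]
  · left; rw [hr]; exact m _ (by simp)
  · left; rw [hr, e2]; exact m _ (by simp)
  · left; rw [hr]; exact m _ (by simp)
  · left; rw [hr]; exact m _ (by simp)
  · left; rw [hr]; exact m _ (by simp)

/-- `Y0 = P1 ∩ P2`.  Proof: with `s, r, n` algebraically independent, `k[s, r, n]` and
`k[s⁻¹, s r, s^2 n]` are spanned by monomials `s^i r^j n^l` with `i, j, l ≥ 0`, resp. `j, l ≥ 0`,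
`i ≤ j + 2 l`; the intersection is spanned by those with `0 ≤ i ≤ j + 2 l`, which are products of
`r, s r, n, s n, s^2 n`, all in `Y0`.  An element of `P1 ∩ P2` times a power of `A v w` lies in both
polynomial rings (`A v w` lies in both), and `1/(A v w) ∈ Y0`. -/
theorem Y0_eq_inf (h : AlgebraicIndependent k ![A, v, w]) :
    Y0 k p A v w = P1 k p A v w ⊓ P2 k p A v w := by
  have hN := M11_fn p h
  have : CharP K p := (Algebra.charP_iff k K p).1 inferInstance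
  apply le_antisymm
  · refine le_inf ?_ ?_
    · rw [P1_eq_Y0 p hN]; exact le_sup_left
    · rw [P2_eq_Y0 p hN]; exact le_sup_left
  · rintro r ⟨h1, h2⟩
    have h0 : (0 : ℤ) ∈ {c : ℤ | 0 ≤ c} := le_refl (0 : ℤ)
    have hadd : ∀ a ∈ {c : ℤ | 0 ≤ c}, ∀ b ∈ {c : ℤ | 0 ≤ c}, a + b ∈ {c : ℤ | 0 ≤ c} := by
      intro a ha b hb
      have ha' : 0 ≤ a := ha
      have hb' : 0 ≤ b := hb
      show 0 ≤ a + b
      omega
    have h1' : (1 : ℤ) ∈ {c : ℤ | 0 ≤ c} := by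
      show (0 : ℤ) ≤ 1
      norm_num
    exact M11_main p h (Y0 k p A v w) _ _ {c | 0 ≤ c} h0
      hadd h1' le_rfl (fun c hc => Or.inl hc)
      (M11_g1 p h _ h0) (M11_g2 p h _ h0) h1 h2

/-- The same with `n` and `n' = - s^2 n` inverted: monomials with `0 ≤ i ≤ j + 2 l`, `0 ≤ j`,
products of the same elements and `y⁻¹ = r^2 n⁻¹`. -/
theorem P4_eq_inf (h : AlgebraicIndependent k ![A, v, w]) :
    P4 k p A v w = (P1 k p A v w ⊔ Algebra.adjoin k {((v - 1) ^ 2 * yy p A v w)⁻¹}) ⊓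
      (P2 k p A v w ⊔ Algebra.adjoin k {((w - 1) ^ 2 * yy p A v w)⁻¹}) := by
  have hN := M11_fn p h
  have : CharP K p := (Algebra.charP_iff k K p).1 inferInstance
  have hi := ind_P3 p h
  obtain ⟨hβ, hδ, hy⟩ := M11_ne hi
  have m := M11_Y0_mem (k := k) p (A := A) (v := v) (w := w)
  have z2 : ∀ x : K, x ^ (2 : ℤ) = x ^ 2 := fun x => by
    rw [show (2 : ℤ) = ((2 : ℕ) : ℤ) from rfl, zpow_natCast]
  apply le_antisymm
  · rw [P4_eq_Y0 p hN]
    refine le_inf ?_ ?_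
    · have h1 : Y0 k p A v w ≤ P1 k p A v w ⊔
          Algebra.adjoin k {((v - 1) ^ 2 * yy p A v w)⁻¹} := by
        rw [P1_eq_Y0 p hN]; exact le_sup_left.trans le_sup_left
      refine sup_le h1 (Algebra.adjoin_le ?_)
      rintro r hr
      rw [Set.mem_singleton_iff] at hr
      have h2 : r = (v - 1) ^ 2 * ((v - 1) ^ 2 * yy p A v w)⁻¹ := by
        rw [hr]
        field_simp
      rw [h2]
      exact mul_mem (pow_mem (h1 (m _ (by simp))) 2)
        ((le_sup_right : Algebra.adjoin k {((v - 1) ^ 2 * yy p A v w)⁻¹} ≤ _)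
          (Algebra.subset_adjoin (Set.mem_singleton _)))
    · have h1 : Y0 k p A v w ≤ P2 k p A v w ⊔
          Algebra.adjoin k {((w - 1) ^ 2 * yy p A v w)⁻¹} := by
        rw [P2_eq_Y0 p hN]; exact le_sup_left.trans le_sup_left
      refine sup_le h1 (Algebra.adjoin_le ?_)
      rintro r hr
      rw [Set.mem_singleton_iff] at hr
      have h2 : r = (w - 1) ^ 2 * ((w - 1) ^ 2 * yy p A v w)⁻¹ := by
        rw [hr]
        field_simp
      rw [h2]
      exact mul_mem (pow_mem (h1 (m _ (by simp))) 2)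
        ((le_sup_right : Algebra.adjoin k {((w - 1) ^ 2 * yy p A v w)⁻¹} ≤ _)
          (Algebra.subset_adjoin (Set.mem_singleton _)))
  · rintro r ⟨h1, h2⟩
    unfold P1 at h1
    unfold P2 at h2
    rw [← Algebra.adjoin_union] at h1 h2
    refine M11_main p h (P4 k p A v w) _ _ Set.univ (Set.mem_univ _)
      (fun _ _ _ _ => Set.mem_univ _) (Set.mem_univ _) ?_ ?_ ?_ ?_ h1 h2
    · rw [P4_eq_Y0 p hN]; exact le_sup_left
    · intro c _
      right
      rw [P4_eq_Y0 p hN]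
      exact (le_sup_right : Algebra.adjoin k {(yy p A v w)⁻¹} ≤ _)
        (Algebra.subset_adjoin (Set.mem_singleton _))
    · rintro r (hr | hr)
      · exact M11_g1 p h _ (Set.mem_univ _) r hr
      · rw [Set.mem_singleton_iff] at hr
        right
        refine ⟨(-2, 0, -1), ?_, by norm_num, by norm_num, Set.mem_univ _⟩
        rw [hr]
        simp only [M11_e, zpow_neg, zpow_one, zpow_zero, mul_one, z2]
        rw [mul_inv]
    · rintro r (hr | hr)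
      · exact M11_g2 p h _ (Set.mem_univ _) r hr
      · rw [Set.mem_singleton_iff] at hr
        right
        refine ⟨(0, -2, -1), ?_, by norm_num, by norm_num, Set.mem_univ _⟩
        rw [hr]
        simp only [M11_e, zpow_neg, zpow_one, zpow_zero, one_mul, z2]
        rw [mul_inv]

theorem Y0_mono (h : AlgebraicIndependent k ![A, v, w]) {e : Fin 9 → ℤ} (he : Eff p .Y0 e) :
    mono p A v w e ∈ Y0 k p A v w := by
  have hN := M11_fn p h
  rw [Y0_eq_inf p h]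
  refine ⟨P1_mono p hN fun P hP => he P ?_, P2_mono p hN fun P hP => he P ?_⟩
  · have h1 : pres .P1 ⊆ pres .Y0 := by decide
    exact h1 hP
  · have h1 : pres .P2 ⊆ pres .Y0 := by decide
    exact h1 hP

end H1F
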