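import Pool.Agent.Lib.H1F.MO.M12

/-!
# H1F, chunk M13

The chart `Y0` and the charts of `B`; the gluing condition for `X⁺`.
-/

open MvPolynomial

namespace H1F

variable {R₀ K : Type*} [CommRing R₀] [Field K] [Algebra R₀ K]

/-- The elements of `K` which are multiplied into `R` by a power of `g ∈ R`. -/
def powMul (R : Subalgebra R₀ K) (g : K) (hg : g ∈ R) : Subalgebra R₀ K where
  carrier := {x | ∃ N : ℕ, g ^ N * x ∈ R}
  mul_mem' := by
    rintro x y ⟨N, hx⟩ ⟨M, hy⟩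
    refine ⟨N + M, ?_⟩
    have : g ^ (N + M) * (x * y) = (g ^ N * x) * (g ^ M * y) := by ring
    rw [this]
    exact mul_mem hx hy
  add_mem' := by
    rintro x y ⟨N, hx⟩ ⟨M, hy⟩
    refine ⟨N + M, ?_⟩
    have : g ^ (N + M) * (x + y) = g ^ M * (g ^ N * x) + g ^ N * (g ^ M * y) := by ring
    rw [this]
    exact add_mem (mul_mem (pow_mem hg _) hx) (mul_mem (pow_mem hg _) hy)
  algebraMap_mem' r := ⟨0, by rw [pow_zero, one_mul]; exact Subalgebra.algebraMap_mem _ r⟩

/-- Elements of a localization. -/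
theorem exists_pow_mul_mem {R : Subalgebra R₀ K} {g : K} (hg : g ∈ R) (hg0 : g ≠ 0) {x : K}
    (hx : x ∈ R ⊔ Algebra.adjoin R₀ {g⁻¹}) : ∃ N : ℕ, g ^ N * x ∈ R := by
  have h : R ⊔ Algebra.adjoin R₀ {g⁻¹} ≤ powMul R g hg := by
    refine sup_le (fun y hy ↦ ⟨0, by rwa [pow_zero, one_mul]⟩) ?_
    rw [Algebra.adjoin_le_iff, Set.singleton_subset_iff]
    exact ⟨1, by rw [pow_one, mul_inv_cancel₀ hg0]; exact one_mem _⟩
  exact h hx

variable {k : Type*} [Field k] [Algebra k K] (p : ℕ) [Fact p.Prime] [CharP k p] {A v w : K}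

/-- On the intersection of a chart of `B` with `Y0` one of `β, δ` is invertible: if `E_z` does not
meet `c` then `β⁻¹` is effective along the common primes, otherwise `δ⁻¹` is. -/
theorem inv_mem_sup_Y0 (hp : 5 ≤ p) (h : AlgebraicIndependent k ![A, v, w]) (c : Ch)
    (hc : c.inB) : (v - 1)⁻¹ ∈ ring k p A v w c ⊔ Y0 k p A v w ∨
      (w - 1)⁻¹ ∈ ring k p A v w c ⊔ Y0 k p A v w := by
  have hmono : ∀ e : Fin 9 → ℤ, (∀ P ∈ pres .Y0, P ∈ pres c → 0 ≤ vF p e P) →
      mono p A v w e ∈ ring k p A v w c ⊔ Y0 k p A v w := by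
    intro e he
    rw [(sup_Y0 p hp h c hc).1]
    exact (mono_mem_loc_Y0 p hp h c hc fun P h1 h2 ↦ he P h2 h1).1
  obtain ⟨h15, -, h13, h14⟩ := pres_B c hc
  by_cases h0 : (14 : Fin 16) ∈ pres c
  · right
    have h13' := (h14 h0).2
    have := hmono (-Pi.single 4 1) (by
      intro P hP hPc
      simp only [pres, Finset.mem_insert, Finset.mem_singleton] at hP
      rcases hP with rfl | rfl | rfl | rfl | rfl | rfl | rfl <;>
        first
        | exact absurd hPc h15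
        | exact absurd hPc h13'
        | simp [vF])
    rw [mono_neg, ← fn_eq_mono] at this
    exact this
  · left
    have := hmono (-Pi.single 3 1) (by
      intro P hP hPc
      simp only [pres, Finset.mem_insert, Finset.mem_singleton] at hP
      rcases hP with rfl | rfl | rfl | rfl | rfl | rfl | rfl <;>
        first
        | exact absurd hPc h15
        | exact absurd hPc h0
        | simp [vF])
    rw [mono_neg, ← fn_eq_mono] at this
    exact this

theorem P12_le_sup_Y0 (hp : 5 ≤ p) (h : AlgebraicIndependent k ![A, v, w]) (c : Ch)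
    (hc : c.inB) : P1 k p A v w ≤ ring k p A v w c ⊔ Y0 k p A v w ∨
      P2 k p A v w ≤ ring k p A v w c ⊔ Y0 k p A v w := by
  have hN := fn_ne_zero p hp h
  have : CharP K p := charP_of_injective_algebraMap (algebraMap k K).injective p
  have hb : v - 1 ∈ ring k p A v w c ⊔ Y0 k p A v w :=
    (le_sup_right : Y0 k p A v w ≤ _) (Algebra.subset_adjoin (by simp))
  have hd : w - 1 ∈ ring k p A v w c ⊔ Y0 k p A v w :=
    (le_sup_right : Y0 k p A v w ≤ _) (Algebra.subset_adjoin (by simp))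
  rcases inv_mem_sup_Y0 p hp h c hc with h1 | h1
  · left
    rw [P1_eq_Y0 p hN]
    refine sup_le le_sup_right ?_
    rw [Algebra.adjoin_le_iff, Set.singleton_subset_iff]
    show (w - 1) / (v - 1) ∈ ring k p A v w c ⊔ Y0 k p A v w
    rw [div_eq_mul_inv]
    exact mul_mem hd h1
  · right
    rw [P2_eq_Y0 p hN]
    refine sup_le le_sup_right ?_
    rw [Algebra.adjoin_le_iff, Set.singleton_subset_iff]
    show (v - 1) / (w - 1) ∈ ring k p A v w c ⊔ Y0 k p A v w
    rw [div_eq_mul_inv]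
    exact mul_mem hb h1

theorem P3_le_sup_Y0 (hp : 5 ≤ p) (h : AlgebraicIndependent k ![A, v, w]) (c : Ch)
    (hc : c.inB) : P3 k p A v w ≤ ring k p A v w c ⊔ Y0 k p A v w := by
  have hN := fn_ne_zero p hp h
  have hv : v - 1 ≠ 0 := hN 3
  have hw : w - 1 ≠ 0 := hN 4
  rw [P3_eq_Y0 p hN]
  refine sup_le le_sup_right ?_
  rw [Algebra.adjoin_le_iff, Set.singleton_subset_iff]
  show yy p A v w ∈ ring k p A v w c ⊔ Y0 k p A v w
  rcases inv_mem_sup_Y0 p hp h c hc with h1 | h1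
  · have h2 : (v - 1) ^ 2 * yy p A v w ∈ ring k p A v w c ⊔ Y0 k p A v w :=
      (le_sup_right : Y0 k p A v w ≤ _) (Algebra.subset_adjoin (by simp))
    have h3 : yy p A v w = (v - 1)⁻¹ ^ 2 * ((v - 1) ^ 2 * yy p A v w) := by
      rw [← mul_assoc, ← mul_pow, inv_mul_cancel₀ hv, one_pow, one_mul]
    rw [h3]
    exact mul_mem (pow_mem h1 2) h2
  · have h2 : (w - 1) ^ 2 * yy p A v w ∈ ring k p A v w c ⊔ Y0 k p A v w :=
      (le_sup_right : Y0 k p A v w ≤ _) (Algebra.subset_adjoin (by simp))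
    have h3 : yy p A v w = (w - 1)⁻¹ ^ 2 * ((w - 1) ^ 2 * yy p A v w) := by
      rw [← mul_assoc, ← mul_pow, inv_mul_cancel₀ hw, one_pow, one_mul]
    rw [h3]
    exact mul_mem (pow_mem h1 2) h2

/-- `y ≠ 0`. -/
theorem M13_yy_ne_zero (hp : 5 ≤ p) (h : AlgebraicIndependent k ![A, v, w]) : yy p A v w ≠ 0 := by
  have hN := fn_ne_zero p hp h
  have hv : v - 1 ≠ 0 := hN 3
  have hw : w - 1 ≠ 0 := hN 4
  have hvw : v - w ≠ 0 := hN 5
  have hq : (X 0 - 1 - (X 1 - 1) ^ (p - 1) * (X 2 - 1) : MvPolynomial (Fin 3) k) ≠ 0 := by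
    intro h0
    have h1 := congrArg (eval ![0, 1, 1]) h0
    simp at h1
  have h1 : A - 1 - (v - 1) ^ (p - 1) * (w - 1) ≠ 0 := by
    intro h0
    apply hq
    have h2 := (injective_iff_map_eq_zero _).1 h (X 0 - 1 - (X 1 - 1) ^ (p - 1) * (X 2 - 1))
    apply h2
    simpa using h0
  exact div_ne_zero h1 (mul_ne_zero (mul_ne_zero hv hw) hvw)

/-- Charts of `X⁺`. -/
theorem Ch.inX'_cases {c : Ch} (hc : c.inX') : c.inB ∨ c = .P3 ∨ c = .P4 := by
  cases c <;> simp_all [Ch.inX', Ch.inB]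

/-- A chart of `B` and a ring which contains `Y0` and is generated by `Y0` and elements of
`R c ⊔ Y0`. -/
theorem sup_of_Y0 (hp : 5 ≤ p) (h : AlgebraicIndependent k ![A, v, w]) (c : Ch)
    (hc : c.inB) (S : Subalgebra k K) (hS : Y0 k p A v w ≤ S) :
    ring k p A v w c ⊔ S =
      S ⊔ Algebra.adjoin k {(mono p A v w (es p c - es p .Y0))⁻¹} := by
  have h1 := (sup_Y0 p hp h c hc).2
  apply le_antisymm
  · refine sup_le ?_ le_sup_left
    refine le_trans (le_sup_left : ring k p A v w c ≤ ring k p A v w c ⊔ Y0 k p A v w) ?_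
    rw [h1]
    exact sup_le_sup_right hS _
  · refine sup_le le_sup_right ?_
    refine le_trans (le_sup_right : _ ≤ Y0 k p A v w ⊔
      Algebra.adjoin k {(mono p A v w (es p c - es p .Y0))⁻¹}) ?_
    rw [← h1]
    exact sup_le_sup_left hS _

/-- `R c ⊔ P3 = R c ⊔ Y0 = R c [1/g]`, `= P3 [1/(s c / s Y0)]`; `R c ⊔ P4 = R c ⊔ Y0 ⊔ {y⁻¹}` with
`y ∈ R c ⊔ Y0`: if `y = y₀ / g ^ N`, `y₀ ∈ R c`, it is `R c [1/(g y₀)]`, and `= P4 [1/(s c / s Y0)]`;
`P3 ⊔ P4 = P3[1/y] = P4[y]`. -/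
theorem glueCond_X' (hp : 5 ≤ p) (h : AlgebraicIndependent k ![A, v, w])
    (hK : ∀ x : K, ∃ a b : MvPolynomial (Fin 3) k, aeval ![A, v, w] b ≠ 0 ∧
      x * aeval ![A, v, w] b = aeval ![A, v, w] a) :
    GlueCond (fun c : {c : Ch // c.inX'} ↦ ring k p A v w c.1) := by
  have hN := fn_ne_zero p hp h
  have hy0 := M13_yy_ne_zero p hp h
  have hY3 : Y0 k p A v w ≤ P3 k p A v w := by
    rw [P3_eq_Y0 p hN]
    exact le_sup_left
  have hY4 : Y0 k p A v w ≤ P4 k p A v w := by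
    rw [P4_eq_Y0 p hN]
    exact le_sup_left
  have hone : ∀ R : Subalgebra k K, ∃ g ∈ R, g ≠ 0 ∧ R ⊔ R = R ⊔ Algebra.adjoin k {g⁻¹} := by
    intro R
    refine ⟨1, one_mem _, one_ne_zero, ?_⟩
    rw [inv_one, sup_idem]
    symm
    rw [sup_eq_left, Algebra.adjoin_le_iff, Set.singleton_subset_iff]
    exact one_mem _
  -- a chart of `B` and `Y0`
  have hg : ∀ c : Ch, c.inB → ∀ S : Subalgebra k K, Y0 k p A v w ≤ S →
      ∃ g ∈ S, g ≠ 0 ∧ S ⊔ ring k p A v w c = S ⊔ Algebra.adjoin k {g⁻¹} := by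
    intro c hc S hS
    refine ⟨mono p A v w (es p c - es p .Y0), hS (section_mem_Y' p hp h c .Y0 hc.inY trivial),
      mono_ne_zero hN _, ?_⟩
    rw [sup_comm]
    exact sup_of_Y0 p hp h c hc S hS
  refine ⟨fun i ↦ ring_frac p hN hK i.1, ?_⟩
  rintro ⟨c, hc⟩ ⟨d, hd⟩
  show ∃ g ∈ ring k p A v w c, g ≠ 0 ∧
    ring k p A v w c ⊔ ring k p A v w d = ring k p A v w c ⊔ Algebra.adjoin k {g⁻¹}
  rcases Ch.inX'_cases hc with hcB | rfl | rfl <;>
    rcases Ch.inX'_cases hd with hdB | rfl | rfl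
  · refine ⟨mono p A v w (es p d - es p c), section_mem p hp hN d c hdB.inX hcB.inX,
      mono_ne_zero hN _, ?_⟩
    rw [sup_comm]
    exact sup_eq p hp hN d c hdB.inX hcB.inX
  · refine ⟨mono p A v w (es p .Y0 - es p c), section_mem_Y' p hp h .Y0 c trivial hcB.inY,
      mono_ne_zero hN _, ?_⟩
    rw [← (sup_Y0 p hp h c hcB).1]
    apply le_antisymm
    · exact sup_le le_sup_left (P3_le_sup_Y0 p hp h c hcB)
    · exact sup_le_sup_left hY3 _
  · -- `R c ⊔ P4`
    have hg1 : mono p A v w (es p .Y0 - es p c) ∈ ring k p A v w c :=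
      section_mem_Y' p hp h .Y0 c trivial hcB.inY
    have hg0 := mono_ne_zero hN (es p .Y0 - es p c)
    have hsup := (sup_Y0 p hp h c hcB).1
    set g := mono p A v w (es p .Y0 - es p c) with hgdef
    have hy : yy p A v w ∈ ring k p A v w c ⊔ Algebra.adjoin k {g⁻¹} := by
      rw [← hsup]
      exact P3_le_sup_Y0 p hp h c hcB (Algebra.subset_adjoin (by simp))
    obtain ⟨N, hyN⟩ := exists_pow_mul_mem hg1 hg0 hy
    have hne : g * (g ^ N * yy p A v w) ≠ 0 := mul_ne_zero hg0 (mul_ne_zero (pow_ne_zero _ hg0) hy0)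
    refine ⟨g * (g ^ N * yy p A v w), mul_mem hg1 hyN, hne, ?_⟩
    have hP4 : ring k p A v w .P4 = Y0 k p A v w ⊔ Algebra.adjoin k {(yy p A v w)⁻¹} :=
      P4_eq_Y0 p hN
    apply le_antisymm
    · -- `g⁻¹` and `y⁻¹` lie in `R c [1/(g y₀)]`
      have hginv : g⁻¹ ∈ ring k p A v w c ⊔
          Algebra.adjoin k {(g * (g ^ N * yy p A v w))⁻¹} := by
        have h1 : g⁻¹ = (g ^ N * yy p A v w) * (g * (g ^ N * yy p A v w))⁻¹ := by
          field_simp
        rw [h1]
        refine mul_mem ((le_sup_left : ring k p A v w c ≤ _) hyN)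
          ((le_sup_right : Algebra.adjoin k {(g * (g ^ N * yy p A v w))⁻¹} ≤ _)
            (Algebra.subset_adjoin rfl))
      have hyinv : (yy p A v w)⁻¹ ∈ ring k p A v w c ⊔
          Algebra.adjoin k {(g * (g ^ N * yy p A v w))⁻¹} := by
        have h1 : (yy p A v w)⁻¹ = (g * g ^ N) * (g * (g ^ N * yy p A v w))⁻¹ := by
          field_simp
        rw [h1]
        refine mul_mem ((le_sup_left : ring k p A v w c ≤ _) (mul_mem hg1 (pow_mem hg1 N)))
          ((le_sup_right : Algebra.adjoin k {(g * (g ^ N * yy p A v w))⁻¹} ≤ _)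
            (Algebra.subset_adjoin rfl))
      refine sup_le le_sup_left ?_
      rw [hP4]
      refine sup_le ?_ ?_
      · refine le_trans (le_sup_right : Y0 k p A v w ≤ ring k p A v w c ⊔ Y0 k p A v w) ?_
        rw [hsup]
        refine sup_le le_sup_left ?_
        rw [Algebra.adjoin_le_iff, Set.singleton_subset_iff]
        exact hginv
      · rw [Algebra.adjoin_le_iff, Set.singleton_subset_iff]
        exact hyinv
    · refine sup_le le_sup_left ?_
      rw [Algebra.adjoin_le_iff, Set.singleton_subset_iff]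
      have h1 : (g * (g ^ N * yy p A v w))⁻¹ = g⁻¹ ^ (N + 1) * (yy p A v w)⁻¹ := by
        rw [mul_inv, mul_inv, ← inv_pow, pow_succ]
        ring
      have hginv : g⁻¹ ∈ ring k p A v w c ⊔ ring k p A v w .P4 := by
        have h2 : g⁻¹ ∈ ring k p A v w c ⊔ Y0 k p A v w := by
          rw [hsup]
          exact (le_sup_right : Algebra.adjoin k {g⁻¹} ≤ _) (Algebra.subset_adjoin rfl)
        exact sup_le_sup_left hY4 _ h2
      have hyinv : (yy p A v w)⁻¹ ∈ ring k p A v w c ⊔ ring k p A v w .P4 :=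
        (le_sup_right : ring k p A v w .P4 ≤ _) (Algebra.subset_adjoin (by simp))
      show (g * (g ^ N * yy p A v w))⁻¹ ∈ ring k p A v w c ⊔ ring k p A v w .P4
      rw [h1]
      exact mul_mem (pow_mem hginv _) hyinv
  · exact hg d hdB _ hY3
  · exact hone _
  · refine ⟨yy p A v w, Algebra.subset_adjoin (by simp), hy0, ?_⟩
    show P3 k p A v w ⊔ P4 k p A v w = P3 k p A v w ⊔ Algebra.adjoin k {(yy p A v w)⁻¹}
    rw [P4_eq_Y0 p hN, ← sup_assoc, sup_eq_left.2 hY3]
  · exact hg d hdB _ hY4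
  · refine ⟨(yy p A v w)⁻¹, Algebra.subset_adjoin (by simp), inv_ne_zero hy0, ?_⟩
    show P4 k p A v w ⊔ P3 k p A v w = P4 k p A v w ⊔ Algebra.adjoin k {((yy p A v w)⁻¹)⁻¹}
    rw [inv_inv, P3_eq_Y0 p hN, ← sup_assoc, sup_eq_left.2 hY4]
  · exact hone _

end H1F
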