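import Pool.Agent.Lib.H1F.MO.M14
import Pool.Agent.Lib.H1F.MO.M13
import Pool.Agent.Lib.H1F.FLIP.F1

/-!
# H1F, chunk M15

Normality and finite generation.
-/

open MvPolynomial

namespace H1F

variable {R₀ K : Type*} [CommRing R₀] [Field K] [Algebra R₀ K]

theorem ring_fg (p : ℕ) (A v w : K) (c : Ch) : (ring R₀ p A v w c).FG := by
  cases c with
  | NI f => exact Subalgebra.fg_def.2 ⟨_, Set.toFinite _, rfl⟩
  | NII f => exact Subalgebra.fg_def.2 ⟨_, Set.toFinite _, rfl⟩
  | M i => fin_cases i <;> exact Subalgebra.fg_def.2 ⟨_, Set.toFinite _, rfl⟩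
  | T6 => exact Subalgebra.fg_def.2 ⟨_, Set.toFinite _, rfl⟩
  | P1 => exact Subalgebra.fg_def.2 ⟨_, Set.toFinite _, rfl⟩
  | P2 => exact Subalgebra.fg_def.2 ⟨_, Set.toFinite _, rfl⟩
  | P3 => exact Subalgebra.fg_def.2 ⟨_, Set.toFinite _, rfl⟩
  | P4 => exact Subalgebra.fg_def.2 ⟨_, Set.toFinite _, rfl⟩
  | Y0 => exact Subalgebra.fg_def.2 ⟨_, Set.toFinite _, rfl⟩

variable {k : Type*} [Field k] [Algebra k K]

/-- Localizations of polynomial rings over fields are unique factorization domains. -/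
theorem FrR_normal {x : Fin 3 → K} (h : AlgebraicIndependent k x) (U : MvPolynomial (Fin 3) k)
    (hU : U ≠ 0) : UniqueFactorizationMonoid (FrR x U) := by
  let R : Subalgebra k K := Algebra.adjoin k (Set.range x)
  have hR : UniqueFactorizationMonoid R :=
    MulEquiv.uniqueFactorizationMonoid h.aevalEquiv.toMulEquiv inferInstance
  have hUR : aeval x U ∈ R := by
    change aeval x U ∈ Algebra.adjoin k (Set.range x)
    rw [Algebra.adjoin_range_eq_range_aeval]
    exact ⟨U, rfl⟩
  have hU0 : aeval x U ≠ 0 := fun h0 ↦ hU ((injective_iff_map_eq_zero _).1 h U h0)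
  have hF : FrR x U = R ⊔ Algebra.adjoin k {(aeval x U)⁻¹} := by
    change Algebra.adjoin k {x 0, x 1, x 2, (aeval x U)⁻¹} =
      Algebra.adjoin k (Set.range x) ⊔ Algebra.adjoin k {(aeval x U)⁻¹}
    rw [← Algebra.adjoin_union]
    congr 1
    ext y
    simp only [Set.mem_insert_iff, Set.mem_singleton_iff, Set.mem_union, Set.mem_range,
      Fin.exists_fin_succ, Fin.succ_zero_eq_one, Fin.succ_one_eq_two, IsEmpty.exists_iff, or_false]
    tauto
  have hle : R ≤ FrR x U := by rw [hF]; exact le_sup_left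
  let _ : Algebra R (FrR x U) := (Subalgebra.inclusion hle).toRingHom.toAlgebra
  have hloc := FLIP.isLocalization_away R (FrR x U) hUR hU0 hle hF
  exact UniqueFactorizationMonoid.of_isLocalization
    (Submonoid.powers (⟨aeval x U, hUR⟩ : R)) (FrR x U)

/-- An intersection of integrally closed subrings of `K` with fraction field `K` is integrally
closed. -/
theorem inf_normal {R S : Subalgebra k K} [IsFractionRing R K] [IsFractionRing S K]
    [IsFractionRing ↥(R ⊓ S) K] [IsIntegrallyClosed R] [IsIntegrallyClosed S] :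
    IsIntegrallyClosed ↥(R ⊓ S) := by
  have up : ∀ (T T' : Subalgebra k K) (_ : T ≤ T') (x : K), IsIntegral T x → IsIntegral T' x := by
    intro T T' hT x hx
    obtain ⟨q, hq, hqx⟩ := hx
    refine ⟨q.map (Subalgebra.inclusion hT).toRingHom, hq.map _, ?_⟩
    rw [Polynomial.eval₂_map]
    exact hqx
  rw [isIntegrallyClosed_iff K]
  intro x hx
  obtain ⟨y, hy⟩ := (isIntegrallyClosed_iff K).1 (inferInstance : IsIntegrallyClosed R)
    (up _ _ inf_le_left x hx)
  obtain ⟨z, hz⟩ := (isIntegrallyClosed_iff K).1 (inferInstance : IsIntegrallyClosed S)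
    (up _ _ inf_le_right x hx)
  have hxR : x ∈ R := by rw [← hy]; exact y.2
  have hxS : x ∈ S := by rw [← hz]; exact z.2
  exact ⟨⟨x, hxR, hxS⟩, rfl⟩

/-- Localization of a normal subring. -/
theorem M15_loc {R : Subalgebra k K} [IsIntegrallyClosed R] [IsFractionRing R K] {t : K}
    (ht : t ∈ R) (ht0 : t ≠ 0) :
    IsIntegrallyClosed ↥(R ⊔ Algebra.adjoin k {t⁻¹}) ∧
      IsFractionRing ↥(R ⊔ Algebra.adjoin k {t⁻¹}) K := by
  let R' : Subalgebra k K := R ⊔ Algebra.adjoin k {t⁻¹}
  have hle : R ≤ R' := le_sup_left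
  let _ : Algebra R R' := (Subalgebra.inclusion hle).toRingHom.toAlgebra
  have hloc : IsLocalization.Away (⟨t, ht⟩ : R) R' := FLIP.isLocalization_away R R' ht ht0 hle rfl
  have hst : IsScalarTower R R' K := IsScalarTower.of_algebraMap_eq fun _ ↦ rfl
  have hpow : Submonoid.powers (⟨t, ht⟩ : R) ≤ nonZeroDivisors R :=
    powers_le_nonZeroDivisors_of_noZeroDivisors (fun h0 ↦ ht0 (congrArg Subtype.val h0))
  refine ⟨isIntegrallyClosed_of_isLocalization R' (Submonoid.powers (⟨t, ht⟩ : R)) hpow, ?_⟩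
  exact IsFractionRing.isFractionRing_of_isDomain_of_isLocalization
    (Submonoid.powers (⟨t, ht⟩ : R)) R' K

theorem ring_normal (p : ℕ) [Fact p.Prime] [CharP k p] (hp : 5 ≤ p) {A v w : K}
    (h : AlgebraicIndependent k ![A, v, w])
    (hK : ∀ x : K, ∃ a b : MvPolynomial (Fin 3) k, aeval ![A, v, w] b ≠ 0 ∧
      x * aeval ![A, v, w] b = aeval ![A, v, w] a) (c : Ch) :
    IsIntegrallyClosed (ring k p A v w c) := by
  have hN := fn_ne_zero p hp h
  have hfr := fun c ↦ ring_frac (R₀ := k) p hN hK c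
  have hX : ∀ c : Ch, c.inX → IsIntegrallyClosed (ring k p A v w c) := by
    intro c hc
    have hY0 : c ≠ .Y0 := by rintro rfl; exact hc
    have hP4 : c ≠ .P4 := by rintro rfl; exact hc
    rw [ring_eq_FrR p hp hN c hc]
    have := FrR_normal (coo_ind p hp h c hY0 hP4) (cden k p c) (cden_ne_zero k p hp c)
    infer_instance
  have i1 : IsIntegrallyClosed (P1 k p A v w) := hX .P1 trivial
  have i2 : IsIntegrallyClosed (P2 k p A v w) := hX .P2 trivial
  have f1 : IsFractionRing (P1 k p A v w) K := hfr .P1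
  have f2 : IsFractionRing (P2 k p A v w) K := hfr .P2
  have hv : v - 1 ≠ 0 := hN 3
  have hw : w - 1 ≠ 0 := hN 4
  have hi := ind_P3 p h
  have hy : yy p A v w ≠ 0 := hi.ne_zero 2
  have : CharP K p := (Algebra.charP_iff k K p).1 inferInstance
  have y1 : (v - 1) ^ 2 * yy p A v w ∈ Y0 k p A v w := Algebra.subset_adjoin (by simp)
  have y2 : (w - 1) ^ 2 * yy p A v w ∈ Y0 k p A v w := Algebra.subset_adjoin (by simp)
  cases c with
  | NI f => exact hX _ trivial
  | NII f => exact hX _ trivial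
  | M f => exact hX _ trivial
  | T6 => exact hX _ trivial
  | P1 => exact i1
  | P2 => exact i2
  | P3 =>
    rw [P3_eq_FrR p hp hN]
    have := FrR_normal (coo_ind p hp h .P3 (by simp) (by simp)) (cden k p .P3)
      (cden_ne_zero k p hp .P3)
    infer_instance
  | Y0 =>
    change IsIntegrallyClosed (Y0 k p A v w)
    have f0 : IsFractionRing (Y0 k p A v w) K := hfr .Y0
    rw [Y0_eq_inf p h] at f0 ⊢
    exact inf_normal
  | P4 =>
    change IsIntegrallyClosed (P4 k p A v w)
    have f0 : IsFractionRing (P4 k p A v w) K := hfr .P4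
    have q1 : Y0 k p A v w ≤ P1 k p A v w := by
      rw [P1_eq_Y0 (R₀ := k) p hN]; exact le_sup_left
    have q2 : Y0 k p A v w ≤ P2 k p A v w := by
      rw [P2_eq_Y0 (R₀ := k) p hN]; exact le_sup_left
    obtain ⟨g1, g2⟩ := M15_loc (R := P1 k p A v w) (q1 y1) (mul_ne_zero (pow_ne_zero 2 hv) hy)
    obtain ⟨g3, g4⟩ := M15_loc (R := P2 k p A v w) (q2 y2) (mul_ne_zero (pow_ne_zero 2 hw) hy)
    rw [P4_eq_inf p h] at f0 ⊢
    exact inf_normal

end H1F
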