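import Pool.Agent.Lib.H1F.MO.M13

/-!
# H1F, chunk M16

Monomials in the ring generated by two charts.
-/

open MvPolynomial

namespace H1F

variable {R₀ K : Type*} [CommRing R₀] [Field K] [Algebra R₀ K]

/-- Two charts of `X`: `mono_mem_loc` and `sup_eq`. -/
theorem mono_mem_sup (p : ℕ) (hp : 5 ≤ p) {A v w : K} (hN : ∀ i, fn p A v w i ≠ 0) (c d : Ch)
    (hc : c.inX) (hd : d.inX) {e : Fin 9 → ℤ} (he : ∀ P ∈ pres c, P ∈ pres d → 0 ≤ vF p e P) :
    mono p A v w e ∈ ring R₀ p A v w c ⊔ ring R₀ p A v w d := by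
  rw [sup_eq p hp hN c d hc hd]
  exact mono_mem_loc p hp hN c d hc hd he

variable {k : Type*} [Field k] [Algebra k K] (p : ℕ) [Fact p.Prime] [CharP k p] {A v w : K}

/-- A chart of `B` and `Y0`: `mono_mem_loc_Y0` and `sup_Y0`. -/
theorem mono_mem_sup_Y0 (hp : 5 ≤ p) (h : AlgebraicIndependent k ![A, v, w]) (c : Ch)
    (hc : c.inB) {e : Fin 9 → ℤ} (he : ∀ P ∈ pres c, P ∈ pres .Y0 → 0 ≤ vF p e P) :
    mono p A v w e ∈ ring k p A v w c ⊔ Y0 k p A v w := by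
  rw [(sup_Y0 p hp h c hc).1]
  exact (mono_mem_loc_Y0 p hp h c hc he).1

/-- A chart of `B` and `P3`: as `Π` does not meet `c`, this is `mono_mem_sup_Y0`. -/
theorem mono_mem_sup_P3 (hp : 5 ≤ p) (h : AlgebraicIndependent k ![A, v, w]) (c : Ch)
    (hc : c.inB) {e : Fin 9 → ℤ} (he : ∀ P ∈ pres c, P ∈ pres .P3 → 0 ≤ vF p e P) :
    mono p A v w e ∈ ring k p A v w c ⊔ ring k p A v w .P3 := by
  have h1 : mono p A v w e ∈ ring k p A v w c ⊔ Y0 k p A v w := by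
    refine mono_mem_sup_Y0 p hp h c hc fun P hPc hP ↦ he P hPc ?_
    have h15 : P ≠ 15 := fun h0 ↦ (pres_B c hc).1 (h0 ▸ hPc)
    clear he hPc
    revert P
    decide
  have h2 : Y0 k p A v w ≤ ring k p A v w .P3 := by
    show Y0 k p A v w ≤ P3 k p A v w
    rw [P3_eq_Y0 p (fn_ne_zero p hp h)]
    exact le_sup_left
  exact sup_le_sup_left h2 _ h1

/-- `y` is a unit of `R c ⊔ P4` for a chart `c` of `B`. -/
theorem yy_mem_sup_P4 (hp : 5 ≤ p) (h : AlgebraicIndependent k ![A, v, w]) (c : Ch)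
    (hc : c.inB) : yy p A v w ∈ ring k p A v w c ⊔ ring k p A v w .P4 ∧
      (yy p A v w)⁻¹ ∈ ring k p A v w c ⊔ ring k p A v w .P4 := by
  have h2 : Y0 k p A v w ≤ ring k p A v w .P4 := by
    show Y0 k p A v w ≤ P4 k p A v w
    rw [P4_eq_Y0 p (fn_ne_zero p hp h)]
    exact le_sup_left
  refine ⟨sup_le_sup_left h2 _ (P3_le_sup_Y0 p hp h c hc ?_), ?_⟩
  · exact Algebra.subset_adjoin (by simp)
  · refine (le_sup_right : ring k p A v w .P4 ≤ _) ?_
    exact Algebra.subset_adjoin (by simp)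

end H1F
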