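import Pool.Agent.Lib.H1F.Rings

/-!
# H1F, part MO: monomials in the nine special functions (definitions)

The nine special functions are `A, v, w, v-1, w-1, v-w, A-1, A-v^p, A-w^p`.  The sixteen special
primes are numbered

`0, 1: B_x^0, B_x^∞`, `2, 3: B_y^0, B_y^∞`, `4, 5: B_z^0, B_z^∞`, `6, 7, 8: Δ_xy, Δ_xz, Δ_yz`,
`9, 10, 11: S_x, S_y, S_z`, `12, 13, 14: E_x, E_y, E_z`, `15: Π`.
-/

namespace H1F

section

variable {K : Type*} [Field K]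

/-- The nine special functions. -/
def fn (p : ℕ) (A v w : K) : Fin 9 → K :=
  ![A, v, w, v - 1, w - 1, v - w, A - 1, A - v ^ p, A - w ^ p]

/-- Monomials (with integral exponents) in the nine special functions. -/
def mono (p : ℕ) (A v w : K) (e : Fin 9 → ℤ) : K := ∏ i, fn p A v w i ^ e i

end

/-- The order of the monomial with exponents `e` along the special prime `P`. -/
def vF (p : ℕ) (e : Fin 9 → ℤ) : Fin 16 → ℤ :=
  ![p * e 0 + e 1 + e 2 + e 5 + p * e 7 + p * e 8,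
    -(p * e 0) - e 1 - e 2 - e 3 - e 4 - e 5 - p * e 6 - p * e 7 - p * e 8,
    -e 1 - e 3 - e 5 - p * e 7,
    e 1,
    -e 2 - e 4 - e 5 - p * e 8,
    e 2,
    e 3,
    e 4,
    e 5,
    e 6,
    e 7,
    e 8,
    e 5 + e 7 + e 8,
    e 4 + e 6 + e 8,
    e 3 + e 6 + e 7,
    e 3 + e 4 + e 5 + e 6 + e 7 + e 8]

/-- The special primes which meet the chart `c`. -/
def pres : Ch → Finset (Fin 16)
  | .NI f => ![{3, 4, 5, 9, 10, 11, 14}, {2, 3, 5, 9, 10, 11, 13}, {1, 4, 5, 9, 10, 11, 14},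
      {0, 1, 5, 9, 10, 11, 12}, {1, 2, 3, 9, 10, 11, 13}, {0, 1, 3, 9, 10, 11, 12}] f
  | .NII f => ![{3, 4, 5, 6, 10, 11, 14}, {2, 3, 5, 7, 10, 11, 13}, {1, 4, 5, 6, 9, 11, 14},
      {0, 1, 5, 8, 9, 11, 12}, {1, 2, 3, 7, 9, 10, 13}, {0, 1, 3, 8, 9, 10, 12}] f
  | .M i => ![{2, 3, 4, 5, 8, 9}, {0, 1, 4, 5, 7, 10}, {0, 1, 2, 3, 6, 11}] i
  | .T6 => {6, 7, 8}
  | .P1 => {9, 10, 11, 12, 13, 15}
  | .P2 => {9, 10, 11, 12, 14, 15}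
  | .P3 => {9, 10, 11, 12, 13, 14}
  | .P4 => {9, 10, 11, 12, 13, 14, 15}
  | .Y0 => {9, 10, 11, 12, 13, 14, 15}

/-- The charts of `B`. -/
def Ch.inB : Ch → Prop
  | .NI _ => True | .NII _ => True | .M _ => True | .T6 => True
  | _ => False

/-- `e` is effective on the chart `c`. -/
def Eff (p : ℕ) (c : Ch) (e : Fin 9 → ℤ) : Prop := ∀ P ∈ pres c, 0 ≤ vF p e P

/-- Exchange of `y` and `z`: exponents. -/
def tT (e : Fin 9 → ℤ) : Fin 9 → ℤ := ![e 0, e 2, e 1, e 4, e 3, e 5, e 6, e 8, e 7]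

/-- Exchange of `x` and `y`: exponents. -/
def tS (p : ℕ) (e : Fin 9 → ℤ) : Fin 9 → ℤ :=
  ![e 0, -(p * e 0) - e 1 - e 2 - e 3 - e 4 - e 5 - p * (e 6 + e 7 + e 8), e 2, e 3, e 5, e 4,
    e 7, e 6, e 8]

/-- Exchange of `y` and `z`: special primes. -/
def sT : Fin 16 → Fin 16 := ![0, 1, 4, 5, 2, 3, 7, 6, 8, 9, 11, 10, 12, 14, 13, 15]

/-- Exchange of `x` and `y`: special primes. -/
def sS : Fin 16 → Fin 16 := ![2, 3, 0, 1, 4, 5, 6, 8, 7, 10, 9, 11, 13, 12, 14, 15]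

/-- Exponents in the frame `f` to exponents in the frame `0`. -/
def tF (p : ℕ) (e : Fin 9 → ℤ) : Fin 6 → (Fin 9 → ℤ) :=
  ![e, tT e, tS p e, tS p (tT e), tT (tS p e), tT (tS p (tT e))]

/-- The exponents of the sections `s c`. -/
def es (p : ℕ) : Ch → Fin 9 → ℤ
  | .NI f => tF p ![1, -(3 * p), -(3 * p), 1, 3 * p, 3 * p, 0, 0, 0] f
  | .NII f => tF p ![1, -(3 * p), -(3 * p), 0, 3 * p, 3 * p, 1, 0, 0] f
  | .M i => tF p ![-4, -(3 * p), -(3 * p), 2 * p, 2 * p, 0, 0, 4, 4] (![0, 2, 4] i)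
  | .T6 => ![-3, -p, -p, 0, 0, 0, 2, 2, 2]
  | .P1 => ![0, 0, 0, 2, 1, 1, 0, 0, 0]
  | .P2 => ![0, 0, 0, 1, 2, 1, 0, 0, 0]
  | .P3 => ![0, 0, 0, 1, 1, 1, 0, 0, 0]
  | .P4 => 0
  | .Y0 => ![0, 0, 0, 1, 1, 1, 0, 0, 0]

/-- The divisor `H = 3p ∑ B - ∑ E - π Π` (`π = 4` for `X`, `3` for `Y`). -/
def hH (p : ℕ) (π : ℤ) : Fin 16 → ℤ :=
  ![3 * p, 3 * p, 3 * p, 3 * p, 3 * p, 3 * p, 0, 0, 0, 0, 0, 0, -1, -1, -1, -π]

/-- The polynomial `θ(b) = ((1+b)^p - 1 - p b)/b`. -/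
def th (p : ℕ) {S : Type*} [CommRing S] (b : S) : S :=
  ∑ j ∈ Finset.Icc 2 p, (p.choose j : S) * b ^ (j - 1)

/-- The polynomial `θ₁(b) = θ(b)/b`. -/
def th1 (p : ℕ) {S : Type*} [CommRing S] (b : S) : S :=
  ∑ j ∈ Finset.Icc 2 p, (p.choose j : S) * b ^ (j - 2)

end H1F
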