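import Pool.Agent.Lib.H1F.MO.M0

/-!
# H1F, chunk M1

Calculus of monomials.
-/

open MvPolynomial

namespace H1F

variable {R₀ K : Type*} [CommRing R₀] [Field K] [Algebra R₀ K]

theorem fn_eq_mono (p : ℕ) (A v w : K) (i : Fin 9) : fn p A v w i = mono p A v w (Pi.single i 1) := by
  unfold mono
  rw [Finset.prod_eq_single i]
  · rw [Pi.single_eq_same, zpow_one]
  · intro j _ hj
    rw [Pi.single_eq_of_ne hj, zpow_zero]
  · intro hi
    exact absurd (Finset.mem_univ i) hi

theorem mono_zero (p : ℕ) (A v w : K) : mono p A v w 0 = 1 := by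
  unfold mono
  exact Finset.prod_eq_one fun i _ => by rw [Pi.zero_apply, zpow_zero]

section

variable {p : ℕ} {A v w : K}

theorem mono_ne_zero (hN : ∀ i, fn p A v w i ≠ 0) (e : Fin 9 → ℤ) : mono p A v w e ≠ 0 := by
  unfold mono
  exact Finset.prod_ne_zero_iff.2 fun i _ => zpow_ne_zero _ (hN i)

theorem mono_add (hN : ∀ i, fn p A v w i ≠ 0) (e e' : Fin 9 → ℤ) :
    mono p A v w (e + e') = mono p A v w e * mono p A v w e' := by
  unfold mono
  rw [← Finset.prod_mul_distrib]
  exact Finset.prod_congr rfl fun i _ => by rw [Pi.add_apply, zpow_add₀ (hN i)]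

theorem mono_neg (e : Fin 9 → ℤ) : mono p A v w (-e) = (mono p A v w e)⁻¹ := by
  unfold mono
  rw [← Finset.prod_inv_distrib]
  exact Finset.prod_congr rfl fun i _ => by rw [Pi.neg_apply, zpow_neg]

theorem mono_sub (hN : ∀ i, fn p A v w i ≠ 0) (e e' : Fin 9 → ℤ) :
    mono p A v w (e - e') = mono p A v w e / mono p A v w e' := by
  rw [sub_eq_add_neg, mono_add hN, mono_neg, div_eq_mul_inv]

theorem mono_nsmul (N : ℕ) (e : Fin 9 → ℤ) :
    mono p A v w (N • e) = mono p A v w e ^ N := by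
  unfold mono
  rw [← Finset.prod_pow]
  exact Finset.prod_congr rfl fun i _ => by
    rw [Pi.smul_apply, nsmul_eq_mul, mul_comm, zpow_mul, zpow_natCast]

end

theorem vF_zero (p : ℕ) : vF p 0 = 0 := by
  funext P
  fin_cases P <;> simp [vF]

theorem vF_add (p : ℕ) (e e' : Fin 9 → ℤ) : vF p (e + e') = vF p e + vF p e' := by
  funext P
  fin_cases P <;> simp [vF] <;> ring

theorem vF_neg (p : ℕ) (e : Fin 9 → ℤ) : vF p (-e) = -vF p e := by
  have h := vF_add p e (-e)
  rw [add_neg_cancel, vF_zero] at h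
  exact (neg_eq_of_add_eq_zero_right h.symm).symm

theorem vF_sub (p : ℕ) (e e' : Fin 9 → ℤ) : vF p (e - e') = vF p e - vF p e' := by
  rw [sub_eq_add_neg, vF_add, vF_neg, sub_eq_add_neg]

theorem vF_nsmul (p N : ℕ) (e : Fin 9 → ℤ) : vF p (N • e) = N • vF p e := by
  induction N with
  | zero => rw [zero_smul, zero_smul, vF_zero]
  | succ n ih => rw [succ_nsmul, succ_nsmul, vF_add, ih]

theorem M1_zsmul (p : ℕ) (n : ℤ) (e : Fin 9 → ℤ) : vF p (n • e) = n • vF p e := by
  cases n with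
  | ofNat n => rw [Int.ofNat_eq_natCast, natCast_zsmul, natCast_zsmul, vF_nsmul]
  | negSucc n => rw [negSucc_zsmul, negSucc_zsmul, vF_neg, vF_nsmul]

theorem M1_vF_sum (p : ℕ) {ι : Type*} (s : Finset ι) (f : ι → Fin 9 → ℤ) :
    vF p (∑ i ∈ s, f i) = ∑ i ∈ s, vF p (f i) := by
  classical
  induction s using Finset.induction_on with
  | empty => rw [Finset.sum_empty, Finset.sum_empty, vF_zero]
  | insert a s ha ih => rw [Finset.sum_insert ha, Finset.sum_insert ha, vF_add, ih]

theorem M1_vF_expand (p : ℕ) (e : Fin 9 → ℤ) (P : Fin 16) :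
    vF p e P = ∑ i, e i * vF p (Pi.single i 1) P := by
  have h1 : e = ∑ i, e i • (Pi.single i (1 : ℤ) : Fin 9 → ℤ) := by
    funext j
    rw [Finset.sum_apply, Finset.sum_eq_single j]
    · simp
    · intro i _ hi
      rw [Pi.smul_apply, Pi.single_eq_of_ne (Ne.symm hi), smul_zero]
    · intro hj
      exact absurd (Finset.mem_univ j) hj
  conv_lhs => rw [h1]
  rw [M1_vF_sum, Finset.sum_apply]
  refine Finset.sum_congr rfl fun i _ => ?_
  rw [M1_zsmul, Pi.smul_apply, smul_eq_mul]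

theorem M1_zpow_mem {R : Subalgebra R₀ K} {x : K} (hx : x ∈ R) (hx' : x⁻¹ ∈ R) (n : ℤ) :
    x ^ n ∈ R := by
  cases n with
  | ofNat n => rw [Int.ofNat_eq_natCast, zpow_natCast]; exact pow_mem hx n
  | negSucc n =>
    rw [zpow_negSucc, ← inv_pow]
    exact pow_mem hx' _

/-- If every special function is a unit of `R` times a product of powers of elements `g P ∈ R`,
`P ∈ S`, with the exponents of the table, then `R` contains every monomial whose orders along the
`P ∈ S` are nonnegative: `mono e = (∏ u i ^ e i) * ∏ P ∈ S, g P ^ vF p e P`. -/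
theorem mono_mem_of {R : Subalgebra R₀ K} {p : ℕ} {A v w : K} (S : Finset (Fin 16))
    (g : Fin 16 → K) (u : Fin 9 → K) (hg : ∀ P ∈ S, g P ∈ R ∧ g P ≠ 0)
    (hu : ∀ i, u i ∈ R ∧ (u i)⁻¹ ∈ R ∧ u i ≠ 0)
    (h : ∀ i, fn p A v w i = u i * ∏ P ∈ S, g P ^ (vF p (Pi.single i 1) P)) {e : Fin 9 → ℤ}
    (he : ∀ P ∈ S, 0 ≤ vF p e P) : mono p A v w e ∈ R := by
  have key : mono p A v w e = (∏ i, u i ^ e i) * ∏ P ∈ S, g P ^ vF p e P := by
    unfold mono
    have h1 : ∀ i ∈ (Finset.univ : Finset (Fin 9)), fn p A v w i ^ e i =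
        u i ^ e i * ∏ P ∈ S, g P ^ (e i * vF p (Pi.single i 1) P) := by
      intro i _
      rw [h i, mul_zpow]
      congr 1
      rw [← Finset.prod_zpow]
      refine Finset.prod_congr rfl fun P _ => ?_
      rw [← zpow_mul, mul_comm]
    rw [Finset.prod_congr rfl h1, Finset.prod_mul_distrib]
    congr 1
    rw [Finset.prod_comm]
    refine Finset.prod_congr rfl fun P hP => ?_
    rw [M1_vF_expand p e P]
    have hgP := (hg P hP).2
    have h2 : ∀ (s : Finset (Fin 9)) (f : Fin 9 → ℤ), ∏ i ∈ s, g P ^ f i = g P ^ ∑ i ∈ s, f i := by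
      intro s f
      classical
      induction s using Finset.induction_on with
      | empty => simp
      | insert a s ha ih => rw [Finset.prod_insert ha, Finset.sum_insert ha, zpow_add₀ hgP, ih]
    exact h2 _ _
  rw [key]
  refine mul_mem (prod_mem fun i _ => M1_zpow_mem (hu i).1 (hu i).2.1 _) (prod_mem fun P hP => ?_)
  obtain ⟨n, hn⟩ := Int.eq_ofNat_of_zero_le (he P hP)
  rw [hn, zpow_natCast]
  exact pow_mem (hg P hP).1 n

end H1F
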