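import Pool.Agent.Lib.H1F.MO.M1

/-!
# H1F, chunk M2

Change of frames.
-/

open MvPolynomial

namespace H1F

variable {R₀ K : Type*} [CommRing R₀] [Field K] [Algebra R₀ K]

theorem M2_mono_eq (p : ℕ) (A v w : K) (e : Fin 9 → ℤ) :
    mono p A v w e = A ^ e 0 * v ^ e 1 * w ^ e 2 * (v - 1) ^ e 3 * (w - 1) ^ e 4 *
      (v - w) ^ e 5 * (A - 1) ^ e 6 * (A - v ^ p) ^ e 7 * (A - w ^ p) ^ e 8 := by
  unfold mono
  rw [Fin.prod_univ_castSucc, Fin.prod_univ_eight]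
  rfl

/-- Exchange of `y` and `z`. -/
theorem mono_tT (p : ℕ) (A v w : K) (e : Fin 9 → ℤ) :
    mono p A v w e = (-1) ^ (e 5) * mono p A w v (tT e) := by
  rw [M2_mono_eq, M2_mono_eq]
  have h5 : (v - w) ^ e 5 = (-1) ^ e 5 * (w - v) ^ e 5 := by
    rw [← mul_zpow]
    congr 1
    ring
  have t0 : tT e 0 = e 0 := rfl
  have t1 : tT e 1 = e 2 := rfl
  have t2 : tT e 2 = e 1 := rfl
  have t3 : tT e 3 = e 4 := rfl
  have t4 : tT e 4 = e 3 := rfl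
  have t5 : tT e 5 = e 5 := rfl
  have t6 : tT e 6 = e 6 := rfl
  have t7 : tT e 7 = e 8 := rfl
  have t8 : tT e 8 = e 7 := rfl
  rw [t0, t1, t2, t3, t4, t5, t6, t7, t8, h5]
  ring

/-- Exchange of `x` and `y`: `A = a / v' ^ p`, `v = 1 / v'`, `w = w' / v'` with
`a = A / v ^ p`, `v' = v⁻¹`, `w' = w / v`; `v - 1 = - (v' - 1) / v'`, `w - 1 = - (v' - w') / v'`,
`v - w = - (w' - 1) / v'`, `A - 1 = (a - v' ^ p) / v' ^ p`, `A - v ^ p = (a - 1) / v' ^ p`,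
`A - w ^ p = (a - w' ^ p) / v' ^ p`. -/
theorem mono_tS (p : ℕ) {A v w : K} (hN : ∀ i, fn p A v w i ≠ 0) (e : Fin 9 → ℤ) :
    mono p A v w e = (-1) ^ (e 3 + e 4 + e 5) * mono p (A / v ^ p) v⁻¹ (w / v) (tS p e) := by
  have hv : v ≠ 0 := hN 1
  have hvp : v ^ p ≠ 0 := pow_ne_zero p hv
  rw [M2_mono_eq, M2_mono_eq]
  have t0 : tS p e 0 = e 0 := rfl
  have t1 : tS p e 1 = -(p * e 0) - e 1 - e 2 - e 3 - e 4 - e 5 - p * (e 6 + e 7 + e 8) := rfl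
  have t2 : tS p e 2 = e 2 := rfl
  have t3 : tS p e 3 = e 3 := rfl
  have t4 : tS p e 4 = e 5 := rfl
  have t5 : tS p e 5 = e 4 := rfl
  have t6 : tS p e 6 = e 7 := rfl
  have t7 : tS p e 7 = e 6 := rfl
  have t8 : tS p e 8 = e 8 := rfl
  have f3 : v⁻¹ - 1 = (-1) * (v - 1) * v⁻¹ := by field_simp; ring
  have f4 : w / v - 1 = (-1) * (v - w) * v⁻¹ := by field_simp; ring
  have f5 : v⁻¹ - w / v = (-1) * (w - 1) * v⁻¹ := by field_simp; ring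
  have f6 : A / v ^ p - 1 = (A - v ^ p) * (v ^ p)⁻¹ := by field_simp
  have f7 : A / v ^ p - (v⁻¹) ^ p = (A - 1) * (v ^ p)⁻¹ := by
    rw [inv_pow]; field_simp
  have f8 : A / v ^ p - (w / v) ^ p = (A - w ^ p) * (v ^ p)⁻¹ := by
    rw [div_pow]; field_simp
  have g1 : (v⁻¹) ^ (-(p * e 0) - e 1 - e 2 - e 3 - e 4 - e 5 - p * (e 6 + e 7 + e 8) : ℤ) =
      (v ^ p) ^ e 0 * v ^ e 1 * v ^ e 2 * v ^ e 3 * v ^ e 4 * v ^ e 5 *
        ((v ^ p) ^ e 6 * (v ^ p) ^ e 7 * (v ^ p) ^ e 8) := by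
    have hpp : ∀ n : ℤ, (v ^ p) ^ n = v ^ ((p : ℤ) * n) := fun n => by
      rw [zpow_mul, zpow_natCast]
    rw [hpp, hpp, hpp, hpp, inv_zpow', ← zpow_add₀ hv, ← zpow_add₀ hv, ← zpow_add₀ hv,
      ← zpow_add₀ hv, ← zpow_add₀ hv, ← zpow_add₀ hv, ← zpow_add₀ hv, ← zpow_add₀ hv]
    congr 1
    ring
  have m1 : (-1 : K) ^ (e 3 + e 4 + e 5) = (-1) ^ e 3 * (-1) ^ e 4 * (-1) ^ e 5 := by
    rw [zpow_add₀ (by norm_num), zpow_add₀ (by norm_num)]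
  have sq : ∀ n : ℤ, ((-1 : K) ^ n) * ((-1 : K) ^ n) = 1 := by
    intro n
    rw [← mul_zpow]
    norm_num
  rw [t0, t1, t2, t3, t4, t5, t6, t7, t8, f3, f4, f5, f6, f7, f8, g1, m1]
  simp only [mul_zpow, div_zpow, inv_zpow]
  have n1 : v ^ e 1 ≠ 0 := zpow_ne_zero _ hv
  have n2 : v ^ e 2 ≠ 0 := zpow_ne_zero _ hv
  have n3 : v ^ e 3 ≠ 0 := zpow_ne_zero _ hv
  have n4 : v ^ e 4 ≠ 0 := zpow_ne_zero _ hv
  have n5 : v ^ e 5 ≠ 0 := zpow_ne_zero _ hv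
  have n0 : (v ^ p) ^ e 0 ≠ 0 := zpow_ne_zero _ hvp
  have n6 : (v ^ p) ^ e 6 ≠ 0 := zpow_ne_zero _ hvp
  have n7 : (v ^ p) ^ e 7 ≠ 0 := zpow_ne_zero _ hvp
  have n8 : (v ^ p) ^ e 8 ≠ 0 := zpow_ne_zero _ hvp
  have q3 := sq (e 3)
  have q4 := sq (e 4)
  have q5 := sq (e 5)
  generalize (-1 : K) ^ e 3 = s3 at *
  generalize (-1 : K) ^ e 4 = s4 at *
  generalize (-1 : K) ^ e 5 = s5 at *
  generalize v ^ e 1 = x1 at *
  generalize v ^ e 2 = x2 at *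
  generalize v ^ e 3 = x3 at *
  generalize v ^ e 4 = x4 at *
  generalize v ^ e 5 = x5 at *
  generalize (v ^ p) ^ e 0 = x0 at *
  generalize (v ^ p) ^ e 6 = x6 at *
  generalize (v ^ p) ^ e 7 = x7 at *
  generalize (v ^ p) ^ e 8 = x8 at *
  generalize A ^ e 0 = y0 at *
  generalize w ^ e 2 = y2 at *
  generalize (v - 1) ^ e 3 = y3 at *
  generalize (w - 1) ^ e 4 = y4 at *
  generalize (v - w) ^ e 5 = y5 at *
  generalize (A - 1) ^ e 6 = y6 at *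
  generalize (A - v ^ p) ^ e 7 = y7 at *
  generalize (A - w ^ p) ^ e 8 = y8 at *
  have key : s3 * s4 * s5 * (y0 / x0 * (x0 * x1 * x2 * x3 * x4 * x5 * (x6 * x7 * x8)) *
      (y2 / x2) * (s3 * y3 * x3⁻¹) * (s5 * y5 * x5⁻¹) * (s4 * y4 * x4⁻¹) * (y7 * x7⁻¹) *
      (y6 * x6⁻¹) * (y8 * x8⁻¹)) =
      (s3 * s3) * (s4 * s4) * (s5 * s5) * (x0 * x0⁻¹) * (x2 * x2⁻¹) * (x3 * x3⁻¹) * (x4 * x4⁻¹) *
        (x5 * x5⁻¹) * (x6 * x6⁻¹) * (x7 * x7⁻¹) * (x8 * x8⁻¹) *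
        (y0 * x1 * y2 * y3 * y4 * y5 * y6 * y7 * y8) := by
    ring
  rw [key, q3, q4, q5, mul_inv_cancel₀ n0, mul_inv_cancel₀ n2, mul_inv_cancel₀ n3,
    mul_inv_cancel₀ n4, mul_inv_cancel₀ n5, mul_inv_cancel₀ n6, mul_inv_cancel₀ n7,
    mul_inv_cancel₀ n8]
  ring

theorem tT_tT (e : Fin 9 → ℤ) : tT (tT e) = e := by
  funext i
  fin_cases i <;> rfl

theorem tS_tS (p : ℕ) (e : Fin 9 → ℤ) : tS p (tS p e) = e := by
  funext i
  fin_cases i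
  · rfl
  · show -(p * e 0) - (-(p * e 0) - e 1 - e 2 - e 3 - e 4 - e 5 - p * (e 6 + e 7 + e 8)) -
      e 2 - e 3 - e 5 - e 4 - p * (e 7 + e 6 + e 8) = e 1
    ring
  · rfl
  · rfl
  · rfl
  · rfl
  · rfl
  · rfl
  · rfl

theorem M2_sgn (n : ℤ) : (-1 : K) ^ n = 1 ∨ (-1 : K) ^ n = -1 := by
  rcases Int.even_or_odd n with h | h
  · left; exact h.neg_one_zpow
  · right; exact h.neg_one_zpow

theorem M2_T (p : ℕ) (A v w : K) (e : Fin 9 → ℤ) :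
    mono p A v w (tT e) = mono p A w v e ∨ mono p A v w (tT e) = -mono p A w v e := by
  have h := mono_tT p A v w (tT e)
  rw [tT_tT] at h
  rcases M2_sgn (K := K) (tT e 5) with h1 | h1
  · left; rw [h, h1, one_mul]
  · right; rw [h, h1, neg_one_mul]

theorem M2_S (p : ℕ) {A v w : K} (hN : ∀ i, fn p A v w i ≠ 0) (e : Fin 9 → ℤ) :
    mono p A v w (tS p e) = mono p (A / v ^ p) v⁻¹ (w / v) e ∨
      mono p A v w (tS p e) = -mono p (A / v ^ p) v⁻¹ (w / v) e := by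
  have h := mono_tS p hN (tS p e)
  rw [tS_tS] at h
  rcases M2_sgn (K := K) (tS p e 3 + tS p e 4 + tS p e 5) with h1 | h1
  · left; rw [h, h1, one_mul]
  · right; rw [h, h1, neg_one_mul]

theorem M2_fnT (p : ℕ) {A v w : K} (hN : ∀ i, fn p A v w i ≠ 0) (i : Fin 9) :
    fn p A w v i ≠ 0 := by
  intro h0
  rw [fn_eq_mono] at h0
  apply mono_ne_zero hN (tT (Pi.single i 1))
  rcases M2_T p A v w (Pi.single i 1) with h | h
  · rw [h, h0]
  · rw [h, h0, neg_zero]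

theorem M2_fnS (p : ℕ) {A v w : K} (hN : ∀ i, fn p A v w i ≠ 0) (i : Fin 9) :
    fn p (A / v ^ p) v⁻¹ (w / v) i ≠ 0 := by
  intro h0
  rw [fn_eq_mono] at h0
  apply mono_ne_zero hN (tS p (Pi.single i 1))
  rcases M2_S p hN (Pi.single i 1) with h | h
  · rw [h, h0]
  · rw [h, h0, neg_zero]

/-- The functions of the other frames are also nonzero. -/
theorem fn_frame (p : ℕ) {A v w : K} (hN : ∀ i, fn p A v w i ≠ 0) (f : Fin 6) :
    ∀ i, fn p (fa p A v w f) (fv v w f) (fw v w f) i ≠ 0 := by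
  fin_cases f
  · exact hN
  · exact M2_fnT p hN
  · exact M2_fnS p hN
  · exact M2_fnT p (M2_fnS p hN)
  · exact M2_fnS p (M2_fnT p hN)
  · exact M2_fnT p (M2_fnS p (M2_fnT p hN))

theorem tF_surj (p : ℕ) (f : Fin 6) (e : Fin 9 → ℤ) : ∃ e', tF p e' f = e := by
  fin_cases f
  · exact ⟨e, rfl⟩
  · exact ⟨tT e, tT_tT e⟩
  · exact ⟨tS p e, tS_tS p e⟩
  · refine ⟨tT (tS p e), ?_⟩
    show tS p (tT (tT (tS p e))) = e
    rw [tT_tT, tS_tS]
  · refine ⟨tS p (tT e), ?_⟩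
    show tT (tS p (tS p (tT e))) = e
    rw [tS_tS, tT_tT]
  · refine ⟨tT (tS p (tT e)), ?_⟩
    show tT (tS p (tT (tT (tS p (tT e))))) = e
    rw [tT_tT, tS_tS, tT_tT]

theorem M2_or {x y z : K} (h : x = y ∨ x = -y) (h' : y = z ∨ y = -z) : x = z ∨ x = -z := by
  rcases h with h | h <;> rcases h' with h' | h'
  · left; rw [h, h']
  · right; rw [h, h']
  · right; rw [h, h']
  · left; rw [h, h', neg_neg]

/-- Monomials in the frame `f`. -/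
theorem mono_frame (p : ℕ) {A v w : K} (hN : ∀ i, fn p A v w i ≠ 0) (f : Fin 6)
    (e : Fin 9 → ℤ) :
    mono p A v w (tF p e f) = mono p (fa p A v w f) (fv v w f) (fw v w f) e ∨
    mono p A v w (tF p e f) = -mono p (fa p A v w f) (fv v w f) (fw v w f) e := by
  fin_cases f
  · left; rfl
  · exact M2_T p A v w e
  · exact M2_S p hN e
  · exact M2_or (M2_S p hN (tT e)) (M2_T p _ _ _ e)
  · exact M2_or (M2_T p _ _ _ (tS p e)) (M2_S p (M2_fnT p hN) e)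
  · exact M2_or (M2_T p _ _ _ (tS p (tT e))) (M2_or (M2_S p (M2_fnT p hN) (tT e))
      (M2_T p _ _ _ e))

theorem vF_tT (p : ℕ) (e : Fin 9 → ℤ) (P : Fin 16) : vF p (tT e) (sT P) = vF p e P := by
  fin_cases P <;> simp [vF, tT, sT] <;> ring

theorem vF_tS (p : ℕ) (e : Fin 9 → ℤ) (P : Fin 16) : vF p (tS p e) (sS P) = vF p e P := by
  fin_cases P <;> simp [vF, tS, sS] <;> ring

theorem M2_effT (p : ℕ) {c c' : Ch} (h : pres c' = (pres c).image sT) (e : Fin 9 → ℤ) :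
    Eff p c' (tT e) ↔ Eff p c e := by
  unfold Eff
  rw [h]
  constructor
  · intro h1 P hP
    rw [← vF_tT]
    exact h1 _ (Finset.mem_image_of_mem _ hP)
  · intro h1 Q hQ
    obtain ⟨P, hP, rfl⟩ := Finset.mem_image.1 hQ
    rw [vF_tT]
    exact h1 P hP

theorem M2_effS (p : ℕ) {c c' : Ch} (h : pres c' = (pres c).image sS) (e : Fin 9 → ℤ) :
    Eff p c' (tS p e) ↔ Eff p c e := by
  unfold Eff
  rw [h]
  constructor
  · intro h1 P hP
    rw [← vF_tS]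
    exact h1 _ (Finset.mem_image_of_mem _ hP)
  · intro h1 Q hQ
    obtain ⟨P, hP, rfl⟩ := Finset.mem_image.1 hQ
    rw [vF_tS]
    exact h1 P hP

/-- Effectivity in the frame `f`.  For example `f = 2`: `vF p (tS p e) (sS P) = vF p e P` and `sS`
maps `pres (NI 0)` onto `pres (NI 2)`. -/
theorem eff_NI (p : ℕ) (f : Fin 6) (e : Fin 9 → ℤ) :
    Eff p (.NI f) (tF p e f) ↔ Eff p (.NI 0) e := by
  have h1 := M2_effT p (c := .NI 0) (c' := .NI 1) (by decide)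
  have h2 := M2_effS p (c := .NI 0) (c' := .NI 2) (by decide)
  have h3 := M2_effS p (c := .NI 1) (c' := .NI 3) (by decide)
  have h4 := M2_effT p (c := .NI 2) (c' := .NI 4) (by decide)
  have h5 := M2_effT p (c := .NI 3) (c' := .NI 5) (by decide)
  fin_cases f
  · exact Iff.rfl
  · exact h1 e
  · exact h2 e
  · exact (h3 (tT e)).trans (h1 e)
  · exact (h4 (tS p e)).trans (h2 e)
  · exact (h5 (tS p (tT e))).trans ((h3 (tT e)).trans (h1 e))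

theorem eff_NII (p : ℕ) (f : Fin 6) (e : Fin 9 → ℤ) :
    Eff p (.NII f) (tF p e f) ↔ Eff p (.NII 0) e := by
  have h1 := M2_effT p (c := .NII 0) (c' := .NII 1) (by decide)
  have h2 := M2_effS p (c := .NII 0) (c' := .NII 2) (by decide)
  have h3 := M2_effS p (c := .NII 1) (c' := .NII 3) (by decide)
  have h4 := M2_effT p (c := .NII 2) (c' := .NII 4) (by decide)
  have h5 := M2_effT p (c := .NII 3) (c' := .NII 5) (by decide)
  fin_cases f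
  · exact Iff.rfl
  · exact h1 e
  · exact h2 e
  · exact (h3 (tT e)).trans (h1 e)
  · exact (h4 (tS p e)).trans (h2 e)
  · exact (h5 (tS p (tT e))).trans ((h3 (tT e)).trans (h1 e))

theorem eff_M (p : ℕ) (i : Fin 3) (e : Fin 9 → ℤ) :
    Eff p (.M i) (tF p e (![0, 2, 4] i)) ↔ Eff p (.M 0) e := by
  have h1 := M2_effS p (c := .M 0) (c' := .M 1) (by decide)
  have h2 := M2_effT p (c := .M 1) (c' := .M 2) (by decide)
  fin_cases i
  · exact Iff.rfl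
  · exact h1 e
  · exact (h2 (tS p e)).trans (h1 e)

end H1F
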