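import Pool.Agent.Lib.H1F.MO.M1

/-!
# H1F, chunk M3

Monomials in the charts `NI`, `NII`, `M`, `T6` (frame `0`).
-/

open MvPolynomial

namespace H1F

variable {R₀ K : Type*} [CommRing R₀] [Field K] [Algebra R₀ K]

theorem M3_prod7 (f : Fin 16 → K) (a b c d e g h : Fin 16)
    (h1 : a ∉ ({b, c, d, e, g, h} : Finset (Fin 16))) (h2 : b ∉ ({c, d, e, g, h} : Finset (Fin 16)))
    (h3 : c ∉ ({d, e, g, h} : Finset (Fin 16))) (h4 : d ∉ ({e, g, h} : Finset (Fin 16)))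
    (h5 : e ∉ ({g, h} : Finset (Fin 16))) (h6 : g ∉ ({h} : Finset (Fin 16))) :
    ∏ P ∈ ({a, b, c, d, e, g, h} : Finset (Fin 16)), f P =
      f a * (f b * (f c * (f d * (f e * (f g * f h))))) := by
  rw [Finset.prod_insert h1, Finset.prod_insert h2, Finset.prod_insert h3, Finset.prod_insert h4,
    Finset.prod_insert h5, Finset.prod_insert h6, Finset.prod_singleton]

theorem M3_prod6 (f : Fin 16 → K) (b c d e g h : Fin 16)
    (h2 : b ∉ ({c, d, e, g, h} : Finset (Fin 16)))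
    (h3 : c ∉ ({d, e, g, h} : Finset (Fin 16))) (h4 : d ∉ ({e, g, h} : Finset (Fin 16)))
    (h5 : e ∉ ({g, h} : Finset (Fin 16))) (h6 : g ∉ ({h} : Finset (Fin 16))) :
    ∏ P ∈ ({b, c, d, e, g, h} : Finset (Fin 16)), f P =
      f b * (f c * (f d * (f e * (f g * f h)))) := by
  rw [Finset.prod_insert h2, Finset.prod_insert h3, Finset.prod_insert h4,
    Finset.prod_insert h5, Finset.prod_insert h6, Finset.prod_singleton]

theorem M3_prod3 (f : Fin 16 → K) (e g h : Fin 16)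
    (h5 : e ∉ ({g, h} : Finset (Fin 16))) (h6 : g ∉ ({h} : Finset (Fin 16))) :
    ∏ P ∈ ({e, g, h} : Finset (Fin 16)), f P = f e * (f g * f h) := by
  rw [Finset.prod_insert h5, Finset.prod_insert h6, Finset.prod_singleton]

theorem M3_ne {p : ℕ} {a v w : K} (hN : ∀ i, fn p a v w i ≠ 0) :
    a ≠ 0 ∧ v ≠ 0 ∧ w ≠ 0 ∧ v - 1 ≠ 0 ∧ w - 1 ≠ 0 ∧ v - w ≠ 0 ∧ a - 1 ≠ 0 ∧ a - v ^ p ≠ 0 ∧
      a - w ^ p ≠ 0 :=
  ⟨hN 0, hN 1, hN 2, hN 3, hN 4, hN 5, hN 6, hN 7, hN 8⟩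

/-- Use `mono_mem_of` with `g 14 = v - 1`, `g 9 = (a-1)/(v-1)`, `g 3 = v`, `g 4 = (w-1)⁻¹`,
`g 5 = w / (w-1)`, `g 10 = (a - v^p)/(v-1)`, `g 11 = (a - w^p)/(w-1)^p`; the units are `a`, `1` and
`(w-1)/(w-v)` (for `v - w`, up to sign). -/
theorem NI_mono (p : ℕ) {a v w : K} (hN : ∀ i, fn p a v w i ≠ 0) {e : Fin 9 → ℤ}
    (he : Eff p (.NI 0) e) : mono p a v w e ∈ NI R₀ a v w := by
  obtain ⟨n0, n1, n2, n3, n4, n5, n6, n7, n8⟩ := M3_ne hN
  have n5' : w - v ≠ 0 := fun h => n5 (by linear_combination -h)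
  obtain ⟨R, hR⟩ : ∃ R : Subalgebra R₀ K, R = NI R₀ a v w := ⟨_, rfl⟩
  have m1 : v - 1 ∈ R := by rw [hR]; exact Algebra.subset_adjoin (by simp)
  have m2 : (a - 1) / (v - 1) ∈ R := by rw [hR]; exact Algebra.subset_adjoin (by simp)
  have m3 : (w - 1)⁻¹ ∈ R := by rw [hR]; exact Algebra.subset_adjoin (by simp)
  have m4 : a⁻¹ ∈ R := by rw [hR]; exact Algebra.subset_adjoin (by simp)
  have m5 : (w - 1) / (w - v) ∈ R := by rw [hR]; exact Algebra.subset_adjoin (by simp)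
  have mv : v ∈ R := by
    have := add_mem m1 (one_mem R)
    rwa [sub_add_cancel] at this
  have ma : a ∈ R := by
    have := add_mem (mul_mem m2 m1) (one_mem R)
    rwa [div_mul_cancel₀ _ n3, sub_add_cancel] at this
  have mw : w / (w - 1) ∈ R := by
    have h1 : w / (w - 1) = 1 + (w - 1)⁻¹ := by field_simp; ring
    rw [h1]
    exact add_mem (one_mem R) m3
  have m6 : (w - v) / (w - 1) ∈ R := by
    have h1 : (w - v) / (w - 1) = 1 - (v - 1) * (w - 1)⁻¹ := by field_simp; ring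
    rw [h1]
    exact sub_mem (one_mem R) (mul_mem m1 m3)
  have m7 : (a - v ^ p) / (v - 1) ∈ R := by
    have h1 : (a - v ^ p) / (v - 1) = (a - 1) / (v - 1) - ∑ i ∈ Finset.range p, v ^ i := by
      have h2 := geom_sum_mul v p
      rw [div_eq_iff n3, sub_mul, h2, div_mul_cancel₀ _ n3]
      ring
    rw [h1]
    exact sub_mem m2 (sum_mem fun i _ => pow_mem mv i)
  have m8 : (a - w ^ p) / (w - 1) ^ p ∈ R := by
    have h1 : (a - w ^ p) / (w - 1) ^ p = a * (w - 1)⁻¹ ^ p - (w / (w - 1)) ^ p := by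
      rw [inv_pow, div_pow, sub_div, div_eq_mul_inv]
    rw [h1]
    exact sub_mem (mul_mem ma (pow_mem m3 p)) (pow_mem mw p)
  rw [← hR]
  have hp1 : (w - 1) ^ p ≠ 0 := pow_ne_zero _ n4
  refine mono_mem_of (R := R) {3, 4, 5, 9, 10, 11, 14}
    ![1, 1, 1, v, (w - 1)⁻¹, w / (w - 1), 1, 1, 1, (a - 1) / (v - 1), (a - v ^ p) / (v - 1),
      (a - w ^ p) / (w - 1) ^ p, 1, 1, v - 1, 1]
    ![a, 1, 1, 1, 1, (v - w) / (w - 1), 1, 1, 1] ?_ ?_ ?_ he
  · intro P hP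
    simp only [Finset.mem_insert, Finset.mem_singleton] at hP
    rcases hP with rfl | rfl | rfl | rfl | rfl | rfl | rfl
    · exact ⟨mv, n1⟩
    · exact ⟨m3, inv_ne_zero n4⟩
    · exact ⟨mw, div_ne_zero n2 n4⟩
    · exact ⟨m2, div_ne_zero n6 n3⟩
    · exact ⟨m7, div_ne_zero n7 n3⟩
    · exact ⟨m8, div_ne_zero n8 hp1⟩
    · exact ⟨m1, n3⟩
  · intro i
    have hone : (1 : K) ∈ R ∧ (1 : K)⁻¹ ∈ R ∧ (1 : K) ≠ 0 :=
      ⟨one_mem R, by rw [inv_one]; exact one_mem R, one_ne_zero⟩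
    fin_cases i
    · exact ⟨ma, m4, n0⟩
    · exact hone
    · exact hone
    · exact hone
    · exact hone
    · refine ⟨?_, ?_, div_ne_zero n5 n4⟩
      · have h1 : (v - w) / (w - 1) = -((w - v) / (w - 1)) := by ring
        show (v - w) / (w - 1) ∈ R
        rw [h1]
        exact neg_mem m6
      · have h1 : ((v - w) / (w - 1))⁻¹ = -((w - 1) / (w - v)) := by
          rw [inv_div, ← neg_sub w v, div_neg]
        show ((v - w) / (w - 1))⁻¹ ∈ R
        rw [h1]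
        exact neg_mem m5
    · exact hone
    · exact hone
    · exact hone
  · intro i
    rw [M3_prod7 _ 3 4 5 9 10 11 14 (by decide) (by decide) (by decide) (by decide) (by decide)
      (by decide)]
    fin_cases i <;> simp [fn, vF] <;> field_simp

/-- `g 14 = a - 1`, `g 6 = (v-1)/(a-1)`, `g 3 = v`, `g 4 = (w-1)⁻¹`, `g 5 = w/(w-1)`,
`g 10 = (a - v^p)/(a-1)`, `g 11 = (a-w^p)/(w-1)^p`. -/
theorem NII_mono (p : ℕ) {a v w : K} (hN : ∀ i, fn p a v w i ≠ 0) {e : Fin 9 → ℤ}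
    (he : Eff p (.NII 0) e) : mono p a v w e ∈ NII R₀ a v w := by
  obtain ⟨n0, n1, n2, n3, n4, n5, n6, n7, n8⟩ := M3_ne hN
  have n5' : w - v ≠ 0 := fun h => n5 (by linear_combination -h)
  obtain ⟨R, hR⟩ : ∃ R : Subalgebra R₀ K, R = NII R₀ a v w := ⟨_, rfl⟩
  have m1 : a - 1 ∈ R := by rw [hR]; exact Algebra.subset_adjoin (by simp)
  have m2 : (v - 1) / (a - 1) ∈ R := by rw [hR]; exact Algebra.subset_adjoin (by simp)
  have m3 : (w - 1)⁻¹ ∈ R := by rw [hR]; exact Algebra.subset_adjoin (by simp)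
  have m4 : a⁻¹ ∈ R := by rw [hR]; exact Algebra.subset_adjoin (by simp)
  have m5 : (w - 1) / (w - v) ∈ R := by rw [hR]; exact Algebra.subset_adjoin (by simp)
  have ma : a ∈ R := by
    have := add_mem m1 (one_mem R)
    rwa [sub_add_cancel] at this
  have mv1 : v - 1 ∈ R := by
    have := mul_mem m2 m1
    rwa [div_mul_cancel₀ _ n6] at this
  have mv : v ∈ R := by
    have := add_mem mv1 (one_mem R)
    rwa [sub_add_cancel] at this
  have mw : w / (w - 1) ∈ R := by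
    have h1 : w / (w - 1) = 1 + (w - 1)⁻¹ := by field_simp; ring
    rw [h1]
    exact add_mem (one_mem R) m3
  have m6 : (w - v) / (w - 1) ∈ R := by
    have h1 : (w - v) / (w - 1) = 1 - (v - 1) * (w - 1)⁻¹ := by field_simp; ring
    rw [h1]
    exact sub_mem (one_mem R) (mul_mem mv1 m3)
  have m7 : (a - v ^ p) / (a - 1) ∈ R := by
    have h1 : (a - v ^ p) / (a - 1) = 1 - (v - 1) / (a - 1) * ∑ i ∈ Finset.range p, v ^ i := by
      have h2 := geom_sum_mul v p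
      have h3 : (v - 1) / (a - 1) * (∑ i ∈ Finset.range p, v ^ i) = (v ^ p - 1) / (a - 1) := by
        rw [← h2]
        ring
      rw [h3]
      field_simp
      ring
    rw [h1]
    exact sub_mem (one_mem R) (mul_mem m2 (sum_mem fun i _ => pow_mem mv i))
  have m8 : (a - w ^ p) / (w - 1) ^ p ∈ R := by
    have h1 : (a - w ^ p) / (w - 1) ^ p = a * (w - 1)⁻¹ ^ p - (w / (w - 1)) ^ p := by
      rw [inv_pow, div_pow, sub_div, div_eq_mul_inv]
    rw [h1]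
    exact sub_mem (mul_mem ma (pow_mem m3 p)) (pow_mem mw p)
  rw [← hR]
  have hp1 : (w - 1) ^ p ≠ 0 := pow_ne_zero _ n4
  refine mono_mem_of (R := R) {3, 4, 5, 6, 10, 11, 14}
    ![1, 1, 1, v, (w - 1)⁻¹, w / (w - 1), (v - 1) / (a - 1), 1, 1, 1, (a - v ^ p) / (a - 1),
      (a - w ^ p) / (w - 1) ^ p, 1, 1, a - 1, 1]
    ![a, 1, 1, 1, 1, (v - w) / (w - 1), 1, 1, 1] ?_ ?_ ?_ he
  · intro P hP
    simp only [Finset.mem_insert, Finset.mem_singleton] at hP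
    rcases hP with rfl | rfl | rfl | rfl | rfl | rfl | rfl
    · exact ⟨mv, n1⟩
    · exact ⟨m3, inv_ne_zero n4⟩
    · exact ⟨mw, div_ne_zero n2 n4⟩
    · exact ⟨m2, div_ne_zero n3 n6⟩
    · exact ⟨m7, div_ne_zero n7 n6⟩
    · exact ⟨m8, div_ne_zero n8 hp1⟩
    · exact ⟨m1, n6⟩
  · intro i
    have hone : (1 : K) ∈ R ∧ (1 : K)⁻¹ ∈ R ∧ (1 : K) ≠ 0 :=
      ⟨one_mem R, by rw [inv_one]; exact one_mem R, one_ne_zero⟩
    fin_cases i
    · exact ⟨ma, m4, n0⟩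
    · exact hone
    · exact hone
    · exact hone
    · exact hone
    · refine ⟨?_, ?_, div_ne_zero n5 n4⟩
      · have h1 : (v - w) / (w - 1) = -((w - v) / (w - 1)) := by ring
        show (v - w) / (w - 1) ∈ R
        rw [h1]
        exact neg_mem m6
      · have h1 : ((v - w) / (w - 1))⁻¹ = -((w - 1) / (w - v)) := by
          rw [inv_div, ← neg_sub w v, div_neg]
        show ((v - w) / (w - 1))⁻¹ ∈ R
        rw [h1]
        exact neg_mem m5
    · exact hone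
    · exact hone
    · exact hone
  · intro i
    rw [M3_prod7 _ 3 4 5 6 10 11 14 (by decide) (by decide) (by decide) (by decide) (by decide)
      (by decide)]
    fin_cases i <;> simp [fn, vF] <;> field_simp

/-- `g 2 = (v-1)⁻¹`, `g 3 = v/(v-1)`, `g 4 = (w-1)⁻¹`, `g 5 = w/(w-1)`,
`g 8 = (v-w)/((v-1)(w-1))`, `g 9 = a - 1`. -/
theorem MM_mono (p : ℕ) {a v w : K} (hN : ∀ i, fn p a v w i ≠ 0) {e : Fin 9 → ℤ}
    (he : Eff p (.M 0) e) : mono p a v w e ∈ MM R₀ p a v w := by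
  obtain ⟨n0, n1, n2, n3, n4, n5, n6, n7, n8⟩ := M3_ne hN
  obtain ⟨R, hR⟩ : ∃ R : Subalgebra R₀ K, R = MM R₀ p a v w := ⟨_, rfl⟩
  have ma : a ∈ R := by rw [hR]; exact Algebra.subset_adjoin (by simp)
  have m4 : a⁻¹ ∈ R := by rw [hR]; exact Algebra.subset_adjoin (by simp)
  have m2 : (v - 1)⁻¹ ∈ R := by rw [hR]; exact Algebra.subset_adjoin (by simp)
  have m3 : (w - 1)⁻¹ ∈ R := by rw [hR]; exact Algebra.subset_adjoin (by simp)
  have m5 : (v - 1) ^ p / (a - v ^ p) ∈ R := by rw [hR]; exact Algebra.subset_adjoin (by simp)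
  have m6 : (w - 1) ^ p / (a - w ^ p) ∈ R := by rw [hR]; exact Algebra.subset_adjoin (by simp)
  have mv : v / (v - 1) ∈ R := by
    have h1 : v / (v - 1) = 1 + (v - 1)⁻¹ := by field_simp; ring
    rw [h1]
    exact add_mem (one_mem R) m2
  have mw : w / (w - 1) ∈ R := by
    have h1 : w / (w - 1) = 1 + (w - 1)⁻¹ := by field_simp; ring
    rw [h1]
    exact add_mem (one_mem R) m3
  have m7 : (a - v ^ p) / (v - 1) ^ p ∈ R := by
    have h1 : (a - v ^ p) / (v - 1) ^ p = a * (v - 1)⁻¹ ^ p - (v / (v - 1)) ^ p := by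
      rw [inv_pow, div_pow, sub_div, div_eq_mul_inv]
    rw [h1]
    exact sub_mem (mul_mem ma (pow_mem m2 p)) (pow_mem mv p)
  have m8 : (a - w ^ p) / (w - 1) ^ p ∈ R := by
    have h1 : (a - w ^ p) / (w - 1) ^ p = a * (w - 1)⁻¹ ^ p - (w / (w - 1)) ^ p := by
      rw [inv_pow, div_pow, sub_div, div_eq_mul_inv]
    rw [h1]
    exact sub_mem (mul_mem ma (pow_mem m3 p)) (pow_mem mw p)
  have m9 : (v - w) / ((v - 1) * (w - 1)) ∈ R := by
    have h1 : (v - w) / ((v - 1) * (w - 1)) = (w - 1)⁻¹ - (v - 1)⁻¹ := by field_simp; ring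
    rw [h1]
    exact sub_mem m3 m2
  rw [← hR]
  have hp1 : (w - 1) ^ p ≠ 0 := pow_ne_zero _ n4
  have hp2 : (v - 1) ^ p ≠ 0 := pow_ne_zero _ n3
  refine mono_mem_of (R := R) {2, 3, 4, 5, 8, 9}
    ![1, 1, (v - 1)⁻¹, v / (v - 1), (w - 1)⁻¹, w / (w - 1), 1, 1, (v - w) / ((v - 1) * (w - 1)),
      a - 1, 1, 1, 1, 1, 1, 1]
    ![a, 1, 1, 1, 1, 1, 1, (a - v ^ p) / (v - 1) ^ p, (a - w ^ p) / (w - 1) ^ p] ?_ ?_ ?_ he
  · intro P hP
    simp only [Finset.mem_insert, Finset.mem_singleton] at hP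
    rcases hP with rfl | rfl | rfl | rfl | rfl | rfl
    · exact ⟨m2, inv_ne_zero n3⟩
    · exact ⟨mv, div_ne_zero n1 n3⟩
    · exact ⟨m3, inv_ne_zero n4⟩
    · exact ⟨mw, div_ne_zero n2 n4⟩
    · exact ⟨m9, div_ne_zero n5 (mul_ne_zero n3 n4)⟩
    · exact ⟨sub_mem ma (one_mem R), n6⟩
  · intro i
    have hone : (1 : K) ∈ R ∧ (1 : K)⁻¹ ∈ R ∧ (1 : K) ≠ 0 :=
      ⟨one_mem R, by rw [inv_one]; exact one_mem R, one_ne_zero⟩
    fin_cases i
    · exact ⟨ma, m4, n0⟩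
    · exact hone
    · exact hone
    · exact hone
    · exact hone
    · exact hone
    · exact hone
    · refine ⟨m7, ?_, div_ne_zero n7 hp2⟩
      show ((a - v ^ p) / (v - 1) ^ p)⁻¹ ∈ R
      rw [inv_div]
      exact m5
    · refine ⟨m8, ?_, div_ne_zero n8 hp1⟩
      show ((a - w ^ p) / (w - 1) ^ p)⁻¹ ∈ R
      rw [inv_div]
      exact m6
  · intro i
    rw [M3_prod6 _ 2 3 4 5 8 9 (by decide) (by decide) (by decide) (by decide) (by decide)]
    fin_cases i <;> simp [fn, vF] <;> field_simp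

theorem T6_mono (p : ℕ) {A v w : K} (hN : ∀ i, fn p A v w i ≠ 0) {e : Fin 9 → ℤ}
    (he : Eff p .T6 e) : mono p A v w e ∈ T6 R₀ p A v w := by
  obtain ⟨n0, n1, n2, n3, n4, n5, n6, n7, n8⟩ := M3_ne hN
  obtain ⟨R, hR⟩ : ∃ R : Subalgebra R₀ K, R = T6 R₀ p A v w := ⟨_, rfl⟩
  have m0 : A ∈ R := by rw [hR]; exact Algebra.subset_adjoin (by simp)
  have m0' : A⁻¹ ∈ R := by rw [hR]; exact Algebra.subset_adjoin (by simp)
  have m1 : v ∈ R := by rw [hR]; exact Algebra.subset_adjoin (by simp)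
  have m1' : v⁻¹ ∈ R := by rw [hR]; exact Algebra.subset_adjoin (by simp)
  have m2 : w ∈ R := by rw [hR]; exact Algebra.subset_adjoin (by simp)
  have m2' : w⁻¹ ∈ R := by rw [hR]; exact Algebra.subset_adjoin (by simp)
  have m6 : (A - 1)⁻¹ ∈ R := by rw [hR]; exact Algebra.subset_adjoin (by simp)
  have m7 : (A - v ^ p)⁻¹ ∈ R := by rw [hR]; exact Algebra.subset_adjoin (by simp)
  have m8 : (A - w ^ p)⁻¹ ∈ R := by rw [hR]; exact Algebra.subset_adjoin (by simp)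
  rw [← hR]
  refine mono_mem_of (R := R) {6, 7, 8}
    ![1, 1, 1, 1, 1, 1, v - 1, w - 1, v - w, 1, 1, 1, 1, 1, 1, 1]
    ![A, v, w, 1, 1, 1, A - 1, A - v ^ p, A - w ^ p] ?_ ?_ ?_ he
  · intro P hP
    simp only [Finset.mem_insert, Finset.mem_singleton] at hP
    rcases hP with rfl | rfl | rfl
    · exact ⟨sub_mem m1 (one_mem R), n3⟩
    · exact ⟨sub_mem m2 (one_mem R), n4⟩
    · exact ⟨sub_mem m1 m2, n5⟩
  · intro i
    have hone : (1 : K) ∈ R ∧ (1 : K)⁻¹ ∈ R ∧ (1 : K) ≠ 0 :=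
      ⟨one_mem R, by rw [inv_one]; exact one_mem R, one_ne_zero⟩
    fin_cases i
    · exact ⟨m0, m0', n0⟩
    · exact ⟨m1, m1', n1⟩
    · exact ⟨m2, m2', n2⟩
    · exact hone
    · exact hone
    · exact hone
    · exact ⟨sub_mem m0 (one_mem R), m6, n6⟩
    · exact ⟨sub_mem m0 (pow_mem m1 p), m7, n7⟩
    · exact ⟨sub_mem m0 (pow_mem m2 p), m8, n8⟩
  · intro i
    rw [M3_prod3 _ 6 7 8 (by decide) (by decide)]
    fin_cases i <;> simp [fn, vF]

end H1F
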