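import Pool.Agent.Lib.H1F.MO.M1

/-!
# H1F, chunk M4

Monomials in the charts `P1`, `P2`.
-/

open MvPolynomial

namespace H1F

variable {R₀ K : Type*} [CommRing R₀] [Field K] [Algebra R₀ K]

theorem th_mul (p : ℕ) {S : Type*} [CommRing S] (b : S) : b * th p b = (1 + b) ^ p - 1 - p * b := by
  have h0 : b * th p b = ∑ j ∈ Finset.Icc 2 p, (p.choose j : S) * b ^ j := by
    unfold th
    rw [Finset.mul_sum]
    refine Finset.sum_congr rfl (fun j hj => ?_)
    rw [Finset.mem_Icc] at hj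
    have h1 : b ^ j = b ^ (j - 1) * b := by
      rw [← pow_succ, Nat.sub_add_cancel (by omega)]
    rw [h1]
    ring
  rw [h0]
  cases p with
  | zero => simp
  | succ q =>
    have h2 : Finset.Icc 2 (q + 1) = Finset.Ico 2 (q + 2) := by
      ext x
      simp only [Finset.mem_Icc, Finset.mem_Ico]
      omega
    have h3 : (1 + b) ^ (q + 1) = ∑ m ∈ Finset.range (q + 2), ((q + 1).choose m : S) * b ^ m := by
      rw [add_comm, add_pow]
      refine Finset.sum_congr rfl (fun m _ => ?_)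
      rw [one_pow]
      ring
    rw [h2, Finset.sum_Ico_eq_sum_range, h3, Finset.sum_range_succ', Finset.sum_range_succ']
    have h4 : q + 2 - 2 = q := by omega
    rw [h4]
    have h5 : ∀ i, 2 + i = i + 1 + 1 := fun i => by ring
    simp only [h5]
    simp only [zero_add, Nat.choose_zero_right, Nat.choose_one_right, pow_zero, pow_one,
      Nat.cast_one, mul_one]
    ring

theorem th1_mul (p : ℕ) {S : Type*} [CommRing S] (b : S) : b * th1 p b = th p b := by
  unfold th th1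
  rw [Finset.mul_sum]
  refine Finset.sum_congr rfl (fun j hj => ?_)
  rw [Finset.mem_Icc] at hj
  have h1 : b ^ (j - 1) = b ^ (j - 2) * b := by
    rw [← pow_succ]
    congr 1
    omega
  rw [h1]
  ring

theorem M4_th_mem {R : Subalgebra R₀ K} (p : ℕ) {x : K} (hx : x ∈ R) : th p x ∈ R := by
  unfold th
  exact sum_mem fun j _ => mul_mem (natCast_mem _ _) (pow_mem hx _)

theorem M4_th1_mem {R : Subalgebra R₀ K} (p : ℕ) {x : K} (hx : x ∈ R) : th1 p x ∈ R := by
  unfold th1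
  exact sum_mem fun j _ => mul_mem (natCast_mem _ _) (pow_mem hx _)

theorem M4_prod6 (f : Fin 16 → K) (b c d e g h : Fin 16)
    (h2 : b ∉ ({c, d, e, g, h} : Finset (Fin 16)))
    (h3 : c ∉ ({d, e, g, h} : Finset (Fin 16))) (h4 : d ∉ ({e, g, h} : Finset (Fin 16)))
    (h5 : e ∉ ({g, h} : Finset (Fin 16))) (h6 : g ∉ ({h} : Finset (Fin 16))) :
    ∏ P ∈ ({b, c, d, e, g, h} : Finset (Fin 16)), f P =
      f b * (f c * (f d * (f e * (f g * f h)))) := by
  rw [Finset.prod_insert h2, Finset.prod_insert h3, Finset.prod_insert h4,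
    Finset.prod_insert h5, Finset.prod_insert h6, Finset.prod_singleton]

/-- `x - y` divides `x ^ p - y ^ p` with an integral polynomial quotient. -/
theorem exists_quot (R : Subalgebra R₀ K) (p : ℕ) {x y : K} (hx : x ∈ R) (hy : y ∈ R) :
    ∃ q ∈ R, x ^ p - y ^ p = (x - y) * q := by
  refine ⟨∑ i ∈ Finset.range p, x ^ i * y ^ (p - 1 - i),
    sum_mem fun i _ => mul_mem (pow_mem hx _) (pow_mem hy _), ?_⟩
  rw [mul_comm, geom_sum₂_mul]

theorem M4_th_quot (R : Subalgebra R₀ K) (p : ℕ) {x y : K} (hx : x ∈ R) (hy : y ∈ R) :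
    ∃ q ∈ R, th p x - th p y = (x - y) * q := by
  have h : ∀ j : ℕ, ∃ q ∈ R, x ^ j - y ^ j = (x - y) * q := fun j => exists_quot R j hx hy
  choose q hq1 hq2 using h
  refine ⟨∑ j ∈ Finset.Icc 2 p, (p.choose j : K) * q (j - 1),
    sum_mem fun j _ => mul_mem (natCast_mem _ _) (hq1 _), ?_⟩
  unfold th
  rw [← Finset.sum_sub_distrib, Finset.mul_sum]
  refine Finset.sum_congr rfl (fun j _ => ?_)
  rw [← mul_sub, hq2]
  ring

/-- The coordinate `n`, three formulas. -/
theorem nn_eq (p : ℕ) {A v w : K} (hN : ∀ i, fn p A v w i ≠ 0) :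
    (v - 1) / (w - 1) * nn p A v w = (A - v ^ p) / (v - w) + th p (v - 1) ∧
    (v - w) / (w - 1) * nn p A v w = (A - 1) / (v - 1) - p - (w - 1) * th1 p (v - 1) ∧
    A = 1 + (w - 1) * th p (v - 1) +
      (v - 1) * (((v - 1) / (w - 1) - 1) * nn p A v w + p) := by
  have n3 : v - 1 ≠ 0 := hN 3
  have n4 : w - 1 ≠ 0 := hN 4
  have n5 : v - w ≠ 0 := hN 5
  have h1 := th_mul p (v - 1)
  have h2 := th1_mul p (v - 1)
  have h3 : 1 + (v - 1) = v := by ring
  rw [h3] at h1
  have e1 : (v - 1) / (w - 1) * nn p A v w = (A - v ^ p) / (v - w) + th p (v - 1) := by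
    have h4 : th p (v - 1) = (v ^ p - 1 - p * (v - 1)) / (v - 1) := by
      rw [eq_div_iff n3, mul_comm, h1]
    rw [h4]
    unfold nn
    field_simp
  have e2 : (v - w) / (w - 1) * nn p A v w = (A - 1) / (v - 1) - p - (w - 1) * th1 p (v - 1) := by
    have h5 : (v - w) / (w - 1) * nn p A v w =
        (v - w) / (v - 1) * ((v - 1) / (w - 1) * nn p A v w) := by
      field_simp
    rw [h5, e1, ← h2]
    have h6 : (v - 1) * ((v - 1) * th1 p (v - 1)) = v ^ p - 1 - p * (v - 1) := by rw [h2, h1]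
    field_simp
    linear_combination h6
  refine ⟨e1, e2, ?_⟩
  have h7 : (v - 1) / (w - 1) - 1 = (v - w) / (w - 1) := by
    field_simp
    ring
  rw [h7, e2, ← h2]
  field_simp
  ring

/-- With `s = (v-1)/(w-1)`, `r = w - 1`, `n`: `g 14 = s`, `g 12 = s - 1 = (v-w)/(w-1)`, `g 15 = r`,
`g 9 = (A-1)/(r s) = (s-1) n + p + r θ₁(s r)`, `g 10 = (A-v^p)/(r s (s-1)) = n - r θ₁(s r)`,
`g 11 = (A-w^p)/(r (s-1)) = s (n - r θ₁(s r)) + (v^p-w^p)/(v-w)`. -/
theorem P2_mono (p : ℕ) {A v w : K} (hN : ∀ i, fn p A v w i ≠ 0)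
    {e : Fin 9 → ℤ} (he : Eff p .P2 e) : mono p A v w e ∈ P2 R₀ p A v w := by
  obtain ⟨e1, e2, e3⟩ := nn_eq p hN
  have n0 : A ≠ 0 := hN 0
  have n1 : v ≠ 0 := hN 1
  have n2 : w ≠ 0 := hN 2
  have n3 : v - 1 ≠ 0 := hN 3
  have n4 : w - 1 ≠ 0 := hN 4
  have n5 : v - w ≠ 0 := hN 5
  have n6 : A - 1 ≠ 0 := hN 6
  have n7 : A - v ^ p ≠ 0 := hN 7
  have n8 : A - w ^ p ≠ 0 := hN 8
  obtain ⟨R, hR⟩ : ∃ R : Subalgebra R₀ K, R = P2 R₀ p A v w := ⟨_, rfl⟩
  have ms : (v - 1) / (w - 1) ∈ R := by rw [hR]; exact Algebra.subset_adjoin (by simp)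
  have mr : w - 1 ∈ R := by rw [hR]; exact Algebra.subset_adjoin (by simp)
  have mn : nn p A v w ∈ R := by rw [hR]; exact Algebra.subset_adjoin (by simp)
  have mA' : A⁻¹ ∈ R := by rw [hR]; exact Algebra.subset_adjoin (by simp)
  have mv' : v⁻¹ ∈ R := by rw [hR]; exact Algebra.subset_adjoin (by simp)
  have mw' : w⁻¹ ∈ R := by rw [hR]; exact Algebra.subset_adjoin (by simp)
  have mb : v - 1 ∈ R := by
    have := mul_mem ms mr
    rwa [div_mul_cancel₀ _ n4] at this
  have mv : v ∈ R := by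
    have := add_mem mb (one_mem R)
    rwa [sub_add_cancel] at this
  have mw : w ∈ R := by
    have := add_mem mr (one_mem R)
    rwa [sub_add_cancel] at this
  have mp : (p : K) ∈ R := natCast_mem R p
  have mA : A ∈ R := by
    rw [e3]
    exact add_mem (add_mem (one_mem R) (mul_mem mr (M4_th_mem p mb)))
      (mul_mem mb (add_mem (mul_mem (sub_mem ms (one_mem R)) mn) mp))
  have m12 : (v - w) / (w - 1) ∈ R := by
    have h1 : (v - w) / (w - 1) = (v - 1) / (w - 1) - 1 := by field_simp; ring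
    rw [h1]
    exact sub_mem ms (one_mem R)
  have m9 : (A - 1) / (v - 1) ∈ R := by
    have h1 : (A - 1) / (v - 1) = (v - w) / (w - 1) * nn p A v w + p + (w - 1) * th1 p (v - 1) := by
      rw [e2]
      ring
    rw [h1]
    exact add_mem (add_mem (mul_mem m12 mn) mp) (mul_mem mr (M4_th1_mem p mb))
  have h11 : (A - v ^ p) / (v - w) = (v - 1) / (w - 1) * nn p A v w - th p (v - 1) := by
    rw [e1]
    ring
  have m10 : (A - v ^ p) * (w - 1) / ((v - w) * (v - 1)) ∈ R := by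
    have h1 : (A - v ^ p) * (w - 1) / ((v - w) * (v - 1)) =
        nn p A v w - (w - 1) * th1 p (v - 1) := by
      have h2 : (A - v ^ p) * (w - 1) / ((v - w) * (v - 1)) =
          (A - v ^ p) / (v - w) * ((w - 1) / (v - 1)) := by
        field_simp
      rw [h2, h11, ← th1_mul p (v - 1)]
      field_simp
    rw [h1]
    exact sub_mem mn (mul_mem mr (M4_th1_mem p mb))
  obtain ⟨q, hq, hq2⟩ := exists_quot R p mv mw
  have m11 : (A - w ^ p) / (v - w) ∈ R := by
    have h1 : (A - w ^ p) / (v - w) = (A - v ^ p) / (v - w) + q := by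
      rw [div_add' _ _ _ n5]
      congr 1
      linear_combination hq2
    rw [h1, h11]
    exact add_mem (sub_mem (mul_mem ms mn) (M4_th_mem p mb)) hq
  rw [← hR]
  refine mono_mem_of (R := R) {9, 10, 11, 12, 14, 15}
    ![1, 1, 1, 1, 1, 1, 1, 1, 1, (A - 1) / (v - 1), (A - v ^ p) * (w - 1) / ((v - w) * (v - 1)),
      (A - w ^ p) / (v - w), (v - w) / (w - 1), 1, (v - 1) / (w - 1), w - 1]
    ![A, v, w, 1, 1, 1, 1, 1, 1] ?_ ?_ ?_ he
  · intro P hP
    simp only [Finset.mem_insert, Finset.mem_singleton] at hP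
    rcases hP with rfl | rfl | rfl | rfl | rfl | rfl
    · exact ⟨m9, div_ne_zero n6 n3⟩
    · exact ⟨m10, div_ne_zero (mul_ne_zero n7 n4) (mul_ne_zero n5 n3)⟩
    · exact ⟨m11, div_ne_zero n8 n5⟩
    · exact ⟨m12, div_ne_zero n5 n4⟩
    · exact ⟨ms, div_ne_zero n3 n4⟩
    · exact ⟨mr, n4⟩
  · intro i
    have hone : (1 : K) ∈ R ∧ (1 : K)⁻¹ ∈ R ∧ (1 : K) ≠ 0 :=
      ⟨one_mem R, by rw [inv_one]; exact one_mem R, one_ne_zero⟩
    fin_cases i
    · exact ⟨mA, mA', n0⟩
    · exact ⟨mv, mv', n1⟩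
    · exact ⟨mw, mw', n2⟩
    · exact hone
    · exact hone
    · exact hone
    · exact hone
    · exact hone
    · exact hone
  · intro i
    rw [M4_prod6 _ 9 10 11 12 14 15 (by decide) (by decide) (by decide) (by decide) (by decide)]
    fin_cases i <;> simp [fn, vF] <;> field_simp

/-- With `s' = (w-1)/(v-1)`, `r' = v - 1`, `n'`: `g 13 = s'`, `g 12 = 1 - s' = (v-w)/(v-1)`,
`g 15 = r'`, `g 9 = (A-1)/(r' s') = p + θ(r') - (1-s') n'`,
`g 10 = (A-v^p)/(r' (1-s')) = -(s' n' + p + θ(r'))`,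
`g 11 = (A-w^p)/(r' s' (1-s')) = -n' + (θ(r') - θ(s' r'))/(1-s')`, and
`θ(r') - θ(s' r')` is `r' - s' r' = r' (1-s')` times a polynomial. -/
theorem P1_mono (p : ℕ) {A v w : K} (hN : ∀ i, fn p A v w i ≠ 0)
    {e : Fin 9 → ℤ} (he : Eff p .P1 e) : mono p A v w e ∈ P1 R₀ p A v w := by
  obtain ⟨e1, e2, e3⟩ := nn_eq p hN
  have n0 : A ≠ 0 := hN 0
  have n1 : v ≠ 0 := hN 1
  have n2 : w ≠ 0 := hN 2
  have n3 : v - 1 ≠ 0 := hN 3
  have n4 : w - 1 ≠ 0 := hN 4
  have n5 : v - w ≠ 0 := hN 5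
  have n6 : A - 1 ≠ 0 := hN 6
  have n7 : A - v ^ p ≠ 0 := hN 7
  have n8 : A - w ^ p ≠ 0 := hN 8
  obtain ⟨R, hR⟩ : ∃ R : Subalgebra R₀ K, R = P1 R₀ p A v w := ⟨_, rfl⟩
  obtain ⟨n', hn'⟩ : ∃ n' : K, n' =
    -(((v - 1) / (w - 1)) ^ 2 * nn p A v w + p * ((v - 1) / (w - 1))) := ⟨_, rfl⟩
  have ms : (w - 1) / (v - 1) ∈ R := by rw [hR]; exact Algebra.subset_adjoin (by simp)
  have mr : v - 1 ∈ R := by rw [hR]; exact Algebra.subset_adjoin (by simp)
  have mn : n' ∈ R := by rw [hR, hn']; exact Algebra.subset_adjoin (by simp)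
  have mA' : A⁻¹ ∈ R := by rw [hR]; exact Algebra.subset_adjoin (by simp)
  have mv' : v⁻¹ ∈ R := by rw [hR]; exact Algebra.subset_adjoin (by simp)
  have mw' : w⁻¹ ∈ R := by rw [hR]; exact Algebra.subset_adjoin (by simp)
  have mb : w - 1 ∈ R := by
    have := mul_mem ms mr
    rwa [div_mul_cancel₀ _ n3] at this
  have mv : v ∈ R := by
    have := add_mem mr (one_mem R)
    rwa [sub_add_cancel] at this
  have mw : w ∈ R := by
    have := add_mem mb (one_mem R)
    rwa [sub_add_cancel] at this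
  have mp : (p : K) ∈ R := natCast_mem R p
  have m12 : (v - w) / (v - 1) ∈ R := by
    have h1 : (v - w) / (v - 1) = 1 - (w - 1) / (v - 1) := by field_simp; ring
    rw [h1]
    exact sub_mem (one_mem R) ms
  have hsn : (v - 1) / (w - 1) * nn p A v w = -((w - 1) / (v - 1) * n') - p := by
    rw [hn']
    field_simp
    ring
  have h10 : (A - v ^ p) / (v - w) = -((w - 1) / (v - 1) * n') - p - th p (v - 1) := by
    rw [← hsn, e1]
    ring
  have m10 : (A - v ^ p) / (v - w) ∈ R := by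
    rw [h10]
    exact sub_mem (sub_mem (neg_mem (mul_mem ms mn)) mp) (M4_th_mem p mr)
  have m9 : (A - 1) / (w - 1) ∈ R := by
    have h1 : (A - 1) / (w - 1) = th p (v - 1) - n' + (w - 1) / (v - 1) * n' + p := by
      have h2 : (A - 1) / (w - 1) = th p (v - 1) + (((v - 1) / (w - 1)) ^ 2 * nn p A v w +
          p * ((v - 1) / (w - 1))) - (v - 1) / (w - 1) * nn p A v w := by
        nth_rw 1 [e3]
        field_simp
        ring
      rw [h2, hsn]
      have h3 : ((v - 1) / (w - 1)) ^ 2 * nn p A v w + p * ((v - 1) / (w - 1)) = -n' := by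
        rw [hn']
        ring
      rw [h3]
      ring
    rw [h1]
    exact add_mem (add_mem (sub_mem (M4_th_mem p mr) mn) (mul_mem ms mn)) mp
  have mA : A ∈ R := by
    have := add_mem (mul_mem m9 mb) (one_mem R)
    rwa [div_mul_cancel₀ _ n4, sub_add_cancel] at this
  obtain ⟨q, hq, hq2⟩ := M4_th_quot R p mr mb
  have m11 : (A - w ^ p) * (v - 1) / ((v - w) * (w - 1)) ∈ R := by
    have h1 : (A - w ^ p) * (v - 1) / ((v - w) * (w - 1)) = -n' + (v - 1) * q := by
      have t1 := th_mul p (v - 1)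
      have t2 := th_mul p (w - 1)
      have h3 : 1 + (v - 1) = v := by ring
      have h4 : 1 + (w - 1) = w := by ring
      rw [h3] at t1
      rw [h4] at t2
      have h5 : (A - w ^ p) = (A - v ^ p) + (p * (v - w) + (v - 1) * th p (v - 1) -
          (w - 1) * th p (w - 1)) := by
        rw [t1, t2]
        ring
      have h6 : A - v ^ p = (-((w - 1) / (v - 1) * n') - p - th p (v - 1)) * (v - w) := by
        rw [← h10, div_mul_cancel₀ _ n5]
      have h7 : v - 1 - (w - 1) = v - w := by ring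
      rw [h7] at hq2
      rw [h5, h6, div_eq_iff (mul_ne_zero n5 n4)]
      have h8 : (w - 1) / (v - 1) * (v - 1) = w - 1 := div_mul_cancel₀ _ n3
      linear_combination (-n' * (v - w)) * h8 + (v - 1) * (w - 1) * hq2
    rw [h1]
    exact add_mem (neg_mem mn) (mul_mem mr hq)
  rw [← hR]
  refine mono_mem_of (R := R) {9, 10, 11, 12, 13, 15}
    ![1, 1, 1, 1, 1, 1, 1, 1, 1, (A - 1) / (w - 1), (A - v ^ p) / (v - w),
      (A - w ^ p) * (v - 1) / ((v - w) * (w - 1)), (v - w) / (v - 1), (w - 1) / (v - 1), 1, v - 1]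
    ![A, v, w, 1, 1, 1, 1, 1, 1] ?_ ?_ ?_ he
  · intro P hP
    simp only [Finset.mem_insert, Finset.mem_singleton] at hP
    rcases hP with rfl | rfl | rfl | rfl | rfl | rfl
    · exact ⟨m9, div_ne_zero n6 n4⟩
    · exact ⟨m10, div_ne_zero n7 n5⟩
    · exact ⟨m11, div_ne_zero (mul_ne_zero n8 n3) (mul_ne_zero n5 n4)⟩
    · exact ⟨m12, div_ne_zero n5 n3⟩
    · exact ⟨ms, div_ne_zero n4 n3⟩
    · exact ⟨mr, n3⟩
  · intro i
    have hone : (1 : K) ∈ R ∧ (1 : K)⁻¹ ∈ R ∧ (1 : K) ≠ 0 :=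
      ⟨one_mem R, by rw [inv_one]; exact one_mem R, one_ne_zero⟩
    fin_cases i
    · exact ⟨mA, mA', n0⟩
    · exact ⟨mv, mv', n1⟩
    · exact ⟨mw, mw', n2⟩
    · exact hone
    · exact hone
    · exact hone
    · exact hone
    · exact hone
    · exact hone
  · intro i
    rw [M4_prod6 _ 9 10 11 12 13 15 (by decide) (by decide) (by decide) (by decide) (by decide)]
    fin_cases i <;> simp [fn, vF] <;> field_simp

end H1F
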