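import Pool.Agent.Lib.H1F.MO.M2
import Pool.Agent.Lib.H1F.MO.M3
import Pool.Agent.Lib.H1F.MO.M4

/-!
# H1F, chunk M5

Monomials in all charts of `X`; generators.
-/

open MvPolynomial

namespace H1F

variable {R₀ K : Type*} [CommRing R₀] [Field K] [Algebra R₀ K]

theorem M5_pm {E : Subalgebra R₀ K} {x y : K} (h : x = y ∨ x = -y) : x ∈ E ↔ y ∈ E := by
  rcases h with h | h
  · rw [h]
  · rw [h, neg_mem_iff]

/-- Every effective monomial lies in the ring of the chart. -/
theorem mono_mem (p : ℕ) {A v w : K} (hN : ∀ i, fn p A v w i ≠ 0) (c : Ch) (hc : c.inX)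
    {e : Fin 9 → ℤ} (he : Eff p c e) : mono p A v w e ∈ ring R₀ p A v w c := by
  cases c with
  | NI f =>
    obtain ⟨e', rfl⟩ := tF_surj p f e
    rw [M5_pm (mono_frame p hN f e')]
    exact NI_mono p (fn_frame p hN f) ((eff_NI p f e').1 he)
  | NII f =>
    obtain ⟨e', rfl⟩ := tF_surj p f e
    rw [M5_pm (mono_frame p hN f e')]
    exact NII_mono p (fn_frame p hN f) ((eff_NII p f e').1 he)
  | M i =>
    obtain ⟨e', rfl⟩ := tF_surj p (![0, 2, 4] i) e
    rw [M5_pm (mono_frame p hN _ e')]
    have h1 := (eff_M p i e').1 he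
    fin_cases i
    · exact MM_mono p (fn_frame p hN 0) h1
    · exact MM_mono p (fn_frame p hN 2) h1
    · exact MM_mono p (fn_frame p hN 4) h1
  | T6 => exact T6_mono p hN he
  | P1 => exact P1_mono p hN he
  | P2 => exact P2_mono p hN he
  | P3 => exact absurd hc id
  | P4 => exact absurd hc id
  | Y0 => exact absurd hc id

theorem M5_NI (p : ℕ) {a v w : K} (E : Subalgebra R₀ K)
    (h : ∀ e, Eff p (.NI 0) e → mono p a v w e ∈ E) : NI R₀ a v w ≤ E := by
  refine Algebra.adjoin_le ?_
  rintro r (hr | hr | hr | hr | hr)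
  · have e1 : r = mono p a v w ![0, 0, 0, 1, 0, 0, 0, 0, 0] := by
      rw [hr, M2_mono_eq]; simp
    rw [e1]
    refine h _ fun P hP => ?_
    fin_cases P <;> first | exact absurd hP (by decide) | simp [vF]
  · have e1 : r = mono p a v w ![0, 0, 0, -1, 0, 0, 1, 0, 0] := by
      rw [hr, M2_mono_eq]; simp [div_eq_mul_inv, mul_comm]
    rw [e1]
    refine h _ fun P hP => ?_
    fin_cases P <;> first | exact absurd hP (by decide) | simp [vF]
  · have e1 : r = mono p a v w ![0, 0, 0, 0, -1, 0, 0, 0, 0] := by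
      rw [hr, M2_mono_eq]; simp
    rw [e1]
    refine h _ fun P hP => ?_
    fin_cases P <;> first | exact absurd hP (by decide) | simp [vF]
  · have e1 : r = mono p a v w ![-1, 0, 0, 0, 0, 0, 0, 0, 0] := by
      rw [hr, M2_mono_eq]; simp
    rw [e1]
    refine h _ fun P hP => ?_
    fin_cases P <;> first | exact absurd hP (by decide) | simp [vF]
  · have e1 : r = -mono p a v w ![0, 0, 0, 0, 1, -1, 0, 0, 0] := by
      rw [hr, M2_mono_eq, div_eq_mul_inv, ← neg_sub v w, inv_neg]; simp
    rw [e1]
    refine neg_mem (h _ fun P hP => ?_)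
    fin_cases P <;> first | exact absurd hP (by decide) | simp [vF]

theorem M5_NII (p : ℕ) {a v w : K} (E : Subalgebra R₀ K)
    (h : ∀ e, Eff p (.NII 0) e → mono p a v w e ∈ E) : NII R₀ a v w ≤ E := by
  refine Algebra.adjoin_le ?_
  rintro r (hr | hr | hr | hr | hr)
  · have e1 : r = mono p a v w ![0, 0, 0, 0, 0, 0, 1, 0, 0] := by
      rw [hr, M2_mono_eq]; simp
    rw [e1]
    refine h _ fun P hP => ?_
    fin_cases P <;> first | exact absurd hP (by decide) | simp [vF]
  · have e1 : r = mono p a v w ![0, 0, 0, 1, 0, 0, -1, 0, 0] := by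
      rw [hr, M2_mono_eq]; simp [div_eq_mul_inv, mul_comm]
    rw [e1]
    refine h _ fun P hP => ?_
    fin_cases P <;> first | exact absurd hP (by decide) | simp [vF]
  · have e1 : r = mono p a v w ![0, 0, 0, 0, -1, 0, 0, 0, 0] := by
      rw [hr, M2_mono_eq]; simp
    rw [e1]
    refine h _ fun P hP => ?_
    fin_cases P <;> first | exact absurd hP (by decide) | simp [vF]
  · have e1 : r = mono p a v w ![-1, 0, 0, 0, 0, 0, 0, 0, 0] := by
      rw [hr, M2_mono_eq]; simp
    rw [e1]
    refine h _ fun P hP => ?_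
    fin_cases P <;> first | exact absurd hP (by decide) | simp [vF]
  · have e1 : r = -mono p a v w ![0, 0, 0, 0, 1, -1, 0, 0, 0] := by
      rw [hr, M2_mono_eq, div_eq_mul_inv, ← neg_sub v w, inv_neg]; simp
    rw [e1]
    refine neg_mem (h _ fun P hP => ?_)
    fin_cases P <;> first | exact absurd hP (by decide) | simp [vF]

theorem M5_MM (p : ℕ) {a v w : K} (E : Subalgebra R₀ K)
    (h : ∀ e, Eff p (.M 0) e → mono p a v w e ∈ E) : MM R₀ p a v w ≤ E := by
  refine Algebra.adjoin_le ?_
  rintro r (hr | hr | hr | hr | hr | hr)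
  · have e1 : r = mono p a v w ![1, 0, 0, 0, 0, 0, 0, 0, 0] := by
      rw [hr, M2_mono_eq]; simp
    rw [e1]
    refine h _ fun P hP => ?_
    fin_cases P <;> first | exact absurd hP (by decide) | simp [vF]
  · have e1 : r = mono p a v w ![-1, 0, 0, 0, 0, 0, 0, 0, 0] := by
      rw [hr, M2_mono_eq]; simp
    rw [e1]
    refine h _ fun P hP => ?_
    fin_cases P <;> first | exact absurd hP (by decide) | simp [vF]
  · have e1 : r = mono p a v w ![0, 0, 0, -1, 0, 0, 0, 0, 0] := by
      rw [hr, M2_mono_eq]; simp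
    rw [e1]
    refine h _ fun P hP => ?_
    fin_cases P <;> first | exact absurd hP (by decide) | simp [vF]
  · have e1 : r = mono p a v w ![0, 0, 0, 0, -1, 0, 0, 0, 0] := by
      rw [hr, M2_mono_eq]; simp
    rw [e1]
    refine h _ fun P hP => ?_
    fin_cases P <;> first | exact absurd hP (by decide) | simp [vF]
  · have e1 : r = mono p a v w ![0, 0, 0, p, 0, 0, 0, -1, 0] := by
      rw [hr, M2_mono_eq]; simp [div_eq_mul_inv]
    rw [e1]
    refine h _ fun P hP => ?_
    fin_cases P <;> first | exact absurd hP (by decide) | simp [vF]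
  · have e1 : r = mono p a v w ![0, 0, 0, 0, p, 0, 0, 0, -1] := by
      rw [hr, M2_mono_eq]; simp [div_eq_mul_inv]
    rw [e1]
    refine h _ fun P hP => ?_
    fin_cases P <;> first | exact absurd hP (by decide) | simp [vF]

theorem M5_fr (p : ℕ) {A v w : K} (hN : ∀ i, fn p A v w i ≠ 0) (E : Subalgebra R₀ K) (f : Fin 6)
    {e : Fin 9 → ℤ} (h : mono p A v w (tF p e f) ∈ E) :
    mono p (fa p A v w f) (fv v w f) (fw v w f) e ∈ E :=
  (M5_pm (mono_frame p hN f e)).1 h

/-- The rings of the charts of `B` are generated by effective monomials. -/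
theorem ring_le (p : ℕ) {A v w : K} (hN : ∀ i, fn p A v w i ≠ 0) (c : Ch) (hc : c.inB)
    (E : Subalgebra R₀ K) (h : ∀ e, Eff p c e → mono p A v w e ∈ E) :
    ring R₀ p A v w c ≤ E := by
  cases c with
  | NI f => exact M5_NI p E fun e he => M5_fr p hN E f (h _ ((eff_NI p f e).2 he))
  | NII f => exact M5_NII p E fun e he => M5_fr p hN E f (h _ ((eff_NII p f e).2 he))
  | M i =>
    have h1 : ∀ e, Eff p (.M 0) e → mono p (fa p A v w (![0, 2, 4] i)) (fv v w (![0, 2, 4] i))
        (fw v w (![0, 2, 4] i)) e ∈ E := fun e he =>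
      M5_fr p hN E _ (h _ ((eff_M p i e).2 he))
    fin_cases i
    · exact M5_MM p E h1
    · exact M5_MM p E h1
    · exact M5_MM p E h1
  | T6 =>
    refine Algebra.adjoin_le ?_
    rintro r (hr | hr | hr | hr | hr | hr | hr | hr | hr)
    · have e1 : r = mono p A v w ![1, 0, 0, 0, 0, 0, 0, 0, 0] := by
        rw [hr, M2_mono_eq]; simp
      rw [e1]
      refine h _ fun P hP => ?_
      fin_cases P <;> first | exact absurd hP (by decide) | simp [vF]
    · have e1 : r = mono p A v w ![-1, 0, 0, 0, 0, 0, 0, 0, 0] := by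
        rw [hr, M2_mono_eq]; simp
      rw [e1]
      refine h _ fun P hP => ?_
      fin_cases P <;> first | exact absurd hP (by decide) | simp [vF]
    · have e1 : r = mono p A v w ![0, 1, 0, 0, 0, 0, 0, 0, 0] := by
        rw [hr, M2_mono_eq]; simp
      rw [e1]
      refine h _ fun P hP => ?_
      fin_cases P <;> first | exact absurd hP (by decide) | simp [vF]
    · have e1 : r = mono p A v w ![0, -1, 0, 0, 0, 0, 0, 0, 0] := by
        rw [hr, M2_mono_eq]; simp
      rw [e1]
      refine h _ fun P hP => ?_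
      fin_cases P <;> first | exact absurd hP (by decide) | simp [vF]
    · have e1 : r = mono p A v w ![0, 0, 1, 0, 0, 0, 0, 0, 0] := by
        rw [hr, M2_mono_eq]; simp
      rw [e1]
      refine h _ fun P hP => ?_
      fin_cases P <;> first | exact absurd hP (by decide) | simp [vF]
    · have e1 : r = mono p A v w ![0, 0, -1, 0, 0, 0, 0, 0, 0] := by
        rw [hr, M2_mono_eq]; simp
      rw [e1]
      refine h _ fun P hP => ?_
      fin_cases P <;> first | exact absurd hP (by decide) | simp [vF]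
    · have e1 : r = mono p A v w ![0, 0, 0, 0, 0, 0, -1, 0, 0] := by
        rw [hr, M2_mono_eq]; simp
      rw [e1]
      refine h _ fun P hP => ?_
      fin_cases P <;> first | exact absurd hP (by decide) | simp [vF]
    · have e1 : r = mono p A v w ![0, 0, 0, 0, 0, 0, 0, -1, 0] := by
        rw [hr, M2_mono_eq]; simp
      rw [e1]
      refine h _ fun P hP => ?_
      fin_cases P <;> first | exact absurd hP (by decide) | simp [vF]
    · have e1 : r = mono p A v w ![0, 0, 0, 0, 0, 0, 0, 0, -1] := by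
        rw [hr, M2_mono_eq]; simp
      rw [e1]
      refine h _ fun P hP => ?_
      fin_cases P <;> first | exact absurd hP (by decide) | simp [vF]
  | P1 => exact absurd hc id
  | P2 => exact absurd hc id
  | P3 => exact absurd hc id
  | P4 => exact absurd hc id
  | Y0 => exact absurd hc id

/-- The rings `P1`, `P2` are generated by effective monomials and one more element. -/
theorem P2_le (p : ℕ) {A v w : K} (hN : ∀ i, fn p A v w i ≠ 0)
    (E : Subalgebra R₀ K) (h : ∀ e, Eff p .P2 e → mono p A v w e ∈ E)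
    (hn : nn p A v w ∈ E) : ring R₀ p A v w .P2 ≤ E := by
  refine Algebra.adjoin_le ?_
  rintro r (hr | hr | hr | hr | hr | hr)
  · have e1 : r = mono p A v w ![0, 0, 0, 1, -1, 0, 0, 0, 0] := by
      rw [hr, M2_mono_eq]; simp [div_eq_mul_inv]
    rw [e1]
    refine h _ fun P hP => ?_
    fin_cases P <;> first | exact absurd hP (by decide) | simp [vF]
  · have e1 : r = mono p A v w ![0, 0, 0, 0, 1, 0, 0, 0, 0] := by
      rw [hr, M2_mono_eq]; simp
    rw [e1]
    refine h _ fun P hP => ?_
    fin_cases P <;> first | exact absurd hP (by decide) | simp [vF]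
  · rw [hr]; exact hn
  · have e1 : r = mono p A v w ![-1, 0, 0, 0, 0, 0, 0, 0, 0] := by
      rw [hr, M2_mono_eq]; simp
    rw [e1]
    refine h _ fun P hP => ?_
    fin_cases P <;> first | exact absurd hP (by decide) | simp [vF]
  · have e1 : r = mono p A v w ![0, -1, 0, 0, 0, 0, 0, 0, 0] := by
      rw [hr, M2_mono_eq]; simp
    rw [e1]
    refine h _ fun P hP => ?_
    fin_cases P <;> first | exact absurd hP (by decide) | simp [vF]
  · have e1 : r = mono p A v w ![0, 0, -1, 0, 0, 0, 0, 0, 0] := by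
      rw [hr, M2_mono_eq]; simp
    rw [e1]
    refine h _ fun P hP => ?_
    fin_cases P <;> first | exact absurd hP (by decide) | simp [vF]

theorem P1_le (p : ℕ) {A v w : K} (hN : ∀ i, fn p A v w i ≠ 0)
    (E : Subalgebra R₀ K) (h : ∀ e, Eff p .P1 e → mono p A v w e ∈ E)
    (hn : -(((v - 1) / (w - 1)) ^ 2 * nn p A v w + p * ((v - 1) / (w - 1))) ∈ E) :
    ring R₀ p A v w .P1 ≤ E := by
  refine Algebra.adjoin_le ?_
  rintro r (hr | hr | hr | hr | hr | hr)
  · have e1 : r = mono p A v w ![0, 0, 0, -1, 1, 0, 0, 0, 0] := by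
      rw [hr, M2_mono_eq]; simp [div_eq_mul_inv, mul_comm]
    rw [e1]
    refine h _ fun P hP => ?_
    fin_cases P <;> first | exact absurd hP (by decide) | simp [vF]
  · have e1 : r = mono p A v w ![0, 0, 0, 1, 0, 0, 0, 0, 0] := by
      rw [hr, M2_mono_eq]; simp
    rw [e1]
    refine h _ fun P hP => ?_
    fin_cases P <;> first | exact absurd hP (by decide) | simp [vF]
  · rw [hr]; exact hn
  · have e1 : r = mono p A v w ![-1, 0, 0, 0, 0, 0, 0, 0, 0] := by
      rw [hr, M2_mono_eq]; simp
    rw [e1]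
    refine h _ fun P hP => ?_
    fin_cases P <;> first | exact absurd hP (by decide) | simp [vF]
  · have e1 : r = mono p A v w ![0, -1, 0, 0, 0, 0, 0, 0, 0] := by
      rw [hr, M2_mono_eq]; simp
    rw [e1]
    refine h _ fun P hP => ?_
    fin_cases P <;> first | exact absurd hP (by decide) | simp [vF]
  · have e1 : r = mono p A v w ![0, 0, -1, 0, 0, 0, 0, 0, 0] := by
      rw [hr, M2_mono_eq]; simp
    rw [e1]
    refine h _ fun P hP => ?_
    fin_cases P <;> first | exact absurd hP (by decide) | simp [vF]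

end H1F
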