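import Pool.Agent.Lib.H1F.MO.M2

/-!
# H1F, chunk M6

The orders of the sections.
-/

open MvPolynomial

set_option linter.unusedSimpArgs false
set_option linter.unreachableTactic false
set_option linter.unusedTactic false
set_option linter.unusedVariables false

namespace H1F

variable {R₀ K : Type*} [CommRing R₀] [Field K] [Algebra R₀ K]

/-- The section `s c` generates `O(H)` exactly on the chart `c` (charts of `X`, `π = 4`; charts of
`B`, `π = 3`; `Y0`, `π = 3`).  For each chart sixteen (in)equalities, linear in `p`; in the frames
use `vF_tT`, `vF_tS` or compute directly. -/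
theorem vF_es_mem (p : ℕ) (hp : 5 ≤ p) (c : Ch) (hc : c.inX) (P : Fin 16) (hP : P ∈ pres c) :
    vF p (es p c) P + hH p 4 P = 0 := by
  cases c with
  | NI f =>
    fin_cases f <;> fin_cases P <;>
      first
      | exact absurd hP (by decide)
      | (simp [vF, es, tF, tS, tT, hH] <;> ring)
  | NII f =>
    fin_cases f <;> fin_cases P <;>
      first
      | exact absurd hP (by decide)
      | (simp [vF, es, tF, tS, tT, hH] <;> ring)
  | M i =>
    fin_cases i <;> fin_cases P <;>
      first
      | exact absurd hP (by decide)
      | (simp [vF, es, tF, tS, tT, hH] <;> ring)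
  | T6 =>
    fin_cases P <;>
      first
      | exact absurd hP (by decide)
      | (simp [vF, es, tF, tS, tT, hH] <;> ring)
  | P1 =>
    fin_cases P <;>
      first
      | exact absurd hP (by decide)
      | (simp [vF, es, tF, tS, tT, hH] <;> ring)
  | P2 =>
    fin_cases P <;>
      first
      | exact absurd hP (by decide)
      | (simp [vF, es, tF, tS, tT, hH] <;> ring)
  | P3 => exact absurd hc id
  | P4 => exact absurd hc id
  | Y0 => exact absurd hc id

theorem vF_es_notMem (p : ℕ) (hp : 5 ≤ p) (c : Ch) (hc : c.inX) (P : Fin 16)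
    (hP : P ∉ pres c) : 0 < vF p (es p c) P + hH p 4 P := by
  cases c with
  | NI f =>
    fin_cases f <;> fin_cases P <;>
      first
      | exact absurd (by decide) hP
      | (simp [vF, es, tF, tS, tT, hH] <;> omega)
  | NII f =>
    fin_cases f <;> fin_cases P <;>
      first
      | exact absurd (by decide) hP
      | (simp [vF, es, tF, tS, tT, hH] <;> omega)
  | M i =>
    fin_cases i <;> fin_cases P <;>
      first
      | exact absurd (by decide) hP
      | (simp [vF, es, tF, tS, tT, hH] <;> omega)
  | T6 =>
    fin_cases P <;>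
      first
      | exact absurd (by decide) hP
      | (simp [vF, es, tF, tS, tT, hH] <;> omega)
  | P1 =>
    fin_cases P <;>
      first
      | exact absurd (by decide) hP
      | (simp [vF, es, tF, tS, tT, hH] <;> omega)
  | P2 =>
    fin_cases P <;>
      first
      | exact absurd (by decide) hP
      | (simp [vF, es, tF, tS, tT, hH] <;> omega)
  | P3 => exact absurd hc id
  | P4 => exact absurd hc id
  | Y0 => exact absurd hc id

/-- The charts of `B` do not meet `Π`; at most one of the `E`. -/
theorem pres_B (c : Ch) (hc : c.inB) : (15 : Fin 16) ∉ pres c ∧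
    (12 ∈ pres c → 13 ∉ pres c ∧ 14 ∉ pres c) ∧ (13 ∈ pres c → 12 ∉ pres c ∧ 14 ∉ pres c) ∧
    (14 ∈ pres c → 12 ∉ pres c ∧ 13 ∉ pres c) := by
  cases c with
  | NI f => clear hc; revert f; decide
  | NII f => clear hc; revert f; decide
  | M i => clear hc; revert i; decide
  | T6 => decide
  | P1 => exact absurd hc id
  | P2 => exact absurd hc id
  | P3 => exact absurd hc id
  | P4 => exact absurd hc id
  | Y0 => exact absurd hc id

theorem vF_es_Y0 (p : ℕ) (P : Fin 16) (hP : P ∈ pres .Y0) :
    vF p (es p .Y0) P + hH p 3 P = 0 := by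
  fin_cases P <;>
    first
    | exact absurd hP (by decide)
    | (simp [vF, es, tF, tS, tT, hH] <;> ring)

theorem vF_es_Y0' (p : ℕ) (hp : 5 ≤ p) (P : Fin 16) (hP : P ∉ pres .Y0) :
    0 < vF p (es p .Y0) P + hH p 3 P := by
  fin_cases P <;>
    first
    | exact absurd (by decide) hP
    | (simp [vF, es, tF, tS, tT, hH] <;> omega)

end H1F
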