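import Pool.Agent.Lib.H1F.MO.M5
import Pool.Agent.Lib.H1F.MO.M6

/-!
# H1F, chunk M7

Monomials in the intersection of two charts.
-/

open MvPolynomial

namespace H1F

variable {R₀ K : Type*} [CommRing R₀] [Field K] [Algebra R₀ K]

/-- The abstract form of `mono_mem_loc`: `g` has order `0` along the primes of `S` in `T` and order
at least `1` along the other primes of `S`. -/
theorem mono_mem_loc_aux {R : Subalgebra R₀ K} (p : ℕ) {A v w : K}
    (hN : ∀ i, fn p A v w i ≠ 0) (S T : Finset (Fin 16)) (g : Fin 9 → ℤ)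
    (hR : ∀ e : Fin 9 → ℤ, (∀ P ∈ S, 0 ≤ vF p e P) → mono p A v w e ∈ R)
    (h0 : ∀ P ∈ S, P ∈ T → 0 ≤ vF p g P) (h1 : ∀ P ∈ S, P ∉ T → 1 ≤ vF p g P)
    {e : Fin 9 → ℤ} (he : ∀ P ∈ T, P ∈ S → 0 ≤ vF p e P) :
    mono p A v w e ∈ R ⊔ Algebra.adjoin R₀ {(mono p A v w g)⁻¹} := by
  classical
  obtain ⟨N, hNP⟩ : ∃ N : ℕ, ∀ P, -(N : ℤ) ≤ vF p e P := by
    refine ⟨∑ P, (vF p e P).natAbs, fun P ↦ ?_⟩
    have h2 : (vF p e P).natAbs ≤ ∑ P, (vF p e P).natAbs :=
      Finset.single_le_sum (f := fun P ↦ (vF p e P).natAbs) (fun _ _ ↦ Nat.zero_le _)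
        (Finset.mem_univ P)
    omega
  have hmem : mono p A v w (e + N • g) ∈ R := by
    apply hR
    intro P hP
    rw [vF_add, vF_nsmul, Pi.add_apply, Pi.smul_apply, nsmul_eq_mul]
    by_cases hPT : P ∈ T
    · have h3 := he P hPT hP
      have h4 := h0 P hP hPT
      have h5 : 0 ≤ (N : ℤ) * vF p g P := mul_nonneg (Int.natCast_nonneg N) h4
      linarith
    · have h3 := h1 P hP hPT
      have h4 := hNP P
      have h5 : (N : ℤ) * 1 ≤ (N : ℤ) * vF p g P :=
        mul_le_mul_of_nonneg_left h3 (Int.natCast_nonneg N)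
      linarith
  have hg := mono_ne_zero hN g
  have heq : mono p A v w e = mono p A v w (e + N • g) * ((mono p A v w g)⁻¹) ^ N := by
    rw [mono_add hN, mono_nsmul, inv_pow, mul_assoc, mul_inv_cancel₀ (pow_ne_zero _ hg), mul_one]
  rw [heq]
  refine mul_mem ((le_sup_left : R ≤ R ⊔ _) hmem) (pow_mem ?_ N)
  exact (le_sup_right : _ ≤ R ⊔ Algebra.adjoin R₀ {(mono p A v w g)⁻¹})
    (Algebra.subset_adjoin rfl)

/-- If `mono e` is effective along the primes which meet both charts, then it lies in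
`R d [1/(s c / s d)]`: multiply by a large power of `s c / s d`, whose order along the primes of
`d` is `0` if they meet `c`, and positive otherwise. -/
theorem mono_mem_loc (p : ℕ) (hp : 5 ≤ p) {A v w : K} (hN : ∀ i, fn p A v w i ≠ 0) (c d : Ch)
    (hc : c.inX) (hd : d.inX) {e : Fin 9 → ℤ} (he : ∀ P ∈ pres c, P ∈ pres d → 0 ≤ vF p e P) :
    mono p A v w e ∈
      ring R₀ p A v w d ⊔ Algebra.adjoin R₀ {(mono p A v w (es p c - es p d))⁻¹} := by
  refine mono_mem_loc_aux p hN (pres d) (pres c) (es p c - es p d)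
    (fun e he ↦ mono_mem p hN d hd he) ?_ ?_ he
  · intro P hPd hPc
    have h1 := vF_es_mem p hp c hc P hPc
    have h2 := vF_es_mem p hp d hd P hPd
    rw [vF_sub, Pi.sub_apply]
    omega
  · intro P hPd hPc
    have h1 := vF_es_notMem p hp c hc P hPc
    have h2 := vF_es_mem p hp d hd P hPd
    rw [vF_sub, Pi.sub_apply]
    omega

/-- `s c / s d` lies in the ring of the chart `d`. -/
theorem section_mem (p : ℕ) (hp : 5 ≤ p) {A v w : K} (hN : ∀ i, fn p A v w i ≠ 0) (c d : Ch)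
    (hc : c.inX) (hd : d.inX) : mono p A v w (es p c - es p d) ∈ ring R₀ p A v w d := by
  refine mono_mem p hN d hd ?_
  intro P hPd
  have h2 := vF_es_mem p hp d hd P hPd
  rw [vF_sub, Pi.sub_apply]
  by_cases hPc : P ∈ pres c
  · have h1 := vF_es_mem p hp c hc P hPc
    omega
  · have h1 := vF_es_notMem p hp c hc P hPc
    omega

end H1F
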