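import Pool.Agent.Lib.H1F.MO.M7

/-!
# H1F, chunk M8

The extra coordinates `n`, `n'` in the other charts.
-/

open MvPolynomial

namespace H1F

variable {R₀ K : Type*} [CommRing R₀] [Field K] [Algebra R₀ K]

/-- `θ(b) ∈ E` if `b ∈ E`. -/
theorem th_mem (p : ℕ) {E : Subalgebra R₀ K} {b : K} (hb : b ∈ E) : th p b ∈ E :=
  sum_mem fun _ _ ↦ mul_mem (natCast_mem E _) (pow_mem hb _)

/-- `θ₁(b) ∈ E` if `b ∈ E`. -/
theorem th1_mem (p : ℕ) {E : Subalgebra R₀ K} {b : K} (hb : b ∈ E) : th1 p b ∈ E :=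
  sum_mem fun _ _ ↦ mul_mem (natCast_mem E _) (pow_mem hb _)

section

variable (p : ℕ) {A v w : K} (hN : ∀ i, fn p A v w i ≠ 0)

include hN

/-- Quotients of two special functions. -/
theorem fn_div_mem (E : Subalgebra R₀ K) (S D : Finset (Fin 16))
    (h : ∀ e : Fin 9 → ℤ, (∀ P ∈ S, P ∈ D → 0 ≤ vF p e P) → mono p A v w e ∈ E) (i j : Fin 9)
    (hij : ∀ P ∈ S, P ∈ D → 0 ≤ vF p (Pi.single i 1 - Pi.single j 1) P) :
    fn p A v w i / fn p A v w j ∈ E := by
  rw [fn_eq_mono p A v w i, fn_eq_mono p A v w j, ← mono_sub hN]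
  exact h _ hij

omit hN in
/-- Special functions. -/
theorem fn_mem (E : Subalgebra R₀ K) (S D : Finset (Fin 16))
    (h : ∀ e : Fin 9 → ℤ, (∀ P ∈ S, P ∈ D → 0 ≤ vF p e P) → mono p A v w e ∈ E) (i : Fin 9)
    (hi : ∀ P ∈ S, P ∈ D → 0 ≤ vF p (Pi.single i 1) P) :
    fn p A v w i ∈ E := by
  rw [fn_eq_mono p A v w i]
  exact h _ hi

theorem nn_mem_of (E : Subalgebra R₀ K) (D : Finset (Fin 16)) (hD : 14 ∉ D ∨ 12 ∉ D)
    (h : ∀ e : Fin 9 → ℤ, (∀ P ∈ pres .Y0, P ∈ D → 0 ≤ vF p e P) → mono p A v w e ∈ E) :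
    nn p A v w ∈ E := by
  have hv : v - 1 ≠ 0 := hN 3
  have hw : w - 1 ≠ 0 := hN 4
  have hvw : v - w ≠ 0 := hN 5
  obtain ⟨h1, h2, -⟩ := nn_eq p hN
  have hmv : v - 1 ∈ E := by
    refine fn_mem p E _ D h 3 ?_
    intro P hP hPD
    simp only [pres, Finset.mem_insert, Finset.mem_singleton] at hP
    rcases hP with rfl | rfl | rfl | rfl | rfl | rfl | rfl <;> simp [vF]
  rcases hD with hD | hD
  · have h3 : nn p A v w = (w - 1) / (v - 1) * ((A - v ^ p) / (v - w) + th p (v - 1)) := by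
      rw [← h1]
      field_simp
    rw [h3]
    refine mul_mem ?_ (add_mem ?_ (th_mem p hmv))
    · refine fn_div_mem p hN E _ D h 4 3 ?_
      intro P hP hPD
      simp only [pres, Finset.mem_insert, Finset.mem_singleton] at hP
      rcases hP with rfl | rfl | rfl | rfl | rfl | rfl | rfl <;>
        first
        | exact absurd hPD hD
        | simp [vF]
    · refine fn_div_mem p hN E _ D h 7 5 ?_
      intro P hP hPD
      simp only [pres, Finset.mem_insert, Finset.mem_singleton] at hP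
      rcases hP with rfl | rfl | rfl | rfl | rfl | rfl | rfl <;> simp [vF]
  · have h3 : nn p A v w =
        (w - 1) / (v - w) * ((A - 1) / (v - 1) - p - (w - 1) * th1 p (v - 1)) := by
      rw [← h2]
      field_simp
    rw [h3]
    have hmw : w - 1 ∈ E := by
      refine fn_mem p E _ D h 4 ?_
      intro P hP hPD
      simp only [pres, Finset.mem_insert, Finset.mem_singleton] at hP
      rcases hP with rfl | rfl | rfl | rfl | rfl | rfl | rfl <;> simp [vF]
    refine mul_mem ?_ (sub_mem (sub_mem ?_ (natCast_mem E _)) (mul_mem hmw (th1_mem p hmv)))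
    · refine fn_div_mem p hN E _ D h 4 5 ?_
      intro P hP hPD
      simp only [pres, Finset.mem_insert, Finset.mem_singleton] at hP
      rcases hP with rfl | rfl | rfl | rfl | rfl | rfl | rfl <;>
        first
        | exact absurd hPD hD
        | simp [vF]
    · refine fn_div_mem p hN E _ D h 6 3 ?_
      intro P hP hPD
      simp only [pres, Finset.mem_insert, Finset.mem_singleton] at hP
      rcases hP with rfl | rfl | rfl | rfl | rfl | rfl | rfl <;> simp [vF]

theorem nn'_mem_of (E : Subalgebra R₀ K) (D : Finset (Fin 16)) (hD : 13 ∉ D ∨ 12 ∉ D)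
    (h : ∀ e : Fin 9 → ℤ, (∀ P ∈ pres .Y0, P ∈ D → 0 ≤ vF p e P) → mono p A v w e ∈ E) :
    -(((v - 1) / (w - 1)) ^ 2 * nn p A v w + p * ((v - 1) / (w - 1))) ∈ E := by
  have hv : v - 1 ≠ 0 := hN 3
  have hw : w - 1 ≠ 0 := hN 4
  have hvw : v - w ≠ 0 := hN 5
  obtain ⟨h1, -, -⟩ := nn_eq p hN
  have hmv : v - 1 ∈ E := by
    refine fn_mem p E _ D h 3 ?_
    intro P hP hPD
    simp only [pres, Finset.mem_insert, Finset.mem_singleton] at hP
    rcases hP with rfl | rfl | rfl | rfl | rfl | rfl | rfl <;> simp [vF]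
  have h0 : -(((v - 1) / (w - 1)) ^ 2 * nn p A v w + p * ((v - 1) / (w - 1))) =
      -((v - 1) / (w - 1) * ((A - v ^ p) / (v - w) + th p (v - 1) + p)) := by
    rw [← h1]
    ring
  rw [h0]
  rcases hD with hD | hD
  · refine neg_mem (mul_mem ?_ (add_mem (add_mem ?_ (th_mem p hmv)) (natCast_mem E _)))
    · refine fn_div_mem p hN E _ D h 3 4 ?_
      intro P hP hPD
      simp only [pres, Finset.mem_insert, Finset.mem_singleton] at hP
      rcases hP with rfl | rfl | rfl | rfl | rfl | rfl | rfl <;>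
        first
        | exact absurd hPD hD
        | simp [vF]
    · refine fn_div_mem p hN E _ D h 7 5 ?_
      intro P hP hPD
      simp only [pres, Finset.mem_insert, Finset.mem_singleton] at hP
      rcases hP with rfl | rfl | rfl | rfl | rfl | rfl | rfl <;> simp [vF]
  · have hth : (v - 1) * th p (v - 1) = v ^ p - 1 - p * (v - 1) := by
      have := th_mul p (v - 1)
      rwa [add_sub_cancel] at this
    have h3 : -((v - 1) / (w - 1) * ((A - v ^ p) / (v - w) + th p (v - 1) + p)) =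
        (v - 1) / (v - w) * (p + th p (v - 1) - (A - 1) / (w - 1)) := by
      have hth' : v ^ p = (v - 1) * th p (v - 1) + 1 + p * (v - 1) := by
        rw [hth]; ring
      rw [hth']
      field_simp
      ring
    rw [h3]
    refine mul_mem ?_ (sub_mem (add_mem (natCast_mem E _) (th_mem p hmv)) ?_)
    · refine fn_div_mem p hN E _ D h 3 5 ?_
      intro P hP hPD
      simp only [pres, Finset.mem_insert, Finset.mem_singleton] at hP
      rcases hP with rfl | rfl | rfl | rfl | rfl | rfl | rfl <;>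
        first
        | exact absurd hPD hD
        | simp [vF]
    · refine fn_div_mem p hN E _ D h 6 4 ?_
      intro P hP hPD
      simp only [pres, Finset.mem_insert, Finset.mem_singleton] at hP
      rcases hP with rfl | rfl | rfl | rfl | rfl | rfl | rfl <;> simp [vF]

end

theorem P2_subset : pres .P2 ⊆ pres .Y0 := by decide

theorem P1_subset : pres .P1 ⊆ pres .Y0 := by decide

/-- Charts of `B` are charts of `X`. -/
theorem Ch.inB.inX {c : Ch} (hc : c.inB) : c.inX := by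
  cases c <;> simp_all [Ch.inX, Ch.inB]

/-- `n` lies in `R d [1/(s P2 / s d)]`.  If `E_z` (`14`) does not meet `d`:
`n = (w-1)/(v-1) * ((A-v^p)/(v-w) + θ(v-1))`, and the monomials `(w-1)/(v-1)`, `(A-v^p)/(v-w)`,
`v - 1` are effective along the common primes of `P2` and `d` (`θ` is a polynomial).  If `E_z` meets
`d`, then `E_x` does not and `n = (w-1)/(v-w) * ((A-1)/(v-1) - p - (w-1) θ₁(v-1))`. -/
theorem nn_mem (p : ℕ) (hp : 5 ≤ p) {A v w : K} (hN : ∀ i, fn p A v w i ≠ 0) (d : Ch)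
    (hd : d.inB) : nn p A v w ∈
      ring R₀ p A v w d ⊔ Algebra.adjoin R₀ {(mono p A v w (es p .P2 - es p d))⁻¹} := by
  refine nn_mem_of p hN _ (pres d) ?_ fun e he ↦ mono_mem_loc p hp hN .P2 d trivial hd.inX
    fun P hP hPd ↦ he P (P2_subset hP) hPd
  obtain ⟨-, -, -, h14⟩ := pres_B d hd
  by_cases h : (14 : Fin 16) ∈ pres d
  · exact Or.inr (h14 h).1
  · exact Or.inl h

/-- `n' = -(s^2 n + p s)`.  If `E_y` (`13`) does not meet `d`:
`n' = -(v-1)/(w-1) * ((A-v^p)/(v-w) + θ(v-1) + p)`; otherwise `E_x` does not and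
`n' = (v-1)/(v-w) * (p + θ(v-1) - (A-1)/(w-1))`. -/
theorem nn'_mem (p : ℕ) (hp : 5 ≤ p) {A v w : K} (hN : ∀ i, fn p A v w i ≠ 0) (d : Ch)
    (hd : d.inB) : -(((v - 1) / (w - 1)) ^ 2 * nn p A v w + p * ((v - 1) / (w - 1))) ∈
      ring R₀ p A v w d ⊔ Algebra.adjoin R₀ {(mono p A v w (es p .P1 - es p d))⁻¹} := by
  refine nn'_mem_of p hN _ (pres d) ?_ fun e he ↦ mono_mem_loc p hp hN .P1 d trivial hd.inX
    fun P hP hPd ↦ he P (P1_subset hP) hPd
  obtain ⟨-, -, h13, -⟩ := pres_B d hd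
  by_cases h : (13 : Fin 16) ∈ pres d
  · exact Or.inr (h13 h).1
  · exact Or.inl h

end H1F
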